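import Pool.Agent.H50.LG.Stm

/-! # LG-BLK: disjoint windows are independent -/

set_option autoImplicit false

open MeasureTheory Filter ProbabilityTheory
open scoped Topology ENNReal

namespace Pool.Agent.H50.LG

namespace BLKaux

open Classical in
lemma ee_iff {Ω : Type} (A : ℕ → Set Ω) (ω : Ω) (m U : ℕ) :
    ω ∈ EE A m U ↔ ∀ l ∈ Finset.Ioc m (m + U), (A l).indicator (fun _ => (1 : ℕ)) ω = 0 := by
  unfold EE
  simp only [Set.mem_setOf_eq, Finset.mem_Ioc, Set.indicator_apply_eq_zero]
  constructor
  · intro h l hl hmem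
    have h2 := h (l - m - 1) (by omega)
    rw [show m + (l - m - 1) + 1 = l by omega] at h2
    exact absurd hmem h2
  · intro h j hj hmem
    have := h (m + j + 1) ⟨by omega, by omega⟩ hmem
    exact absurd this one_ne_zero

/-- events which depend only on finitely many discrete coordinates -/
lemma pre {Ω κ : Type} {F : Ω → κ} {E : Set Ω} (h : ∀ ω ω', F ω = F ω' → ω ∈ E → ω' ∈ E) :
    F ⁻¹' (F '' E) = E := by
  refine Set.Subset.antisymm ?_ (Set.subset_preimage_image F E)
  rintro ω ⟨ω', h1, h2⟩
  exact h ω' ω h2 h1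

end BLKaux

open Classical in
theorem blk : S_BLK := by
  intro Ω _ P A hP hA hind M U pos hpos
  have h1 : iIndepFun (fun (m : ℕ) => (A m).indicator (fun _ => (1 : ℕ))) P :=
    hind.iIndepFun_indicator
  have hf : ∀ m : ℕ, Measurable ((A m).indicator (fun _ => (1 : ℕ))) :=
    fun m => measurable_const.indicator (hA m)
  have hEE : ∀ m, MeasurableSet (EE A m U) := by
    intro m
    have : EE A m U = ⋂ j ∈ Finset.range U, (A (m + j + 1))ᶜ := by
      ext ω
      simp [EE]
    rw [this]
    exact Finset.measurableSet_biInter _ fun j _ => (hA _).compl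
  induction M with
  | zero => simp
  | succ M ih =>
    set S : Finset ℕ := Finset.Ioc 0 (pos M) with hS
    set T : Finset ℕ := Finset.Ioc (pos M) (pos M + U) with hT
    have hdis : Disjoint S T := by
      rw [Finset.disjoint_left]
      intro a ha hb
      simp only [S, T, Finset.mem_Ioc] at ha hb
      omega
    have h2 := h1.indepFun_finset S T hdis hf
    rw [indepFun_iff_measure_inter_preimage_eq_mul] at h2
    set F : Ω → (S → ℕ) := fun a i => (A i).indicator (fun _ => (1 : ℕ)) a with hF
    set G : Ω → (T → ℕ) := fun a i => (A i).indicator (fun _ => (1 : ℕ)) a with hG'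
    set E1 : Set Ω := {ω | ∀ i < M, ω ∉ EE A (pos i) U} with hE1
    set E2 : Set Ω := (EE A (pos M) U)ᶜ with hE2
    have p1 : F ⁻¹' (F '' E1) = E1 := by
      apply BLKaux.pre
      intro ω ω' hω h i hi h'
      refine h i hi ?_
      rw [BLKaux.ee_iff] at h' ⊢
      intro l hl
      have hlS : l ∈ S := by
        have := hpos i M hi
        simp only [S, Finset.mem_Ioc] at hl ⊢
        omega
      have := congrFun hω ⟨l, hlS⟩
      exact this.trans (h' l hl)
    have p2 : G ⁻¹' (G '' E2) = E2 := by
      apply BLKaux.pre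
      intro ω ω' hω h h'
      refine h ?_
      rw [BLKaux.ee_iff] at h' ⊢
      intro l hl
      have := congrFun hω ⟨l, hl⟩
      exact this.trans (h' l hl)
    have h3 := h2 (F '' E1) (G '' E2) (Set.to_countable _).measurableSet
      (Set.to_countable _).measurableSet
    rw [p1, p2] at h3
    rw [Finset.prod_range_succ, ← ih]
    have e1 : {ω | ∀ i < M + 1, ω ∉ EE A (pos i) U} = E1 ∩ E2 := by
      ext ω
      simp only [hE1, hE2, Set.mem_inter_iff, Set.mem_setOf_eq, Set.mem_compl_iff]
      constructor
      · intro h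
        exact ⟨fun i hi => h i (by omega), h M (by omega)⟩
      · rintro ⟨ha, hb⟩ i hi
        rcases Nat.lt_succ_iff_lt_or_eq.1 hi with h | h
        · exact ha i h
        · rw [h]; exact hb
    rw [e1, h3, ENNReal.toReal_mul, hE2]
    congr 1
    rw [prob_compl_eq_one_sub (hEE _), ENNReal.toReal_sub_of_le prob_le_one ENNReal.one_ne_top,
      ENNReal.toReal_one]

end Pool.Agent.H50.LG
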