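import Pool.Agent.H50.LG.Stm
import Pool.Agent.H50.CW.EXD
import Pool.Agent.H50.BF.FIN
import Pool.Agent.H50.GW.EXDK

/-! LG-EXG (helper19) -/

set_option autoImplicit false

namespace Pool.Agent.H50.LG

open Pool.Agent.H50.BF Pool.Agent.H50.BF.BTaux Filter
open scoped Topology

namespace EXGaux

/-- the floor of `w^s` -/
lemma flo {s δ : ℝ} (hs : 2 ≤ s) (hδ : 0 < δ) (hδ1 : δ ≤ 1) : ∀ᶠ w : ℕ in atTop, (1 : ℝ) ≤ w ∧
    (w : ℝ) ^ 2 ≤ (w : ℝ) ^ s ∧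
    (w : ℝ) ^ 2 / 2 ≤ (⌊(w : ℝ) ^ s⌋₊ : ℝ) ∧ (⌊(w : ℝ) ^ s⌋₊ : ℝ) ≤ (w : ℝ) ^ s ∧
    (w : ℝ) ^ s ≤ (1 + δ) * (⌊(w : ℝ) ^ s⌋₊ : ℝ) ∧ ((w : ℝ) + 1) ^ s ≤ (1 + δ) * (⌊(w : ℝ) ^ s⌋₊ : ℝ) := by
  have h1 : Tendsto (fun w : ℕ => (1 : ℝ) / (w : ℝ)) atTop (𝓝 0) :=
    tendsto_one_div_atTop_nhds_zero_nat
  have h2 : Tendsto (fun w : ℕ => (1 + 1 / (w : ℝ)) ^ s) atTop (𝓝 ((1 + 0) ^ s)) :=
    (h1.const_add 1).rpow_const (Or.inl (by norm_num))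
  rw [add_zero, Real.one_rpow] at h2
  filter_upwards [h2.eventually (gt_mem_nhds (by linarith : (1 : ℝ) < 1 + δ / 2)),
    tendsto_natCast_atTop_atTop.eventually_ge_atTop (2 + 4 / δ : ℝ)] with w hw hw2
  have h4 : 0 < 4 / δ := by positivity
  have hw1 : (2 : ℝ) ≤ w := by linarith
  have hw0 : (0 : ℝ) < w := by linarith
  have a1 : (w : ℝ) ^ 2 ≤ (w : ℝ) ^ s := by
    rw [← Real.rpow_two]
    exact Real.rpow_le_rpow_of_exponent_le (by linarith) hs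
  have a2 : (w : ℝ) ^ s < (⌊(w : ℝ) ^ s⌋₊ : ℝ) + 1 := Nat.lt_floor_add_one _
  have a3 : (⌊(w : ℝ) ^ s⌋₊ : ℝ) ≤ (w : ℝ) ^ s := Nat.floor_le (by positivity)
  have a4 : ((w : ℝ) + 1) ^ s = (w : ℝ) ^ s * (1 + 1 / (w : ℝ)) ^ s := by
    rw [← Real.mul_rpow hw0.le (by positivity)]
    congr 1
    field_simp
  have a5 : 4 / δ ≤ (w : ℝ) ^ s := by nlinarith
  rw [div_le_iff₀ hδ] at a5
  have a6 : (1 + δ / 2) * (w : ℝ) ^ s ≤ (1 + δ) * (⌊(w : ℝ) ^ s⌋₊ : ℝ) := by nlinarith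
  have a7 : 0 ≤ δ / 2 * (w : ℝ) ^ s := by positivity
  refine ⟨by linarith, a1, by nlinarith, a3, by linarith, ?_⟩
  rw [a4]
  calc (w : ℝ) ^ s * (1 + 1 / (w : ℝ)) ^ s ≤ (w : ℝ) ^ s * (1 + δ / 2) :=
        mul_le_mul_of_nonneg_left hw.le (by positivity)
    _ = (1 + δ / 2) * (w : ℝ) ^ s := by ring
    _ ≤ _ := a6

end EXGaux

open EXGaux

theorem exg : S_TRANS → S_SUB → S_EXG := by
  intro ⟨C0, hC0, htrans⟩ ⟨C1, hC1, hsub⟩ s C ε σ hs hC hε hσ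
  obtain ⟨θ, hθ, hθ1, hθε⟩ : ∃ θ : ℝ, 0 < θ ∧ θ ≤ 1 / 2 ∧ C0 * θ ≤ ε / 2 := by
    refine ⟨min (1 / 2) (ε / (2 * C0)), lt_min (by norm_num) (by positivity), min_le_left _ _, ?_⟩
    calc C0 * min (1 / 2) (ε / (2 * C0)) ≤ C0 * (ε / (2 * C0)) :=
          mul_le_mul_of_nonneg_left (min_le_right _ _) hC0.le
      _ = ε / 2 := by field_simp
  obtain ⟨δ, hδ, hδ1, hδε⟩ : ∃ δ : ℝ, 0 < δ ∧ δ ≤ 1 ∧ C1 * δ ≤ ε / 2 := by
    refine ⟨min 1 (ε / (2 * C1)), lt_min (by norm_num) (by positivity), min_le_left _ _, ?_⟩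
    calc C1 * min 1 (ε / (2 * C1)) ≤ C1 * (ε / (2 * C1)) :=
          mul_le_mul_of_nonneg_left (min_le_right _ _) hC1.le
      _ = ε / 2 := by field_simp
  refine ⟨θ / 4, by positivity, by linarith, ?_⟩
  obtain ⟨N0, hN0⟩ := eventually_atTop.1
    ((htrans θ hθ hθ1).and ((hsub δ hδ hδ1).and ((flo hs hδ hδ1).and hσ)))
  filter_upwards [GW.EXaux.lev' (D := 2 * C) (by linarith) hθ hθ1,
    eventually_ge_atTop (2 * C * (N0 + 1))] with T h2 h3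
  intro m U v hU1 hU2 hv1 hv2
  have hN : (0 : ℝ) ≤ N0 := Nat.cast_nonneg _
  have hCp : 0 < C := by linarith
  have hT2 : 2 * C ≤ T := by
    refine le_trans ?_ h3
    have : 0 ≤ 2 * C * N0 := by positivity
    linarith
  have hT1 : 1 ≤ T := by linarith
  have hT0 : 0 < T := by linarith
  have hs0 : 0 < s := by linarith
  have hTs : 0 < T ^ s := Real.rpow_pos_of_pos hT0 _
  have hU0 : (0 : ℝ) < U := lt_of_lt_of_le (by positivity) hU1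
  obtain ⟨x, hx⟩ : ∃ x : ℝ, x = (U : ℝ) ^ (1 / s) := ⟨_, rfl⟩
  have hx0 : 0 < x := by rw [hx]; exact Real.rpow_pos_of_pos hU0 _
  have hxs : x ^ s = U := by
    rw [hx, ← Real.rpow_mul hU0.le, one_div_mul_cancel hs0.ne', Real.rpow_one]
  have hTx : (T ^ s) ^ (1 / s) = T := by
    rw [← Real.rpow_mul hT0.le, mul_one_div_cancel hs0.ne', Real.rpow_one]
  have hs1 : 1 / s ≤ 1 := by
    rw [div_le_one hs0]; linarith
  have hCs : C ^ (1 / s) ≤ C := by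
    calc C ^ (1 / s) ≤ C ^ (1 : ℝ) := Real.rpow_le_rpow_of_exponent_le hC hs1
      _ = C := Real.rpow_one C
  have hxu : x ≤ C * T := by
    calc x ≤ (C * T ^ s) ^ (1 / s) := by
          rw [hx]; exact Real.rpow_le_rpow hU0.le hU2 (by positivity)
      _ = C ^ (1 / s) * T := by rw [Real.mul_rpow hCp.le hTs.le, hTx]
      _ ≤ C * T := mul_le_mul_of_nonneg_right hCs hT0.le
  have hxl : T / C ≤ x := by
    calc T / C ≤ T / C ^ (1 / s) :=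
          div_le_div_of_nonneg_left hT0.le (Real.rpow_pos_of_pos hCp _) hCs
      _ = (T ^ s / C) ^ (1 / s) := by rw [Real.div_rpow hTs.le hCp.le, hTx]
      _ ≤ x := by rw [hx]; exact Real.rpow_le_rpow (by positivity) hU1 (by positivity)
  obtain ⟨w, hw⟩ : ∃ w : ℕ, w = ⌊x⌋₊ := ⟨_, rfl⟩
  have hwx : (w : ℝ) ≤ x := by rw [hw]; exact Nat.floor_le hx0.le
  have hxw : x < w + 1 := by rw [hw]; exact Nat.lt_floor_add_one x
  have hwl : T / (2 * C) ≤ w := by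
    have e1 : T / C = 2 * (T / (2 * C)) := by field_simp
    have e2 : 1 ≤ T / (2 * C) := by rw [le_div_iff₀ (by positivity)]; linarith
    linarith
  have hwN : N0 ≤ w := by
    have e1 : (N0 : ℝ) + 1 ≤ T / (2 * C) := by
      rw [le_div_iff₀ (by positivity)]; linarith
    have : (N0 : ℝ) ≤ w := by linarith
    exact_mod_cast this
  obtain ⟨k1, k2, ⟨k3, k4, k5, k6, k7, k8⟩, k9⟩ := hN0 w hwN
  obtain ⟨c1, c2⟩ := h2 w hwl (by
    have : 0 ≤ C * T := by positivity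
    linarith)
  have hww1 : (w : ℝ) ^ (1 - θ) ≤ w := by
    calc (w : ℝ) ^ (1 - θ) ≤ (w : ℝ) ^ (1 : ℝ) := Real.rpow_le_rpow_of_exponent_le k3 (by linarith)
      _ = w := Real.rpow_one _
  have hww2 : (w : ℝ) ≤ (w : ℝ) ^ (1 + θ) := by
    calc (w : ℝ) = (w : ℝ) ^ (1 : ℝ) := (Real.rpow_one _).symm
      _ ≤ (w : ℝ) ^ (1 + θ) := Real.rpow_le_rpow_of_exponent_le k3 (by linarith)
  obtain ⟨V, hV⟩ : ∃ V : ℕ, V = ⌊(w : ℝ) ^ s⌋₊ := ⟨_, rfl⟩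
  rw [← hV] at k5 k6 k7 k8
  have hwU : (w : ℝ) ^ s ≤ U := by
    rw [← hxs]; exact Real.rpow_le_rpow (Nat.cast_nonneg _) hwx hs0.le
  have hVU : V ≤ U := by
    have : (V : ℝ) ≤ U := k6.trans hwU
    exact_mod_cast this
  have hUV : (U : ℝ) ≤ (1 + δ) * V := by
    refine le_trans ?_ k8
    rw [← hxs]; exact Real.rpow_le_rpow hx0.le hxw.le hs0.le
  have hw2U : (w : ℝ) ^ 2 / 2 ≤ U := k5.trans (by exact_mod_cast hVU)
  have h5 := CW.CWaux.two_lev k1 (fun _ => 0) v w m U (c1.trans hv1) hww1 (hv2.trans c2) hww2 hw2U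
  have hsq1 : Real.sqrt w ≤ w := by
    rw [Real.sqrt_le_left (by linarith)]
    nlinarith
  have hww3 : (w : ℝ) ≤ (w : ℝ) ^ 2 := by nlinarith
  have h6 := k2 (fun _ => 0) w m V U hsq1 hww3 k5 hVU hUV
  have hMM := MM_pos w
  have hV0 : (0 : ℝ) < V := lt_of_lt_of_le (by positivity) k5
  have h7 := CW.CWaux.dens_close (U := (V : ℝ)) (U' := (U : ℝ)) hMM.le hV0
    (by exact_mod_cast hVU) hUV hδ.le (Nat.cast_nonneg _)
    (Nat.cast_le.2 (sv_mono m hVU)) h6.1 h6.2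
  have h8 : lo w s ≤ (sv (fun _ => 0) w m V : ℝ) * (MM w / V) := by
    refine (BF.lo_le w s m).trans ?_
    unfold vl
    rw [← hV, mul_div_assoc]
    refine mul_le_mul_of_nonneg_left ?_ (Nat.cast_nonneg _)
    exact div_le_div_of_nonneg_left hMM.le hV0 k6
  rw [abs_le] at h5 h7
  linarith [h5.1, h7.1]

end Pool.Agent.H50.LG
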