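import Pool.Agent.H50.LG.Stm

/-!
# Project LG, second part: the largest gap `G(x)`, upper AND lower limit

`limsup G(x) / log² x = 1 / liminf_w lo w (2/α)` and `liminf G(x) / log² x = 1 / limsup_w lo w (2/α)`, almost surely.
File `Pool/Agent/H50/LG/X.lean`, `import Pool.Agent.H50.LG.Stm2`, namespace `Pool.Agent.H50.LG`, theorem `x : (used stubs) → S_X`.
-/

set_option autoImplicit false

open MeasureTheory Filter ProbabilityTheory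
open scoped Topology ENNReal

namespace Pool.Agent.H50.LG

open Pool.Agent.H50.BF Pool.Agent.H50.GW

/-- EXL (about 120 lines; uses BF.S_TRANS, BF.S_SUB).  All windows of length `≈ w^s` have density at least `lo w s - ε`.
Proof.  `sv 0 w m ⌊w^s⌋₊ MM w / w^s ≥ lo w s` (`lo_le`); SUB (both orders of `⌊w^s⌋₊` and `U`) and TRANS (from the level `w`
to `v`), exactly as in the (proved) `Pool/Agent/H50/LG/EXH.lean`, `Pool/Agent/H50/LG/EXG.lean`. -/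
def S_EXL : Prop := ∀ s ε : ℝ, 2 ≤ s → 0 < ε → ∃ η : ℝ, 0 < η ∧ η ≤ 1 / 2 ∧ ∀ᶠ w : ℕ in atTop, ∀ m U v : ℕ,
  |(U : ℝ) - (w : ℝ) ^ s| ≤ η * (w : ℝ) ^ s → (w : ℝ) ^ (1 - η) ≤ v → (v : ℝ) ≤ (w : ℝ) ^ (1 + η) →
    lo w s - ε ≤ (sv (fun _ => 0) v m U : ℝ) * (MM v / U)

/-- NUL (about 30 lines).  This is proved inside `Pool/Agent/H50/LG/INFG.lean`. -/
def S_NUL : Prop := ∀ (Ω : Type) [MeasurableSpace Ω] (P : Measure Ω) (A : ℕ → Set Ω) (z : ℕ → ℕ) (α : ℝ),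
  0 < α → α ≤ 1 → SMod P A z α → Tendsto (fun n : ℕ => (P (EE A n n)).toReal) atTop (𝓝 0)

/-- UPQ (about 250 lines; uses EXL, NUL, WNG, MMZ, BF.S_MERT).  If `c σ > 1` and `lo w (2/α) ≥ σ` for arbitrarily large `w`, there are
arbitrarily large `X` such that with probability near `1` all windows of length `c log² X` which begin below `X` contain a
chosen integer.
Proof.  `s = 2/α ≥ 2`.  Choose `ε ∈ (0, 1/10)` with `(1 - ε)³ c (σ - ε) ≥ 1 + 2 ε`; `η` from EXL for `s, ε`.  For large `w` with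
`σ ≤ lo w s` let `X = ⌈exp √(w^s/c)⌉₊`, `U = ⌊c log² X⌋₊`; then `U / w^s → 1` and `(log X)^α / w → c^(-α/2)` as `w → ∞` (compare `XL`, `LL`,
`UU`, `LL_ratio`, `zrange` in `Pool/Agent/H50/LG/LOP.lean`, with `c` for `c'`).  By EXL
`sv 0 v n U ≥ (σ - ε) U / MM v` for all `n` and all levels `v` with `w^(1-η) ≤ v ≤ w^(1+η)`.  Let `n₁ = U / 2` (integer division).
(0) `n ≤ n₁`: `EE A n U ⊆ EE A n₁ n₁`, since `(n₁, 2 n₁] ⊆ (n, n + U]`; `P (EE A n₁ n₁) → 0` (NUL).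
(1) `n₁ < n ≤ X` and `log n ≤ (log X)^(1 - η/4)`: WNG with `m = n` (`U ≤ 2 n`; `n > n₁ → ∞`) gives `P (EE A n U) ≤ exp (-E)` with
`E = (1 - ε) (MM (z n) / log n) sv 0 (z (3n)) n U`.  `z (3n) ≤ ((log n)^α)^(1+η/8) ≤ w` for large `w` (MMZ), `sv` is nonincreasing in the
level, `MM (z n) ≥ 1`: `E ≥ (1 - ε) (σ - ε) U / (MM w log n) ≥ c₁ (log X)^(1 + η/4) / MM w ≥ 2 log X`, because `MM w ≤ C (1 + log w)` (MERT) and
`log w = O(log log X)`.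
(2) `(log X)^(1 - η/4) < log n ≤ log X`: now `v = z (3n)` satisfies `w^(1-η) ≤ v ≤ w^(1+η)` (MMZ with `η/4`, `z n ≤ z (3n)`), and
`MM (z n) ≥ (1 - ε) MM (z (3n))`, so `E ≥ (1 - ε)² (σ - ε) U / log n ≥ (1 - ε)² (σ - ε) (c log² X - 1) / log X ≥ (1 + ε) log X`.
So the probability that some `EE A n U`, `n ≤ X`, occurs is at most `P (EE A n₁ n₁) + (X + 1) exp (-(1 + ε) log X) → 0`. -/
def S_UPQ : Prop := ∀ (Ω : Type) [MeasurableSpace Ω] (P : Measure Ω) (A : ℕ → Set Ω) (z : ℕ → ℕ) (α : ℝ),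
  0 < α → α ≤ 1 → SMod P A z α → ∀ c σ : ℝ, 0 < c → 0 ≤ σ → (∃ᶠ w : ℕ in atTop, σ ≤ lo w (2 / α)) → 1 < c * σ →
  ∀ (N : ℕ) (κ : ℝ), 0 < κ → ∃ X : ℕ, N ≤ X ∧
    1 - κ ≤ (P {ω | ∀ n : ℕ, n ≤ X → ω ∉ EE A n ⌊c * Real.log X ^ 2⌋₊}).toReal

/-- LOQ (about 250 lines; uses EXH, GW.S_POSK, WNG, BLK, MMZ).  If `c σ < 1` and `lo w (2/α) ≤ σ` for all large `w`, almost surely for all
large `X` there is an empty window of length `c log² X` in `[X, 2X]`.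
Proof.  As `Pool/Agent/H50/LG/LOP.lean` (proved), but now `X` is given and large: `c' > c`, `ε` as there,
`w = ⌊(c' log² X)^(1/s)⌋₊` (so `w^s ≤ c' log² X < (w+1)^s`, `w^s / (c' log² X) → 1`), `U = ⌊w^s⌋₊` (so `⌊c log² X⌋₊ ≤ U ≤ c' log² X` for large
`X`, and `|U - w^s| ≤ η w^s`).  Everything else as there; it gives, for all large `X`,
`P {no EE A n ⌊c log² X⌋₊, X ≤ n ≤ 2X, occurs} ≤ exp (-M exp (-r log X)) ≤ exp (-X^b)` (`b > 0`; `M ≥ X^(1 - small)`, `r < 1`), which is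
summable over the natural numbers `X`; Borel-Cantelli (`ae_eventually_notMem`). -/
def S_LOQ : Prop := ∀ (Ω : Type) [MeasurableSpace Ω] (P : Measure Ω) (A : ℕ → Set Ω) (z : ℕ → ℕ) (α : ℝ),
  0 < α → α ≤ 1 → SMod P A z α → ∀ c σ : ℝ, 0 < c → 0 ≤ σ → (∀ᶠ w : ℕ in atTop, lo w (2 / α) ≤ σ) → c * σ < 1 →
  ∀ᵐ ω ∂P, ∀ᶠ X : ℕ in atTop, ∃ n : ℕ, X ≤ n ∧ n ≤ 2 * X ∧ ω ∈ EE A n ⌊c * Real.log X ^ 2⌋₊

/-- `G(x) / log² x`: the largest difference of consecutive elements of `S`, the smaller one `≤ x` -/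
noncomputable def gx (S : Set ℕ) (x : ℝ) : ℝ≥0∞ :=
  (⨆ (j : ℕ) (_ : (Nat.nth (· ∈ S) j : ℝ) ≤ x), ((Nat.nth (· ∈ S) (j + 1) - Nat.nth (· ∈ S) j : ℕ) : ℝ≥0∞)) /
    ENNReal.ofReal (Real.log x ^ 2)

/-- GXU (about 150 lines; deterministic).  Compare `Pool/Agent/H50/LG/GAPG.lean`.  `s_j = Nat.nth (· ∈ S) j`.
(a) The windows after `n ≥ n₀` contain elements: if `s_j ≥ n₀`, `s_j ≤ x`, then `s_(j+1) - s_j ≤ c log² s_j ≤ c log² x`; the finitely many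
gaps with `s_j < n₀` are bounded by some `K ≤ c log² x` for large `x`.  So the supremum is `≤ ofReal (c log² x)`.
(b) `n` large with an empty window, `s_j` = the last element `≤ n`: `s_(j+1) - s_j ≥ ⌊c log² n⌋₊ + 1 ≥ c log² n`, so `gx S n ≥ ofReal c`. -/
def S_GXU : Prop := ∀ S : Set ℕ, S.Infinite → ∀ c : ℝ, 0 < c →
  ((∀ᶠ n : ℕ in atTop, ∃ j < ⌊c * Real.log n ^ 2⌋₊, n + j + 1 ∈ S) →
    limsup (fun x : ℝ => gx S x) atTop ≤ ENNReal.ofReal c) ∧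
  ((∃ᶠ n : ℕ in atTop, ∀ j < ⌊c * Real.log n ^ 2⌋₊, n + j + 1 ∉ S) →
    ENNReal.ofReal c ≤ limsup (fun x : ℝ => gx S x) atTop)

/-- GXL (about 130 lines; deterministic).  (c) For such `X` (`≥ 3`) every `s_j ≤ X` has `s_(j+1) ≤ s_j + ⌊c log² X⌋₊`, so `gx S X ≤ ofReal c`.
(d) For large real `x` let `X = ⌊x / 2⌋₊` and `n ∈ [X, 2X]`, `n ≤ x`, as in the hypothesis; the last element `s_j ≤ n` (it exists for
large `x`) has `s_(j+1) - s_j ≥ ⌊c log² X⌋₊ + 1 ≥ c log² X`, so `gx S x ≥ ofReal (c log² ⌊x/2⌋₊ / log² x) → ofReal c`. -/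
def S_GXL : Prop := ∀ S : Set ℕ, S.Infinite → ∀ c : ℝ, 0 < c →
  ((∃ᶠ X : ℕ in atTop, ∀ n ≤ X, ∃ j < ⌊c * Real.log X ^ 2⌋₊, n + j + 1 ∈ S) →
    liminf (fun x : ℝ => gx S x) atTop ≤ ENNReal.ofReal c) ∧
  ((∀ᶠ X : ℕ in atTop, ∃ n : ℕ, X ≤ n ∧ n ≤ 2 * X ∧ ∀ j < ⌊c * Real.log X ^ 2⌋₊, n + j + 1 ∉ S) →
    ENNReal.ofReal c ≤ liminf (fun x : ℝ => gx S x) atTop)

end Pool.Agent.H50.LG
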