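import Pool.Agent.H50.LG.EXG
import Pool.Agent.H50.LG.Stm2

/-! LG-EXL (adapted from EXH by helper19) -/

set_option autoImplicit false

namespace Pool.Agent.H50.LG

open Pool.Agent.H50.BF Pool.Agent.H50.BF.BTaux Filter EXGaux
open scoped Topology

theorem exl : S_TRANS → S_SUB → S_EXL := by
  intro ⟨C0, hC0, htrans⟩ ⟨C1, hC1, hsub⟩ s ε hs hε
  obtain ⟨θ, hθ, hθ1, hθε⟩ : ∃ θ : ℝ, 0 < θ ∧ θ ≤ 1 / 2 ∧ C0 * θ ≤ ε / 8 := by
    refine ⟨min (1 / 2) (ε / (8 * C0)), lt_min (by norm_num) (by positivity), min_le_left _ _, ?_⟩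
    calc C0 * min (1 / 2) (ε / (8 * C0)) ≤ C0 * (ε / (8 * C0)) :=
          mul_le_mul_of_nonneg_left (min_le_right _ _) hC0.le
      _ = ε / 8 := by field_simp
  obtain ⟨δ, hδ, hδ1, hδε⟩ : ∃ δ : ℝ, 0 < δ ∧ δ ≤ 1 ∧ C1 * δ ≤ ε / 8 := by
    refine ⟨min 1 (ε / (8 * C1)), lt_min (by norm_num) (by positivity), min_le_left _ _, ?_⟩
    calc C1 * min 1 (ε / (8 * C1)) ≤ C1 * (ε / (8 * C1)) :=
          mul_le_mul_of_nonneg_left (min_le_right _ _) hC1.le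
      _ = ε / 8 := by field_simp
  obtain ⟨η, hη, hηθ, hηδ⟩ : ∃ η : ℝ, 0 < η ∧ η ≤ θ ∧ η ≤ δ / 4 :=
    ⟨min θ (δ / 4), lt_min hθ (by positivity), min_le_left _ _, min_le_right _ _⟩
  refine ⟨η, hη, by linarith, ?_⟩
  filter_upwards [htrans θ hθ hθ1, hsub δ hδ hδ1,
    flo (δ := δ / 4) hs (by positivity) (by linarith)] with w k1 k2 k3'
  obtain ⟨k3, k4, k5, k6, k7, k8⟩ := k3'
  intro m U v hU hv1 hv2
  rw [abs_le] at hU
  have hw0 : (0 : ℝ) < w := by linarith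
  obtain ⟨W, hW⟩ : ∃ W : ℝ, W = (w : ℝ) ^ s := ⟨_, rfl⟩
  obtain ⟨V, hV⟩ : ∃ V : ℕ, V = ⌊(w : ℝ) ^ s⌋₊ := ⟨_, rfl⟩
  rw [← hV] at k5 k6 k7 k8
  rw [← hW] at k4 k6 k7 hU
  have hw2 : (0 : ℝ) < (w : ℝ) ^ 2 := by positivity
  have hW0 : 0 < W := lt_of_lt_of_le hw2 k4
  have hV0 : (0 : ℝ) < V := lt_of_lt_of_le (by positivity) k5
  have hηW : η * W ≤ δ / 4 * W := mul_le_mul_of_nonneg_right hηδ hW0.le
  have hηW2 : δ / 4 * W ≤ 1 / 4 * W := mul_le_mul_of_nonneg_right (by linarith) hW0.le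
  have hw2U : (w : ℝ) ^ 2 / 2 ≤ U := by linarith [hU.1]
  have hU0 : (0 : ℝ) < U := lt_of_lt_of_le (by positivity) hw2U
  have hww1 : (w : ℝ) ^ (1 - θ) ≤ w := by
    calc (w : ℝ) ^ (1 - θ) ≤ (w : ℝ) ^ (1 : ℝ) := Real.rpow_le_rpow_of_exponent_le k3 (by linarith)
      _ = w := Real.rpow_one _
  have hww2 : (w : ℝ) ≤ (w : ℝ) ^ (1 + θ) := by
    calc (w : ℝ) = (w : ℝ) ^ (1 : ℝ) := (Real.rpow_one _).symm
      _ ≤ (w : ℝ) ^ (1 + θ) := Real.rpow_le_rpow_of_exponent_le k3 (by linarith)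
  have hwm : (w : ℝ) ^ (1 - θ) ≤ (w : ℝ) ^ (1 - η) :=
    Real.rpow_le_rpow_of_exponent_le k3 (by linarith)
  have hwp : (w : ℝ) ^ (1 + η) ≤ (w : ℝ) ^ (1 + θ) :=
    Real.rpow_le_rpow_of_exponent_le k3 (by linarith)
  have hsq1 : Real.sqrt w ≤ w := by
    rw [Real.sqrt_le_left (by linarith)]
    nlinarith
  have hww3 : (w : ℝ) ≤ (w : ℝ) ^ 2 := by nlinarith
  have hMM := MM_pos w
  obtain ⟨t, ht⟩ : ∃ t : ℕ, t = m := ⟨m, rfl⟩
  rw [← ht]
  have h7 : |(sv (fun _ => 0) w t U : ℝ) * (MM w / U) -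
      (sv (fun _ => 0) w t V : ℝ) * (MM w / V)| ≤ C1 * δ := by
    rcases le_total V U with hUU | hUU
    · have hU' : (U : ℝ) ≤ (1 + δ) * V := by
        have e1 : (U : ℝ) ≤ (1 + δ / 4) * W := by linarith [hU.2]
        have e2 : (1 + δ / 4) * W ≤ (1 + δ / 4) * ((1 + δ / 4) * V) :=
          mul_le_mul_of_nonneg_left k7 (by linarith)
        have e3 : (1 + δ / 4) * ((1 + δ / 4) * V) ≤ (1 + δ) * V := by
          rw [← mul_assoc]
          refine mul_le_mul_of_nonneg_right ?_ hV0.le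
          nlinarith
        linarith
      have h6 := k2 (fun _ => 0) w t V U hsq1 hww3 k5 hUU hU'
      exact CW.CWaux.dens_close (U := (V : ℝ)) (U' := (U : ℝ)) hMM.le hV0
        (by exact_mod_cast hUU) hU' hδ.le (Nat.cast_nonneg _)
        (Nat.cast_le.2 (sv_mono t hUU)) h6.1 h6.2
    · have hU' : (V : ℝ) ≤ (1 + δ) * U := by
        have e1 : (1 - δ / 4) * W ≤ U := by linarith [hU.1]
        have e2 : (1 + δ) * ((1 - δ / 4) * W) ≤ (1 + δ) * U :=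
          mul_le_mul_of_nonneg_left e1 (by linarith)
        have e3 : 1 * W ≤ (1 + δ) * (1 - δ / 4) * W := by
          refine mul_le_mul_of_nonneg_right ?_ hW0.le
          nlinarith
        linarith
      have h6 := k2 (fun _ => 0) w t U V hsq1 hww3 hw2U hUU hU'
      rw [abs_sub_comm]
      exact CW.CWaux.dens_close (U := (U : ℝ)) (U' := (V : ℝ)) hMM.le hU0
        (by exact_mod_cast hUU) hU' hδ.le (Nat.cast_nonneg _)
        (Nat.cast_le.2 (sv_mono t hUU)) h6.1 h6.2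
  have h8 : lo w s ≤ (sv (fun _ => 0) w t V : ℝ) * (MM w / V) := by
    have e0 : vl w s t ≤ (sv (fun _ => 0) w t V : ℝ) * (MM w / V) := by
      unfold vl
      rw [← hV, ← hW, mul_div_assoc]
      exact mul_le_mul_of_nonneg_left (div_le_div_of_nonneg_left hMM.le hV0 k6) (Nat.cast_nonneg _)
    exact (lo_le w s t).trans e0
  have h5 := CW.CWaux.two_lev k1 (fun _ => 0) v w t U (hwm.trans hv1) hww1 (hv2.trans hwp) hww2 hw2U
  rw [abs_le] at h5 h7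
  linarith [h5.1, h7.1]

end Pool.Agent.H50.LG
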