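import Pool.Agent.H50.LG.Stm
import Pool.Agent.H50.GW.GXM

set_option autoImplicit false

open MeasureTheory Filter ProbabilityTheory
open scoped Topology ENNReal

namespace Pool.Agent.H50.LG

open Pool.Agent.H50.BF Pool.Agent.H50.GW

namespace EXMGaux

open BTaux GXMaux

/-- the level -/
noncomputable def zz (α : ℝ) (n : ℕ) : ℕ := ⌊Real.log n ^ α⌋₊

/-- the probabilities -/
noncomputable def qq (α : ℝ) (n : ℕ) : ℝ := min 1 (MM (zz α n) / Real.log n)

lemma qq_nonneg (α : ℝ) (n : ℕ) : 0 ≤ qq α n := by
  unfold qq
  exact le_min zero_le_one (div_nonneg (MM_pos _).le (Real.log_natCast_nonneg n))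

lemma qq_le (α : ℝ) (n : ℕ) : qq α n ≤ 1 := min_le_left _ _

/-- the distribution of one coordinate -/
noncomputable def mmu (α : ℝ) (n : ℕ) : Measure Bool :=
  ENNReal.ofReal (qq α n) • Measure.dirac true + ENNReal.ofReal (1 - qq α n) • Measure.dirac false

instance (α : ℝ) (n : ℕ) : IsProbabilityMeasure (mmu α n) := by
  constructor
  unfold mmu
  rw [Measure.add_apply, Measure.smul_apply, Measure.smul_apply, measure_univ, measure_univ,
    smul_eq_mul, smul_eq_mul, mul_one, mul_one, ← ENNReal.ofReal_add (qq_nonneg α n)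
      (sub_nonneg.2 (qq_le α n)), add_sub_cancel, ENNReal.ofReal_one]

lemma mmu_true (α : ℝ) (n : ℕ) : mmu α n {true} = ENNReal.ofReal (qq α n) := by
  unfold mmu
  rw [Measure.add_apply, Measure.smul_apply, Measure.smul_apply,
    Measure.dirac_apply' _ (MeasurableSet.of_discrete), Measure.dirac_apply' _ (MeasurableSet.of_discrete)]
  simp

open Classical in
/-- the set of allowed values -/
noncomputable def BBB (α : ℝ) (n : ℕ) : Set Bool := if Rou (zz α n) n then {true} else ∅

/-- the events -/
noncomputable def AAA (α : ℝ) (n : ℕ) : Set (ℕ → Bool) := (fun ω => ω n) ⁻¹' BBB α n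

lemma AAA_meas (α : ℝ) (n : ℕ) : MeasurableSet (AAA α n) :=
  (measurable_pi_apply n) (MeasurableSet.of_discrete)

end EXMGaux

open EXMGaux BTaux GXMaux in
theorem exmg : S_EXMG := by
  intro α hα hα1
  refine ⟨ℕ → Bool, inferInstance, Measure.infinitePi (mmu α), AAA α, zz α, ?_⟩
  have hlog : Tendsto (fun n : ℕ => Real.log n) atTop atTop :=
    Real.tendsto_log_atTop.comp tendsto_natCast_atTop_atTop
  refine ⟨inferInstance, AAA_meas α, ?_, ?_, ?_, ?_, ?_⟩
  · rw [iIndepSet_iff_meas_biInter (AAA_meas α)]
    intro s
    have h := iIndepFun_infinitePi (P := mmu α) (X := fun _ x => x) (fun _ => measurable_id)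
    exact h.measure_inter_preimage_eq_mul s (sets := BBB α) (fun _ _ => MeasurableSet.of_discrete)
  · intro n hn
    unfold AAA BBB
    rw [if_neg hn, Set.preimage_empty]
  · intro m n hmn
    unfold zz
    apply Nat.floor_mono
    have h0 : Real.log (m : ℝ) ≤ Real.log n := by
      rcases Nat.eq_zero_or_pos m with h | h
      · subst h
        rw [Nat.cast_zero, Real.log_zero]
        exact Real.log_natCast_nonneg n
      · exact Real.log_le_log (by exact_mod_cast h) (by exact_mod_cast hmn)
    exact Real.rpow_le_rpow (Real.log_natCast_nonneg m) h0 hα.le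
  · have h1 : Tendsto (fun n : ℕ => Real.log n ^ α) atTop atTop :=
      (tendsto_rpow_atTop hα).comp hlog
    have h2 := (log_ratio.comp h1).mul_const α
    rw [one_mul] at h2
    refine h2.congr' ?_
    filter_upwards [hlog.eventually_ge_atTop 3] with n hn
    have hl : Real.log (Real.log n) ≠ 0 := (Real.log_pos (by linarith)).ne'
    simp only [Function.comp]
    rw [Real.log_rpow (by linarith)]
    unfold zz
    field_simp
  · refine tendsto_const_nhds.congr' ?_
    rw [Filter.EventuallyEq, eventually_inf_principal]
    filter_upwards [hlog.eventually_ge_atTop 1] with n hn hr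
    have hr' : Rou (zz α n) n := hr
    have hp1 : 1 ≤ Real.log n ^ α := Real.one_le_rpow hn hα.le
    have hz : 1 ≤ zz α n := Nat.le_floor (by push_cast; exact hp1)
    have hM : MM (zz α n) ≤ Real.log n := by
      refine (MM_le _ hz).trans ((Nat.floor_le (by linarith)).trans ?_)
      calc Real.log n ^ α ≤ Real.log n ^ (1 : ℝ) := Real.rpow_le_rpow_of_exponent_le hn hα1
        _ = Real.log n := Real.rpow_one _
    have hM0 := MM_pos (zz α n)
    have hq : qq α n = MM (zz α n) / Real.log n := by
      unfold qq
      apply min_eq_right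
      rw [div_le_one (by linarith)]
      exact hM
    have hP : Measure.infinitePi (mmu α) (AAA α n) = ENNReal.ofReal (qq α n) := by
      unfold AAA BBB
      rw [if_pos hr', ← Measure.map_apply (measurable_pi_apply n) (MeasurableSet.of_discrete),
        Measure.infinitePi_map_eval, mmu_true]
    rw [hP, ENNReal.toReal_ofReal (qq_nonneg α n), hq]
    field_simp

end Pool.Agent.H50.LG
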