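import Pool.Agent.H50.LG.Stm
import Pool.Agent.H50.BF.FIN

set_option autoImplicit false

open MeasureTheory Filter ProbabilityTheory
open scoped Topology ENNReal

namespace Pool.Agent.H50.LG

open Pool.Agent.H50.BF Pool.Agent.H50.GW

/-- almost surely infinitely many windows are empty -/
lemma log_of_lop (hL : S_LOP) {Ω : Type} [MeasurableSpace Ω] (P : Measure Ω) (A : ℕ → Set Ω) (z : ℕ → ℕ) (α : ℝ)
    (h0 : 0 < α) (h1 : α ≤ 1) (hM : SMod P A z α) (c σ : ℝ) (hc : 0 < c) (hσ : 0 ≤ σ)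
    (hf : ∃ᶠ w : ℕ in atTop, lo w (2 / α) ≤ σ) (hcs : c * σ < 1) :
    ∀ᵐ ω ∂P, ∃ᶠ n : ℕ in atTop, ω ∈ EE A n ⌊c * Real.log n ^ 2⌋₊ := by
  haveI := hM.prob
  have key : ∀ N : ℕ, P {ω | ∀ n : ℕ, N ≤ n → ω ∉ EE A n ⌊c * Real.log n ^ 2⌋₊} = 0 := by
    intro N
    have h2 : ∀ κ : ℝ, 0 < κ → (P {ω | ∀ n : ℕ, N ≤ n → ω ∉ EE A n ⌊c * Real.log n ^ 2⌋₊}).toReal ≤ κ := by
      intro κ hκ
      obtain ⟨X, hX, h3⟩ := hL Ω P A z α h0 h1 hM c σ hc hσ hf hcs N κ hκ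
      refine le_trans ?_ h3
      refine ENNReal.toReal_mono (measure_ne_top _ _) (measure_mono fun ω hω n hn _ => hω n (hX.trans hn))
    have h4 : (P {ω | ∀ n : ℕ, N ≤ n → ω ∉ EE A n ⌊c * Real.log n ^ 2⌋₊}).toReal = 0 :=
      le_antisymm (le_of_forall_pos_le_add fun κ hκ => by linarith [h2 κ hκ]) ENNReal.toReal_nonneg
    rcases (ENNReal.toReal_eq_zero_iff _).1 h4 with h5 | h5
    · exact h5
    · exact absurd h5 (measure_ne_top _ _)
  have h6 : ∀ᵐ ω ∂P, ∀ N : ℕ, ω ∉ {ω | ∀ n : ℕ, N ≤ n → ω ∉ EE A n ⌊c * Real.log n ^ 2⌋₊} :=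
    ae_all_iff.2 fun N => measure_eq_zero_iff_ae_notMem.1 (key N)
  filter_upwards [h6] with ω hω
  rw [frequently_atTop]
  intro N
  have := hω N
  simp only [Set.mem_setOf_eq, not_forall, not_not] at this
  obtain ⟨n, hn, h7⟩ := this
  exact ⟨n, hn, h7⟩

theorem fing (hU : S_UPG) (hL : S_LOP) (hI : S_INFG) (hG : S_GAPG) (hlt : ∀ s : ℝ, 2 ≤ s → sl s < 1) :
    ∀ (Ω : Type) [MeasurableSpace Ω] (P : Measure Ω) (A : ℕ → Set Ω) (z : ℕ → ℕ) (α : ℝ),
    0 < α → α ≤ 1 → SMod P A z α → ∀ᵐ ω ∂P, {n : ℕ | ω ∈ A n}.Infinite ∧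
      limsup (fun j => gp {n : ℕ | ω ∈ A n} j) atTop = (sl (2 / α))⁻¹ := by
  intro Ω _ P A z α h0 h1 hM
  have hs : 2 ≤ 2 / α := by
    rw [le_div_iff₀ h0]; linarith
  have hl1 : sl (2 / α) < 1 := hlt _ hs
  have hup : ∀ᵐ ω ∂P, ∀ q : ℚ, (sl (2 / α))⁻¹ < ENNReal.ofReal q →
      limsup (fun j => gp {n : ℕ | ω ∈ A n} j) atTop ≤ ENNReal.ofReal q := by
    rw [ae_all_iff]
    intro q
    by_cases hq : (sl (2 / α))⁻¹ < ENNReal.ofReal q
    · have hq0 : (0 : ℝ) < q := ENNReal.ofReal_pos.1 (lt_of_le_of_lt bot_le hq)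
      have h2 : (ENNReal.ofReal q)⁻¹ < sl (2 / α) := ENNReal.inv_lt_iff_inv_lt.1 hq
      obtain ⟨σ, hσ0, hσ1, hσ2⟩ := ENNReal.lt_iff_exists_real_btwn.1 h2
      have h3 : 1 < (q : ℝ) * σ := by
        rw [← ENNReal.ofReal_inv_of_pos hq0] at hσ1
        have := (ENNReal.ofReal_lt_ofReal_iff_of_nonneg (by positivity)).1 hσ1
        rw [inv_lt_iff_one_lt_mul₀ hq0] at this
        linarith
      have h4 : ∀ᶠ w : ℕ in atTop, σ ≤ lo w (2 / α) := by
        filter_upwards [eventually_lt_of_lt_liminf hσ2] with w hw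
        exact ((ENNReal.ofReal_lt_ofReal_iff_of_nonneg hσ0).1 hw).le
      filter_upwards [hU Ω P A z α h0 h1 hM q σ hq0 hσ0 h4 h3, hI Ω P A z α h0 h1 hM] with ω hω hω' _
      refine (hG _ hω' q hq0).1 ?_
      filter_upwards [hω] with n hn
      simp only [EE, Set.mem_setOf_eq, not_forall, not_not] at hn
      obtain ⟨j, hj, h5⟩ := hn
      exact ⟨j, hj, h5⟩
    · exact Eventually.of_forall fun ω h => absurd h hq
  have hlo : ∀ᵐ ω ∂P, ∀ q : ℚ, ENNReal.ofReal q < (sl (2 / α))⁻¹ →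
      ENNReal.ofReal q ≤ limsup (fun j => gp {n : ℕ | ω ∈ A n} j) atTop := by
    rw [ae_all_iff]
    intro q
    by_cases hq0 : (0 : ℝ) < q
    · by_cases hq : ENNReal.ofReal q < (sl (2 / α))⁻¹
      · have h2 : sl (2 / α) < (ENNReal.ofReal q)⁻¹ := ENNReal.lt_inv_iff_lt_inv.1 hq
        obtain ⟨σ, hσ0, hσ1, hσ2⟩ := ENNReal.lt_iff_exists_real_btwn.1 h2
        have h3 : (q : ℝ) * σ < 1 := by
          rw [← ENNReal.ofReal_inv_of_pos hq0] at hσ2
          have := (ENNReal.ofReal_lt_ofReal_iff_of_nonneg hσ0).1 hσ2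
          rw [lt_inv_comm₀ (by
            rcases hσ0.lt_or_eq with h | h
            · exact h
            · exact absurd hσ1 (by rw [← h]; simp)) hq0, lt_inv_comm₀ hq0 (by
            rcases hσ0.lt_or_eq with h | h
            · exact h
            · exact absurd hσ1 (by rw [← h]; simp))] at this
          calc (q : ℝ) * σ < q * (q : ℝ)⁻¹ := by
                exact mul_lt_mul_of_pos_left this hq0
            _ = 1 := mul_inv_cancel₀ hq0.ne'
        have h4 : ∃ᶠ w : ℕ in atTop, lo w (2 / α) ≤ σ := by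
          refine (frequently_lt_of_liminf_lt (by isBoundedDefault) hσ1).mono fun w hw => ?_
          exact ((ENNReal.ofReal_lt_ofReal_iff_of_nonneg (lo_nonneg w _)).1 hw).le
        filter_upwards [log_of_lop hL P A z α h0 h1 hM q σ hq0 hσ0 h4 h3, hI Ω P A z α h0 h1 hM] with ω hω hω' _
        refine (hG _ hω' q hq0).2 ?_
        exact hω.mono fun n hn => hn
      · exact Eventually.of_forall fun ω h => absurd h hq
    · refine Eventually.of_forall fun ω _ => ?_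
      rw [ENNReal.ofReal_of_nonpos (not_lt.1 hq0)]
      exact zero_le'
  filter_upwards [hup, hlo, hI Ω P A z α h0 h1 hM] with ω h2 h3 h4
  refine ⟨h4, le_antisymm ?_ ?_⟩
  · refine le_of_forall_gt_imp_ge_of_dense fun b hb => ?_
    obtain ⟨q, hq0, hq1, hq2⟩ := ENNReal.lt_iff_exists_rat_btwn.1 hb
    exact (h2 q hq1).trans hq2.le
  · refine le_of_forall_lt fun b hb => ?_
    obtain ⟨q, hq0, hq1, hq2⟩ := ENNReal.lt_iff_exists_rat_btwn.1 hb
    exact lt_of_lt_of_le hq1 (h3 q hq2)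

end Pool.Agent.H50.LG
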