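import Pool.Agent.H50.LG.Stm2
import Pool.Agent.H50.LG.FING

set_option autoImplicit false

open MeasureTheory Filter ProbabilityTheory
open scoped Topology ENNReal

namespace Pool.Agent.H50.LG

open Pool.Agent.H50.BF Pool.Agent.H50.GW

/-- the upper limit of the least densities -/
noncomputable def su (s : ℝ) : ℝ≥0∞ := limsup (fun w : ℕ => ENNReal.ofReal (lo w s)) atTop

lemma meas_EE {Ω : Type} [MeasurableSpace Ω] {A : ℕ → Set Ω} (h : ∀ n, MeasurableSet (A n)) (m U : ℕ) :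
    MeasurableSet (EE A m U) := by
  have : EE A m U = ⋂ j ∈ Finset.range U, (A (m + j + 1))ᶜ := by
    ext ω
    simp [EE]
  rw [this]
  exact MeasurableSet.biInter (Finset.countable_toSet _) fun j _ => (h _).compl

/-- almost surely arbitrarily large `X` are good -/
lemma upq_ae (hQ : S_UPQ) {Ω : Type} [MeasurableSpace Ω] (P : Measure Ω) (A : ℕ → Set Ω) (z : ℕ → ℕ) (α : ℝ)
    (h0 : 0 < α) (h1 : α ≤ 1) (hM : SMod P A z α) (c σ : ℝ) (hc : 0 < c) (hσ : 0 ≤ σ)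
    (hf : ∃ᶠ w : ℕ in atTop, σ ≤ lo w (2 / α)) (hcs : 1 < c * σ) :
    ∀ᵐ ω ∂P, ∃ᶠ X : ℕ in atTop, ∀ n : ℕ, n ≤ X → ω ∉ EE A n ⌊c * Real.log X ^ 2⌋₊ := by
  have := hM.prob
  have key : ∀ N : ℕ, P {ω | ∀ X : ℕ, N ≤ X → ¬ ∀ n : ℕ, n ≤ X → ω ∉ EE A n ⌊c * Real.log X ^ 2⌋₊} = 0 := by
    intro N
    have h2 : ∀ κ : ℝ, 0 < κ →
        (P {ω | ∀ X : ℕ, N ≤ X → ¬ ∀ n : ℕ, n ≤ X → ω ∉ EE A n ⌊c * Real.log X ^ 2⌋₊}).toReal ≤ κ := by
      intro κ hκ
      obtain ⟨X, hX, h3⟩ := hQ Ω P A z α h0 h1 hM c σ hc hσ hf hcs N κ hκ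
      have hm : MeasurableSet {ω | ∀ n : ℕ, n ≤ X → ω ∉ EE A n ⌊c * Real.log X ^ 2⌋₊} := by
        have h4 : {ω | ∀ n : ℕ, n ≤ X → ω ∉ EE A n ⌊c * Real.log X ^ 2⌋₊} =
            ⋂ n ∈ Finset.range (X + 1), (EE A n ⌊c * Real.log X ^ 2⌋₊)ᶜ := by
          ext ω
          simp
        rw [h4]
        exact MeasurableSet.biInter (Finset.countable_toSet _) fun j _ => (meas_EE hM.meas _ _).compl
      have h5 : (P {ω | ∀ n : ℕ, n ≤ X → ω ∉ EE A n ⌊c * Real.log X ^ 2⌋₊}ᶜ).toReal ≤ κ := by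
        have h6 := measureReal_compl (μ := P) hm
        simp only [Measure.real, measure_univ, ENNReal.toReal_one] at h6
        linarith
      refine le_trans ?_ h5
      exact ENNReal.toReal_mono (measure_ne_top _ _) (measure_mono fun ω hω => hω X hX)
    have h4 : (P {ω | ∀ X : ℕ, N ≤ X → ¬ ∀ n : ℕ, n ≤ X → ω ∉ EE A n ⌊c * Real.log X ^ 2⌋₊}).toReal = 0 :=
      le_antisymm (le_of_forall_pos_le_add fun κ hκ => by linarith [h2 κ hκ]) ENNReal.toReal_nonneg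
    rcases (ENNReal.toReal_eq_zero_iff _).1 h4 with h5 | h5
    · exact h5
    · exact absurd h5 (measure_ne_top _ _)
  have h6 : ∀ᵐ ω ∂P, ∀ N : ℕ, ω ∉ {ω | ∀ X : ℕ, N ≤ X → ¬ ∀ n : ℕ, n ≤ X → ω ∉ EE A n ⌊c * Real.log X ^ 2⌋₊} :=
    ae_all_iff.2 fun N => measure_eq_zero_iff_ae_notMem.1 (key N)
  filter_upwards [h6] with ω hω
  rw [frequently_atTop]
  intro N
  by_contra hcon
  refine hω N fun X hX hX' => ?_
  exact hcon ⟨X, hX, hX'⟩

lemma real_of_lt {q σ : ℝ} (hq0 : 0 < q) (_ : 0 ≤ σ) (h : (ENNReal.ofReal q)⁻¹ < ENNReal.ofReal σ) :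
    1 < q * σ := by
  rw [← ENNReal.ofReal_inv_of_pos hq0] at h
  have := (ENNReal.ofReal_lt_ofReal_iff_of_nonneg (by positivity)).1 h
  rw [inv_lt_iff_one_lt_mul₀ hq0] at this
  linarith

lemma real_of_gt {q σ : ℝ} (hq0 : 0 < q) (hσ0 : 0 ≤ σ) (h : ENNReal.ofReal σ < (ENNReal.ofReal q)⁻¹) :
    q * σ < 1 := by
  rw [← ENNReal.ofReal_inv_of_pos hq0] at h
  have := (ENNReal.ofReal_lt_ofReal_iff_of_nonneg hσ0).1 h
  calc q * σ < q * q⁻¹ := mul_lt_mul_of_pos_left this hq0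
    _ = 1 := mul_inv_cancel₀ hq0.ne'

theorem fing2 (hU : S_UPG) (hL : S_LOP) (hI : S_INFG) (hQ : S_UPQ) (hR : S_LOQ) (hGU : S_GXU) (hGL : S_GXL) :
    ∀ (Ω : Type) [MeasurableSpace Ω] (P : Measure Ω) (A : ℕ → Set Ω) (z : ℕ → ℕ) (α : ℝ),
    0 < α → α ≤ 1 → SMod P A z α → ∀ᵐ ω ∂P, {n : ℕ | ω ∈ A n}.Infinite ∧
      limsup (fun x : ℝ => gx {n : ℕ | ω ∈ A n} x) atTop = (sl (2 / α))⁻¹ ∧
      liminf (fun x : ℝ => gx {n : ℕ | ω ∈ A n} x) atTop = (su (2 / α))⁻¹ := by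
  intro Ω _ P A z α h0 h1 hM
  -- upper bound for the upper limit
  have a1 : ∀ᵐ ω ∂P, ∀ q : ℚ, (sl (2 / α))⁻¹ < ENNReal.ofReal q →
      limsup (fun x : ℝ => gx {n : ℕ | ω ∈ A n} x) atTop ≤ ENNReal.ofReal q := by
    rw [ae_all_iff]
    intro q
    by_cases hq : (sl (2 / α))⁻¹ < ENNReal.ofReal q
    · have hq0 : (0 : ℝ) < q := ENNReal.ofReal_pos.1 (lt_of_le_of_lt bot_le hq)
      obtain ⟨σ, hσ0, hσ1, hσ2⟩ := ENNReal.lt_iff_exists_real_btwn.1 (ENNReal.inv_lt_iff_inv_lt.1 hq)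
      have h4 : ∀ᶠ w : ℕ in atTop, σ ≤ lo w (2 / α) := by
        filter_upwards [eventually_lt_of_lt_liminf hσ2] with w hw
        exact ((ENNReal.ofReal_lt_ofReal_iff_of_nonneg hσ0).1 hw).le
      filter_upwards [hU Ω P A z α h0 h1 hM q σ hq0 hσ0 h4 (real_of_lt hq0 hσ0 hσ1),
        hI Ω P A z α h0 h1 hM] with ω hω hω' _
      refine (hGU _ hω' q hq0).1 ?_
      filter_upwards [hω] with n hn
      by_contra hcon
      push Not at hcon
      exact hn hcon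
    · exact Eventually.of_forall fun ω h => absurd h hq
  -- lower bound for the upper limit
  have a2 : ∀ᵐ ω ∂P, ∀ q : ℚ, ENNReal.ofReal q < (sl (2 / α))⁻¹ →
      ENNReal.ofReal q ≤ limsup (fun x : ℝ => gx {n : ℕ | ω ∈ A n} x) atTop := by
    rw [ae_all_iff]
    intro q
    by_cases hq0 : (0 : ℝ) < q
    · by_cases hq : ENNReal.ofReal q < (sl (2 / α))⁻¹
      · obtain ⟨σ, hσ0, hσ1, hσ2⟩ := ENNReal.lt_iff_exists_real_btwn.1 (ENNReal.lt_inv_iff_lt_inv.1 hq)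
        have h4 : ∃ᶠ w : ℕ in atTop, lo w (2 / α) ≤ σ := by
          refine (frequently_lt_of_liminf_lt (by isBoundedDefault) hσ1).mono fun w hw => ?_
          exact ((ENNReal.ofReal_lt_ofReal_iff_of_nonneg (lo_nonneg w _)).1 hw).le
        filter_upwards [log_of_lop hL P A z α h0 h1 hM q σ hq0 hσ0 h4 (real_of_gt hq0 hσ0 hσ2),
          hI Ω P A z α h0 h1 hM] with ω hω hω' _
        refine (hGU _ hω' q hq0).2 ?_
        exact hω.mono fun n hn => hn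
      · exact Eventually.of_forall fun ω h => absurd h hq
    · refine Eventually.of_forall fun ω _ => ?_
      rw [ENNReal.ofReal_of_nonpos (not_lt.1 hq0)]
      exact zero_le
  -- upper bound for the lower limit
  have a3 : ∀ᵐ ω ∂P, ∀ q : ℚ, (su (2 / α))⁻¹ < ENNReal.ofReal q →
      liminf (fun x : ℝ => gx {n : ℕ | ω ∈ A n} x) atTop ≤ ENNReal.ofReal q := by
    rw [ae_all_iff]
    intro q
    by_cases hq : (su (2 / α))⁻¹ < ENNReal.ofReal q
    · have hq0 : (0 : ℝ) < q := ENNReal.ofReal_pos.1 (lt_of_le_of_lt bot_le hq)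
      obtain ⟨σ, hσ0, hσ1, hσ2⟩ := ENNReal.lt_iff_exists_real_btwn.1 (ENNReal.inv_lt_iff_inv_lt.1 hq)
      have h4 : ∃ᶠ w : ℕ in atTop, σ ≤ lo w (2 / α) := by
        refine (frequently_lt_of_lt_limsup (by isBoundedDefault) hσ2).mono fun w hw => ?_
        exact ((ENNReal.ofReal_lt_ofReal_iff_of_nonneg hσ0).1 hw).le
      filter_upwards [upq_ae hQ P A z α h0 h1 hM q σ hq0 hσ0 h4 (real_of_lt hq0 hσ0 hσ1),
        hI Ω P A z α h0 h1 hM] with ω hω hω' _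
      refine (hGL _ hω' q hq0).1 ?_
      refine hω.mono fun X hX n hn => ?_
      by_contra hcon
      push Not at hcon
      exact hX n hn hcon
    · exact Eventually.of_forall fun ω h => absurd h hq
  -- lower bound for the lower limit
  have a4 : ∀ᵐ ω ∂P, ∀ q : ℚ, ENNReal.ofReal q < (su (2 / α))⁻¹ →
      ENNReal.ofReal q ≤ liminf (fun x : ℝ => gx {n : ℕ | ω ∈ A n} x) atTop := by
    rw [ae_all_iff]
    intro q
    by_cases hq0 : (0 : ℝ) < q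
    · by_cases hq : ENNReal.ofReal q < (su (2 / α))⁻¹
      · obtain ⟨σ, hσ0, hσ1, hσ2⟩ := ENNReal.lt_iff_exists_real_btwn.1 (ENNReal.lt_inv_iff_lt_inv.1 hq)
        have h4 : ∀ᶠ w : ℕ in atTop, lo w (2 / α) ≤ σ := by
          filter_upwards [eventually_lt_of_limsup_lt hσ1] with w hw
          exact ((ENNReal.ofReal_lt_ofReal_iff_of_nonneg (lo_nonneg w _)).1 hw).le
        filter_upwards [hR Ω P A z α h0 h1 hM q σ hq0 hσ0 h4 (real_of_gt hq0 hσ0 hσ2),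
          hI Ω P A z α h0 h1 hM] with ω hω hω' _
        refine (hGL _ hω' q hq0).2 ?_
        filter_upwards [hω] with X hX
        obtain ⟨n, hn1, hn2, hn3⟩ := hX
        exact ⟨n, hn1, hn2, hn3⟩
      · exact Eventually.of_forall fun ω h => absurd h hq
    · refine Eventually.of_forall fun ω _ => ?_
      rw [ENNReal.ofReal_of_nonpos (not_lt.1 hq0)]
      exact zero_le
  filter_upwards [a1, a2, a3, a4, hI Ω P A z α h0 h1 hM] with ω b1 b2 b3 b4 b5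
  refine ⟨b5, le_antisymm ?_ ?_, le_antisymm ?_ ?_⟩
  · refine le_of_forall_gt_imp_ge_of_dense fun b hb => ?_
    obtain ⟨q, hq0, hq1, hq2⟩ := ENNReal.lt_iff_exists_rat_btwn.1 hb
    exact (b1 q hq1).trans hq2.le
  · refine le_of_forall_lt fun b hb => ?_
    obtain ⟨q, hq0, hq1, hq2⟩ := ENNReal.lt_iff_exists_rat_btwn.1 hb
    exact lt_of_lt_of_le hq1 (b2 q hq2)
  · refine le_of_forall_gt_imp_ge_of_dense fun b hb => ?_
    obtain ⟨q, hq0, hq1, hq2⟩ := ENNReal.lt_iff_exists_rat_btwn.1 hb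
    exact (b3 q hq1).trans hq2.le
  · refine le_of_forall_lt fun b hb => ?_
    obtain ⟨q, hq0, hq1, hq2⟩ := ENNReal.lt_iff_exists_rat_btwn.1 hb
    exact lt_of_lt_of_le hq1 (b4 q hq2)

end Pool.Agent.H50.LG
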