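import Pool.Agent.H50.LG.Stm

/-! # LG-GAPG: from windows to gaps -/

set_option autoImplicit false

open MeasureTheory Filter ProbabilityTheory
open scoped Topology ENNReal

namespace Pool.Agent.H50.LG

open Classical in
theorem gapg : S_GAPG := by
  intro S hS c hc
  have hS' : (setOf (fun x => x ∈ S)).Infinite := hS
  have hmono : StrictMono (Nat.nth (· ∈ S)) := Nat.nth_strictMono hS'
  have htop : Tendsto (Nat.nth (· ∈ S)) atTop atTop := hmono.tendsto_atTop
  constructor
  · intro h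
    refine limsup_le_of_le (by isBoundedDefault) ?_
    filter_upwards [htop.eventually h, htop.eventually (eventually_ge_atTop 3)] with j hj hj3
    obtain ⟨i, hi, hmem⟩ := hj
    have h1 : Nat.nth (· ∈ S) (j + 1) ≤ Nat.nth (· ∈ S) j + i + 1 := by
      have e1 := Nat.nth_count (p := (· ∈ S)) hmem
      rw [← e1]
      apply (Nat.nth_le_nth hS').2
      apply Nat.succ_le_of_lt
      apply (Nat.nth_lt_nth hS').1
      rw [e1]
      omega
    have hlog : 0 < Real.log (Nat.nth (· ∈ S) j : ℝ) := by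
      apply Real.log_pos
      have : ((3 : ℕ) : ℝ) ≤ (Nat.nth (· ∈ S) j : ℝ) := by exact_mod_cast hj3
      push_cast at this
      linarith
    unfold gp
    apply ENNReal.ofReal_le_ofReal
    rw [div_le_iff₀ (by positivity)]
    have h2 : ((Nat.nth (· ∈ S) (j + 1) : ℕ) : ℝ) ≤ (Nat.nth (· ∈ S) j : ℝ) +
        ((⌊c * Real.log (Nat.nth (· ∈ S) j) ^ 2⌋₊ : ℕ) : ℝ) := by
      have : Nat.nth (· ∈ S) (j + 1) ≤ Nat.nth (· ∈ S) j +
        ⌊c * Real.log (Nat.nth (· ∈ S) j) ^ 2⌋₊ := by omega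
      exact_mod_cast this
    have h3 : ((⌊c * Real.log (Nat.nth (· ∈ S) j) ^ 2⌋₊ : ℕ) : ℝ) ≤
        c * Real.log (Nat.nth (· ∈ S) j) ^ 2 := Nat.floor_le (by positivity)
    linarith
  · intro h
    refine le_limsup_of_frequently_le ?_ (by isBoundedDefault)
    rw [frequently_atTop] at h ⊢
    intro N
    obtain ⟨n, hn, hw⟩ := h (Nat.nth (· ∈ S) (max N 2))
    have hcnt : max N 2 < Nat.count (· ∈ S) (n + 1) := by
      by_contra hcon
      push Not at hcon
      have h1 := Nat.le_nth_count hS' (n + 1)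
      have h2 := (Nat.nth_le_nth hS').2 hcon
      omega
    set j := Nat.count (· ∈ S) (n + 1) - 1 with hj
    have hj1 : j + 1 = Nat.count (· ∈ S) (n + 1) := by omega
    have hs1 : Nat.nth (· ∈ S) j < n + 1 := Nat.nth_lt_of_lt_count (by omega)
    have hs2 : n + 1 ≤ Nat.nth (· ∈ S) (j + 1) := by
      rw [hj1]
      exact Nat.le_nth_count hS' (n + 1)
    have hs3 : Nat.nth (· ∈ S) (j + 1) ∈ S := Nat.nth_mem_of_infinite hS' (j + 1)
    have hs4 : n + ⌊c * Real.log n ^ 2⌋₊ + 1 ≤ Nat.nth (· ∈ S) (j + 1) := by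
      by_contra hcon
      push Not at hcon
      have h1 := hw (Nat.nth (· ∈ S) (j + 1) - n - 1) (by omega)
      rw [show n + (Nat.nth (· ∈ S) (j + 1) - n - 1) + 1 = Nat.nth (· ∈ S) (j + 1) by omega] at h1
      exact h1 hs3
    have hs5 : 2 ≤ Nat.nth (· ∈ S) j := by
      have := hmono.le_apply (x := j)
      have h2 : 2 ≤ max N 2 := le_max_right _ _
      omega
    refine ⟨j, by have := le_max_left N 2; omega, ?_⟩
    unfold gp
    apply ENNReal.ofReal_le_ofReal
    have hx : (2 : ℝ) ≤ (Nat.nth (· ∈ S) j : ℝ) := by exact_mod_cast hs5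
    have hxn : (Nat.nth (· ∈ S) j : ℝ) ≤ n := by
      have : Nat.nth (· ∈ S) j ≤ n := by omega
      exact_mod_cast this
    have hlog : 0 < Real.log (Nat.nth (· ∈ S) j : ℝ) := Real.log_pos (by linarith)
    have hlog2 : Real.log (Nat.nth (· ∈ S) j : ℝ) ≤ Real.log n :=
      Real.log_le_log (by linarith) hxn
    rw [le_div_iff₀ (by positivity)]
    have h2 : (n : ℝ) + ((⌊c * Real.log n ^ 2⌋₊ : ℕ) : ℝ) + 1 ≤ (Nat.nth (· ∈ S) (j + 1) : ℝ) := by
      exact_mod_cast hs4
    have h3 := Nat.lt_floor_add_one (c * Real.log n ^ 2)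
    have h4 : c * Real.log (Nat.nth (· ∈ S) j : ℝ) ^ 2 ≤ c * Real.log n ^ 2 := by
      gcongr
    linarith

end Pool.Agent.H50.LG
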