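import Pool.Agent.H50.LG.GXU

/-! # LG-GXL: from windows to the largest gap `G(x)`, lower limit -/

set_option autoImplicit false

open MeasureTheory Filter ProbabilityTheory
open scoped Topology ENNReal

namespace Pool.Agent.H50.LG

theorem gxl : S_GXL := by
  intro S hS c hc
  have hS' : (setOf (fun x => x ∈ S)).Infinite := hS
  have hmono : StrictMono (Nat.nth (· ∈ S)) := Nat.nth_strictMono hS'
  constructor
  · intro h
    refine liminf_le_of_frequently_le ?_ (by isBoundedDefault)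
    rw [frequently_atTop] at h ⊢
    intro a
    obtain ⟨X, hX, hw⟩ := h (max 3 ⌈a⌉₊)
    have hX2 : 3 ≤ X := le_trans (le_max_left _ _) hX
    have hX3 : a ≤ X := le_trans (Nat.le_ceil a) (by exact_mod_cast le_trans (le_max_right _ _) hX)
    have hX2' : (3 : ℝ) ≤ X := by exact_mod_cast hX2
    refine ⟨X, hX3, gx_le hc (by linarith) fun j hj => ?_⟩
    have hj' : Nat.nth (· ∈ S) j ≤ X := by exact_mod_cast hj
    have h1 := gx_gap_le hS j _ (hw _ hj')
    have h1' : ((Nat.nth (· ∈ S) (j + 1) - Nat.nth (· ∈ S) j : ℕ) : ℝ) ≤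
        ((⌊c * Real.log X ^ 2⌋₊ : ℕ) : ℝ) := by exact_mod_cast h1
    have h2 : ((⌊c * Real.log X ^ 2⌋₊ : ℕ) : ℝ) ≤ c * Real.log X ^ 2 :=
      Nat.floor_le (by positivity)
    linarith
  · intro h
    have hlim : Tendsto (fun x : ℝ => ENNReal.ofReal (c * (1 - Real.log 4 / Real.log x) ^ 2)) atTop
        (𝓝 (ENNReal.ofReal c)) := by
      have h0 : Tendsto (fun x : ℝ => Real.log 4 / Real.log x) atTop (𝓝 0) :=
        Real.tendsto_log_atTop.const_div_atTop _
      have h1 : Tendsto (fun x : ℝ => c * (1 - Real.log 4 / Real.log x) ^ 2) atTop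
          (𝓝 (c * (1 - 0) ^ 2)) := ((h0.const_sub 1).pow 2).const_mul c
      rw [show c * (1 - 0) ^ 2 = c by ring] at h1
      exact ENNReal.tendsto_ofReal h1
    rw [← hlim.liminf_eq]
    refine liminf_le_liminf ?_ (by isBoundedDefault) (by isBoundedDefault)
    have htop : Tendsto (fun x : ℝ => ⌊x / 2⌋₊) atTop atTop :=
      tendsto_nat_floor_atTop.comp (tendsto_id.atTop_div_const (by norm_num))
    filter_upwards [htop.eventually h, htop.eventually (eventually_ge_atTop (Nat.nth (· ∈ S) 0)),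
      eventually_ge_atTop (4 : ℝ)] with x hx hx0 hx4
    obtain ⟨n, hn1, hn2, hw⟩ := hx
    obtain ⟨j, hj1, hj2⟩ := gx_gap_ge hS n _ (le_trans hx0 hn1) hw
    have hfl : ((⌊x / 2⌋₊ : ℕ) : ℝ) ≤ x / 2 := Nat.floor_le (by linarith)
    have hfl2 := Nat.lt_floor_add_one (x / 2)
    have hnx : (n : ℝ) ≤ x := by
      have : (n : ℝ) ≤ 2 * ((⌊x / 2⌋₊ : ℕ) : ℝ) := by exact_mod_cast hn2
      linarith
    have hjx : (Nat.nth (· ∈ S) j : ℝ) ≤ x := by
      have : (Nat.nth (· ∈ S) j : ℝ) ≤ n := by exact_mod_cast hj1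
      linarith
    refine le_gx (by linarith) j hjx ?_
    have hlogx : 0 < Real.log x := Real.log_pos (by linarith)
    have hlog4 : Real.log 4 ≤ Real.log x := Real.log_le_log (by norm_num) hx4
    have hlogX : Real.log x - Real.log 4 ≤ Real.log ((⌊x / 2⌋₊ : ℕ) : ℝ) := by
      rw [← Real.log_div (by linarith) (by norm_num)]
      exact Real.log_le_log (by linarith) (by linarith)
    have h3 := Nat.lt_floor_add_one (c * Real.log ((⌊x / 2⌋₊ : ℕ) : ℝ) ^ 2)
    have h4 : ((⌊c * Real.log ((⌊x / 2⌋₊ : ℕ) : ℝ) ^ 2⌋₊ : ℕ) : ℝ) + 1 ≤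
        ((Nat.nth (· ∈ S) (j + 1) - Nat.nth (· ∈ S) j : ℕ) : ℝ) := by exact_mod_cast hj2
    have h5 : c * (1 - Real.log 4 / Real.log x) ^ 2 * Real.log x ^ 2 =
        c * (Real.log x - Real.log 4) ^ 2 := by
      field_simp
    rw [h5]
    have h6 : c * (Real.log x - Real.log 4) ^ 2 ≤ c * Real.log ((⌊x / 2⌋₊ : ℕ) : ℝ) ^ 2 := by
      have : 0 ≤ Real.log x - Real.log 4 := by linarith
      gcongr
    linarith

end Pool.Agent.H50.LG
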