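import Pool.Agent.H50.LG.Stm2

/-! # LG-GXU: from windows to the largest gap `G(x)`, upper limit -/

set_option autoImplicit false

open MeasureTheory Filter ProbabilityTheory
open scoped Topology ENNReal

namespace Pool.Agent.H50.LG

open Classical in
/-- a window after `s_j` which meets `S` bounds the gap -/
theorem gx_gap_le {S : Set ℕ} (hS : S.Infinite) (j W : ℕ)
    (h : ∃ i < W, Nat.nth (· ∈ S) j + i + 1 ∈ S) :
    Nat.nth (· ∈ S) (j + 1) - Nat.nth (· ∈ S) j ≤ W := by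
  have hS' : (setOf (fun x => x ∈ S)).Infinite := hS
  obtain ⟨i, hi, hmem⟩ := h
  have h1 : Nat.nth (· ∈ S) (j + 1) ≤ Nat.nth (· ∈ S) j + i + 1 := by
    have e1 := Nat.nth_count (p := (· ∈ S)) hmem
    rw [← e1]
    apply (Nat.nth_le_nth hS').2
    apply Nat.succ_le_of_lt
    apply (Nat.nth_lt_nth hS').1
    rw [e1]
    omega
  omega

open Classical in
/-- an empty window after `n` gives a large gap which begins at or below `n` -/
theorem gx_gap_ge {S : Set ℕ} (hS : S.Infinite) (n W : ℕ) (hn : Nat.nth (· ∈ S) 0 ≤ n)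
    (h : ∀ i < W, n + i + 1 ∉ S) :
    ∃ j, Nat.nth (· ∈ S) j ≤ n ∧ W + 1 ≤ Nat.nth (· ∈ S) (j + 1) - Nat.nth (· ∈ S) j := by
  have hS' : (setOf (fun x => x ∈ S)).Infinite := hS
  have hcnt : 0 < Nat.count (· ∈ S) (n + 1) := by
    by_contra hcon
    push Not at hcon
    have h1 := Nat.le_nth_count hS' (n + 1)
    have h2 := (Nat.nth_le_nth hS').2 hcon
    omega
  obtain ⟨j, hj⟩ : ∃ j, j + 1 = Nat.count (· ∈ S) (n + 1) :=
    ⟨Nat.count (· ∈ S) (n + 1) - 1, by omega⟩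
  have hs1 : Nat.nth (· ∈ S) j < n + 1 := Nat.nth_lt_of_lt_count (by omega)
  have hs2 : n + 1 ≤ Nat.nth (· ∈ S) (j + 1) := by
    rw [hj]
    exact Nat.le_nth_count hS' (n + 1)
  have hs3 : Nat.nth (· ∈ S) (j + 1) ∈ S := Nat.nth_mem_of_infinite hS' (j + 1)
  have hs4 : n + W + 1 ≤ Nat.nth (· ∈ S) (j + 1) := by
    by_contra hcon
    push Not at hcon
    have h1 := h (Nat.nth (· ∈ S) (j + 1) - n - 1) (by omega)
    rw [show n + (Nat.nth (· ∈ S) (j + 1) - n - 1) + 1 = Nat.nth (· ∈ S) (j + 1) by omega] at h1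
    exact h1 hs3
  exact ⟨j, by omega, by omega⟩

/-- upper bound for `gx` -/
theorem gx_le {S : Set ℕ} {x c : ℝ} (hc : 0 < c) (hx : 1 < x)
    (h : ∀ j, (Nat.nth (· ∈ S) j : ℝ) ≤ x →
      ((Nat.nth (· ∈ S) (j + 1) - Nat.nth (· ∈ S) j : ℕ) : ℝ) ≤ c * Real.log x ^ 2) :
    gx S x ≤ ENNReal.ofReal c := by
  have hlog : 0 < Real.log x := Real.log_pos hx
  unfold gx
  refine ENNReal.div_le_of_le_mul ?_
  rw [← ENNReal.ofReal_mul hc.le]
  refine iSup₂_le fun j hj => ?_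
  rw [← ENNReal.ofReal_natCast]
  exact ENNReal.ofReal_le_ofReal (h j hj)

/-- lower bound for `gx` -/
theorem le_gx {S : Set ℕ} {x c : ℝ} (hx : 1 < x) (j : ℕ)
    (hj : (Nat.nth (· ∈ S) j : ℝ) ≤ x)
    (h : c * Real.log x ^ 2 ≤ ((Nat.nth (· ∈ S) (j + 1) - Nat.nth (· ∈ S) j : ℕ) : ℝ)) :
    ENNReal.ofReal c ≤ gx S x := by
  have hlog : 0 < Real.log x := Real.log_pos hx
  have hpos : 0 < Real.log x ^ 2 := by positivity
  unfold gx
  rw [ENNReal.le_div_iff_mul_le (Or.inl (by simpa using hpos.ne'))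
    (Or.inl ENNReal.ofReal_ne_top), ← ENNReal.ofReal_mul' hpos.le]
  refine le_trans ?_ (le_iSup₂ (f := fun (j : ℕ) (_ : (Nat.nth (· ∈ S) j : ℝ) ≤ x) =>
    ((Nat.nth (· ∈ S) (j + 1) - Nat.nth (· ∈ S) j : ℕ) : ℝ≥0∞)) j hj)

  rw [← ENNReal.ofReal_natCast]
  exact ENNReal.ofReal_le_ofReal h

theorem gxu : S_GXU := by
  intro S hS c hc
  have hS' : (setOf (fun x => x ∈ S)).Infinite := hS
  have hmono : StrictMono (Nat.nth (· ∈ S)) := Nat.nth_strictMono hS'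
  constructor
  · intro h
    refine limsup_le_of_le (by isBoundedDefault) ?_
    obtain ⟨n₀, hn₀⟩ := eventually_atTop.1 (h.and (eventually_ge_atTop 3))
    have hbig : Tendsto (fun x : ℝ => c * Real.log x ^ 2) atTop atTop :=
      ((tendsto_pow_atTop (two_ne_zero)).comp Real.tendsto_log_atTop).const_mul_atTop hc
    filter_upwards [hbig.eventually (eventually_ge_atTop ((Nat.nth (· ∈ S) n₀ : ℕ) : ℝ)),
      eventually_ge_atTop (3 : ℝ)] with x hx hx3
    refine gx_le hc (by linarith) fun j hj => ?_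
    by_cases hjn : n₀ ≤ Nat.nth (· ∈ S) j
    · obtain ⟨hw, h3⟩ := hn₀ _ hjn
      have h1 := gx_gap_le hS j _ hw
      have h1' : ((Nat.nth (· ∈ S) (j + 1) - Nat.nth (· ∈ S) j : ℕ) : ℝ) ≤
          ((⌊c * Real.log (Nat.nth (· ∈ S) j) ^ 2⌋₊ : ℕ) : ℝ) := by exact_mod_cast h1
      have h2 : ((⌊c * Real.log (Nat.nth (· ∈ S) j) ^ 2⌋₊ : ℕ) : ℝ) ≤
          c * Real.log (Nat.nth (· ∈ S) j) ^ 2 := Nat.floor_le (by positivity)
      have h3' : (3 : ℝ) ≤ (Nat.nth (· ∈ S) j : ℝ) := by exact_mod_cast h3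
      have hlog : 0 < Real.log (Nat.nth (· ∈ S) j : ℝ) := Real.log_pos (by linarith)
      have hlog2 : Real.log (Nat.nth (· ∈ S) j : ℝ) ≤ Real.log x :=
        Real.log_le_log (by linarith) hj
      have h4 : c * Real.log (Nat.nth (· ∈ S) j : ℝ) ^ 2 ≤ c * Real.log x ^ 2 := by
        gcongr
      linarith
    · push Not at hjn
      have hjj : j ≤ Nat.nth (· ∈ S) j := hmono.le_apply
      have h1 : Nat.nth (· ∈ S) (j + 1) ≤ Nat.nth (· ∈ S) n₀ :=
        hmono.monotone (by omega)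
      have h2 : Nat.nth (· ∈ S) (j + 1) - Nat.nth (· ∈ S) j ≤ Nat.nth (· ∈ S) n₀ := by omega
      have h2' : ((Nat.nth (· ∈ S) (j + 1) - Nat.nth (· ∈ S) j : ℕ) : ℝ) ≤
          ((Nat.nth (· ∈ S) n₀ : ℕ) : ℝ) := by exact_mod_cast h2
      linarith
  · intro h
    refine le_limsup_of_frequently_le ?_ (by isBoundedDefault)
    rw [frequently_atTop] at h ⊢
    intro a
    obtain ⟨n, hn, hw⟩ := h (max (max (Nat.nth (· ∈ S) 0) 2) ⌈a⌉₊)
    have hn1 : Nat.nth (· ∈ S) 0 ≤ n := le_trans (le_max_left _ _) (le_trans (le_max_left _ _) hn)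
    have hn2 : 2 ≤ n := le_trans (le_max_right _ _) (le_trans (le_max_left _ _) hn)
    have hn3 : a ≤ n := le_trans (Nat.le_ceil a) (by exact_mod_cast le_trans (le_max_right _ _) hn)
    obtain ⟨j, hj1, hj2⟩ := gx_gap_ge hS n _ hn1 hw
    have hn2' : (2 : ℝ) ≤ n := by exact_mod_cast hn2
    refine ⟨n, hn3, le_gx (by linarith) j (by exact_mod_cast hj1) ?_⟩
    have h3 := Nat.lt_floor_add_one (c * Real.log n ^ 2)
    have h4 : ((⌊c * Real.log n ^ 2⌋₊ : ℕ) : ℝ) + 1 ≤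
        ((Nat.nth (· ∈ S) (j + 1) - Nat.nth (· ∈ S) j : ℕ) : ℝ) := by exact_mod_cast hj2
    linarith

end Pool.Agent.H50.LG
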