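import Pool.Agent.H50.LG.UPG

/-! LG-INFG (helper69): infinitely many integers are chosen. -/

set_option autoImplicit false

open MeasureTheory Filter ProbabilityTheory
open scoped Topology ENNReal

namespace Pool.Agent.H50.LG

open Pool.Agent.H50.BF Pool.Agent.H50.GW

namespace INFGx

lemma pow_small (s : ℕ) : ∀ᶠ n : ℕ in atTop, (Real.log n ^ 2 + 1) ^ s ≤ (n : ℝ) := by
  have h3 := (Real.isLittleO_pow_log_id_atTop (n := 3 * s)).bound (show (0 : ℝ) < 1 by positivity)
  have h4 := tendsto_natCast_atTop_atTop (R := ℝ) |>.eventually h3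
  filter_upwards [h4, GUPx.log_tend.eventually_ge_atTop 2] with n hn hn1
  simp only [id] at hn
  rw [Real.norm_of_nonneg (by positivity), Real.norm_of_nonneg (Nat.cast_nonneg n), one_mul] at hn
  refine le_trans ?_ hn
  rw [pow_mul]
  apply pow_le_pow_left₀ (by positivity)
  nlinarith [sq_nonneg (Real.log (n : ℝ))]

lemma ratio_tend : Tendsto (fun n : ℕ => (n : ℝ) / (8 * Real.log n)) atTop atTop := by
  have h1 := (Real.isLittleO_pow_log_id_atTop (n := 2)).bound (show (0 : ℝ) < 1 by positivity)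
  have h2 := tendsto_natCast_atTop_atTop (R := ℝ) |>.eventually h1
  have h3 : Tendsto (fun n : ℕ => Real.log n / 8) atTop atTop :=
    GUPx.log_tend.atTop_div_const (by norm_num)
  refine tendsto_atTop_mono' _ ?_ h3
  filter_upwards [h2, GUPx.log_tend.eventually_ge_atTop 1] with n hn hn1
  simp only [id] at hn
  rw [Real.norm_of_nonneg (by positivity), Real.norm_of_nonneg (Nat.cast_nonneg n), one_mul] at hn
  rw [div_le_div_iff₀ (by norm_num) (by linarith)]
  nlinarith

end INFGx

open UPGx INFGx in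
theorem infg : S_WNG → S_MMZ → BF.S_FUND → BF.S_MERT → S_INFG := by
  intro hWNG hMMZ hF _ Ω _ P A z α hα hα1 hM
  have hP := hM.prob
  obtain ⟨hz1, hz2, hz3⟩ := hMMZ z α hα hM.mono hM.lev
  obtain ⟨s0, w0, -, hF⟩ := hF (1 / 2) (by norm_num)
  have hW := hWNG Ω P A z α hα hα1 hM (1 / 2) (by norm_num)
  have hr : ∀ᶠ n : ℕ in atTop, MM (z (3 * n)) / MM (z n) < 2 :=
    hz2.eventually (gt_mem_nhds (by norm_num))
  have key : ∀ᶠ n : ℕ in atTop, P (EE A n n) ≤
      ENNReal.ofReal (Real.exp (-((n : ℝ) / (8 * Real.log n)))) := by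
    filter_upwards [hW, hr, hz3 1 one_pos, pow_small s0, GUPx.log_tend.eventually_ge_atTop 1,
      hz1.eventually_ge_atTop w0] with n a1 a2 a3 a4 a5 a6
    set L := Real.log (n : ℝ) with hL
    have hL0 : 0 < L := by linarith
    have b2 := (a1 n n le_rfl (by omega)).2
    have hM1 := MM_pos (z n)
    have hM3 := MM_pos (z (3 * n))
    rw [ENNReal.le_ofReal_iff_toReal_le (measure_ne_top P _) (Real.exp_nonneg _)]
    refine b2.trans (Real.exp_le_exp.2 (neg_le_neg ?_))
    have hz : ((z (3 * n) : ℕ) : ℝ) ≤ L ^ 2 := by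
      refine a3.2.trans ?_
      rw [← Real.rpow_mul hL0.le, show (L : ℝ) ^ 2 = L ^ (2 : ℝ) by norm_num]
      apply Real.rpow_le_rpow_of_exponent_le a5
      nlinarith
    have hw : w0 ≤ z (3 * n) := a6.trans (hM.mono (by omega))
    have b3 := hF (z (3 * n)) hw n n (by
      refine le_trans ?_ a4
      apply pow_le_pow_left₀ (by positivity)
      linarith)
    rw [abs_le] at b3
    set S : ℝ := (sv (fun _ => 0) (z (3 * n)) n n : ℝ) with hS
    have e1 : (n : ℝ) / MM (z (3 * n)) / 2 ≤ S := by linarith [b3.1]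
    have e2 : MM (z (3 * n)) ≤ 2 * MM (z n) := by
      rw [div_lt_iff₀ hM1] at a2; linarith
    have e3 : (n : ℝ) / 4 ≤ MM (z n) * S := by
      have h1 : (n : ℝ) / 2 ≤ MM (z (3 * n)) * S := by
        have h2 : MM (z (3 * n)) * ((n : ℝ) / MM (z (3 * n)) / 2) ≤ MM (z (3 * n)) * S :=
          mul_le_mul_of_nonneg_left e1 hM3.le
        have h3 : MM (z (3 * n)) * ((n : ℝ) / MM (z (3 * n)) / 2) = (n : ℝ) / 2 := by
          field_simp
        linarith
      have hS0 : 0 ≤ S := Nat.cast_nonneg _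
      have h4 : MM (z (3 * n)) * S ≤ 2 * MM (z n) * S := mul_le_mul_of_nonneg_right e2 hS0
      linarith
    calc (n : ℝ) / (8 * L) = (1 / 2) * ((n : ℝ) / 4 / L) := by field_simp; ring
      _ ≤ (1 / 2) * (MM (z n) * S / L) := by gcongr
      _ = (1 - 1 / 2) * (MM (z n) / L * S) := by ring
  have hlim : Tendsto (fun n : ℕ => P (EE A n n)) atTop (𝓝 0) := by
    have h1 : Tendsto (fun n : ℕ => ENNReal.ofReal (Real.exp (-((n : ℝ) / (8 * Real.log n)))))
        atTop (𝓝 0) := by
      have h2 : Tendsto (fun n : ℕ => Real.exp (-((n : ℝ) / (8 * Real.log n)))) atTop (𝓝 0) :=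
        Real.tendsto_exp_neg_atTop_nhds_zero.comp ratio_tend
      have h3 := ENNReal.tendsto_ofReal h2
      simpa using h3
    exact tendsto_of_tendsto_of_tendsto_of_le_of_le' tendsto_const_nhds h1
      (Eventually.of_forall fun _ => bot_le) key
  have hB : ∀ N : ℕ, P {ω | ∀ n : ℕ, N < n → ω ∉ A n} = 0 := by
    intro N
    refine le_antisymm (ge_of_tendsto hlim ?_) bot_le
    filter_upwards [eventually_ge_atTop N] with n hn
    apply measure_mono
    intro ω hω j _
    exact hω (n + j + 1) (by omega)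
  rw [ae_iff]
  refine measure_mono_null ?_ (measure_iUnion_null hB)
  intro ω hω
  change ¬ {n : ℕ | ω ∈ A n}.Infinite at hω
  rw [Set.not_infinite] at hω
  obtain ⟨N, hN⟩ := hω.bddAbove
  refine Set.mem_iUnion.2 ⟨N, fun n hn hA => ?_⟩
  have := hN (show n ∈ {n : ℕ | ω ∈ A n} from hA)
  omega

end Pool.Agent.H50.LG
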