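import Pool.Agent.H50.LG.Stm
import Pool.Agent.H50.GW.GEX

set_option autoImplicit false

/-! # LG-LOP (helper81) -/

open MeasureTheory Filter ProbabilityTheory
open scoped Topology ENNReal

namespace Pool.Agent.H50.LG

open Pool.Agent.H50.BF Pool.Agent.H50.GW

namespace LOPaux

open Pool.Agent.H50.GW.GEXaux (tlog log_range count)

/-- the scale -/
noncomputable def XL (L : ℝ) : ℕ := ⌈Real.exp L⌉₊

lemma XL_log {L : ℝ} (hL : 0 ≤ L) : L ≤ Real.log (XL L) ∧ Real.log (XL L) ≤ L + 1 := by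
  have h1 : Real.exp L ≤ (XL L : ℝ) := Nat.le_ceil _
  have h2 : (XL L : ℝ) < Real.exp L + 1 := Nat.ceil_lt_add_one (Real.exp_pos L).le
  have h0 : 0 < (XL L : ℝ) := (Real.exp_pos L).trans_le h1
  constructor
  · rw [Real.le_log_iff_exp_le h0]; exact h1
  · rw [Real.log_le_iff_le_exp h0, Real.exp_add]
    have h3 : 1 ≤ Real.exp L := Real.one_le_exp hL
    have h4 : 2 ≤ Real.exp 1 := by
      have := Real.add_one_le_exp (1 : ℝ); linarith
    nlinarith

lemma XL_tendsto {L : ℕ → ℝ} (hL : Tendsto L atTop atTop) :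
    Tendsto (fun w => XL (L w)) atTop atTop := by
  unfold XL
  exact tendsto_nat_ceil_atTop.comp (Real.tendsto_exp_atTop.comp hL)

lemma XL_ratio {L : ℕ → ℝ} (hL : Tendsto L atTop atTop) :
    Tendsto (fun w => Real.log (XL (L w)) / L w) atTop (𝓝 1) := by
  have h1 : Tendsto (fun w => 1 + 1 / L w) atTop (𝓝 (1 + 0)) :=
    tendsto_const_nhds.add (hL.const_div_atTop 1)
  rw [add_zero] at h1
  refine tendsto_of_tendsto_of_tendsto_of_le_of_le' tendsto_const_nhds h1 ?_ ?_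
  · filter_upwards [hL.eventually_gt_atTop 0] with w hw
    rw [le_div_iff₀ hw, one_mul]
    exact (XL_log hw.le).1
  · filter_upwards [hL.eventually_gt_atTop 0] with w hw
    rw [div_le_iff₀ hw]
    have : (1 + 1 / L w) * L w = L w + 1 := by field_simp
    rw [this]
    exact (XL_log hw.le).2

lemma rpow_half {w : ℝ} (hw : 0 ≤ w) (s : ℝ) : (w ^ (s / 2)) ^ 2 = w ^ s := by
  rw [← Real.rpow_natCast, ← Real.rpow_mul hw]
  congr 1
  push_cast
  ring

lemma sy_sv (w t U : ℕ) : sy (fun _ : Fin 1 => 1) (fun _ : Fin 1 => 0) w t U =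
    sv (fun _ => 0) w t U := by
  classical
  unfold sy sv
  congr 1
  refine Finset.filter_congr fun j _ => ?_
  simp only [Nat.zero_mod, Rou, one_mul, add_zero]
  constructor
  · intro h p hp hpw h0
    exact h 0 p hp hpw (Nat.dvd_of_mod_eq_zero h0)
  · intro h _ p hp hpw hd
    exact h p hp hpw (Nat.mod_eq_zero_of_dvd hd)

lemma EE_anti {Ω : Type} [MeasurableSpace Ω] (A : ℕ → Set Ω) (m : ℕ) {U U' : ℕ} (h : U ≤ U') :
    EE A m U' ⊆ EE A m U := fun _ hω j hj => hω j (hj.trans_le h)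

/-- powers of `w` beat constants -/
lemma pow_big {a : ℝ} (ha : 0 < a) (C : ℝ) : ∀ᶠ w : ℕ in atTop, C ≤ (w : ℝ) ^ a :=
  ((tendsto_rpow_atTop ha).comp tendsto_natCast_atTop_atTop).eventually_ge_atTop C

/-- the range of `v` -/
lemma vrange {η : ℝ} (hη : 0 < η) (hη1 : η ≤ 1 / 2) : ∀ᶠ w : ℕ in atTop,
    (w : ℝ) ^ (1 - η) ≤ (⌊(w : ℝ) ^ (1 - η / 2)⌋₊ : ℝ) ∧
    (⌊(w : ℝ) ^ (1 - η / 2)⌋₊ : ℝ) ≤ (w : ℝ) ^ (1 + η) := by
  filter_upwards [pow_big (show 0 < η / 2 by positivity) 2,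
    pow_big (show 0 < 1 - η by linarith) 1, eventually_ge_atTop 1] with w h1 h2 h3
  have hw1 : (1 : ℝ) ≤ w := by exact_mod_cast h3
  have hw0 : (0 : ℝ) < w := by linarith
  constructor
  · have e1 : (w : ℝ) ^ (1 - η / 2) = (w : ℝ) ^ (1 - η) * (w : ℝ) ^ (η / 2) := by
      rw [← Real.rpow_add hw0]; congr 1; ring
    have e2 := Nat.lt_floor_add_one ((w : ℝ) ^ (1 - η / 2))
    have e3 : (w : ℝ) ^ (1 - η) * 2 ≤ (w : ℝ) ^ (1 - η) * (w : ℝ) ^ (η / 2) := by gcongr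
    linarith
  · refine (Nat.floor_le (by positivity)).trans ?_
    exact Real.rpow_le_rpow_of_exponent_le hw1 (by linarith)

/-- the range of the level -/
lemma zrange {η a : ℝ} (hη : 0 < η) (hη1 : η ≤ 1 / 2) (ha : 0 < a) {B : ℕ → ℝ}
    (hB : Tendsto (fun w : ℕ => B w / w) atTop (𝓝 a)) : ∀ᶠ w : ℕ in atTop,
    (w : ℝ) ^ (1 - η) ≤ B w ^ (1 - η / 2) ∧ B w ^ (1 + η / 2) ≤ (w : ℝ) ^ (1 + η) := by
  have hd : 0 < (a / 2) ^ (1 - η / 2) := by positivity
  filter_upwards [pow_big (show 0 < η / 2 by positivity) (((a / 2) ^ (1 - η / 2))⁻¹),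
    pow_big (show 0 < η / 2 by positivity) ((2 * a) ^ (1 + η / 2)), eventually_ge_atTop 1,
    hB.eventually_const_le (show a / 2 < a by linarith),
    hB.eventually_le_const (show a < 2 * a by linarith)] with w h1 h2 h3 h4 h5
  have hw1 : (1 : ℝ) ≤ w := by exact_mod_cast h3
  have hw0 : (0 : ℝ) < w := by linarith
  rw [le_div_iff₀ hw0] at h4
  rw [div_le_iff₀ hw0] at h5
  constructor
  · have e1 : (a / 2 * w) ^ (1 - η / 2) ≤ B w ^ (1 - η / 2) :=
      Real.rpow_le_rpow (by positivity) h4 (by linarith)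
    refine le_trans ?_ e1
    rw [Real.mul_rpow (by positivity) hw0.le]
    have e2 : (w : ℝ) ^ (1 - η / 2) = (w : ℝ) ^ (η / 2) * (w : ℝ) ^ (1 - η) := by
      rw [← Real.rpow_add hw0]; congr 1; ring
    rw [e2, ← mul_assoc]
    have e3 : 1 ≤ (a / 2) ^ (1 - η / 2) * (w : ℝ) ^ (η / 2) := by
      calc (1 : ℝ) = (a / 2) ^ (1 - η / 2) * ((a / 2) ^ (1 - η / 2))⁻¹ := by
            rw [mul_inv_cancel₀ hd.ne']
        _ ≤ _ := by gcongr
    have e4 : 0 < (w : ℝ) ^ (1 - η) := by positivity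
    nlinarith
  · have hBw : 0 ≤ B w := le_trans (by positivity) h4
    have e1 : B w ^ (1 + η / 2) ≤ (2 * a * w) ^ (1 + η / 2) :=
      Real.rpow_le_rpow hBw h5 (by linarith)
    refine e1.trans ?_
    rw [Real.mul_rpow (by positivity) hw0.le]
    have e2 : (w : ℝ) ^ (1 + η) = (w : ℝ) ^ (η / 2) * (w : ℝ) ^ (1 + η / 2) := by
      rw [← Real.rpow_add hw0]; congr 1; ring
    rw [e2]
    gcongr

/-- the choice of the parameters -/
lemma params {c σ : ℝ} (hc : 0 < c) (hσ : 0 ≤ σ) (hcσ : c * σ < 1) : ∃ ε c' : ℝ, 0 < ε ∧ c < c' ∧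
    0 < (1 + ε) * (σ + ε) * c' ∧ (1 + ε) * (σ + ε) * c' < 1 := by
  have h1 : Tendsto (fun ε : ℝ => (1 + ε) * (σ + ε) * (c + ε)) (𝓝[>] 0)
      (𝓝 ((1 + 0) * (σ + 0) * (c + 0))) := by
    have : ContinuousAt (fun ε : ℝ => (1 + ε) * (σ + ε) * (c + ε)) 0 := by fun_prop
    exact this.tendsto.mono_left nhdsWithin_le_nhds
  have h2 : (1 + 0) * (σ + 0) * (c + 0) < 1 := by linarith
  obtain ⟨ε, h3, h4⟩ := ((h1.eventually_lt_const h2).and self_mem_nhdsWithin).exists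
  have h5 : 0 < ε := h4
  exact ⟨ε, c + ε, h5, by linarith, by positivity, h3⟩

/-- the window length -/
noncomputable def UU (c' : ℝ) (n : ℕ) : ℕ := ⌊c' * Real.log n ^ 2⌋₊

lemma UU_tendsto {c' : ℝ} (hc : 0 < c') :
    Tendsto (fun n : ℕ => (UU c' n : ℝ) / Real.log n ^ (1 + 1)) atTop (𝓝 c') := by
  have h1 := tendsto_nat_floor_mul_div_atTop (R := ℝ) hc.le
  have h2 : Tendsto (fun n : ℕ => Real.log n ^ 2) atTop atTop :=
    (tendsto_pow_atTop two_ne_zero).comp tlog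
  exact h1.comp h2

lemma UU_le {c c' : ℝ} (hc : 0 < c) (hcc : c < c') : ∀ᶠ X : ℕ in atTop, ∀ n : ℕ, X ≤ n → n ≤ 2 * X →
    ⌊c * Real.log n ^ 2⌋₊ ≤ UU c' X := by
  have h1 : Tendsto (fun X : ℕ => c * (1 + 1 / Real.log X) ^ 2) atTop (𝓝 (c * (1 + 0) ^ 2)) :=
    ((tendsto_const_nhds.add (tlog.const_div_atTop 1)).pow 2).const_mul c
  have h2 : c * (1 + 0) ^ 2 < c' := by linarith
  filter_upwards [h1.eventually_lt_const h2, tlog.eventually_ge_atTop 1, eventually_ge_atTop 1]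
    with X h3 h4 h5 n hn1 hn2
  obtain ⟨l1, l2⟩ := log_range h5 hn1 hn2
  refine Nat.floor_le_floor ?_
  have hL : 0 < Real.log X := by linarith
  calc c * Real.log n ^ 2 ≤ c * (Real.log X + 1) ^ 2 := by gcongr
    _ = c * (1 + 1 / Real.log X) ^ 2 * Real.log X ^ 2 := by
        have : Real.log X + 1 = (1 + 1 / Real.log X) * Real.log X := by field_simp
        rw [this, mul_pow]; ring
    _ ≤ c' * Real.log X ^ 2 := by gcongr

/-- the scale belonging to `w` -/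
noncomputable def LL (c' s : ℝ) (w : ℕ) : ℝ := (Real.sqrt c')⁻¹ * (w : ℝ) ^ (s / 2)

lemma LL_tendsto {c' s : ℝ} (hc : 0 < c') (hs : 2 ≤ s) : Tendsto (LL c' s) atTop atTop := by
  have : Tendsto (fun w : ℕ => (w : ℝ) ^ (s / 2)) atTop atTop :=
    (tendsto_rpow_atTop (by linarith)).comp tendsto_natCast_atTop_atTop
  exact this.const_mul_atTop (by positivity)

/-- the ratio of the scales -/
lemma LL_ratio {c' s : ℝ} (hc : 0 < c') (hs : 2 ≤ s) :
    Tendsto (fun w : ℕ => Real.log (XL (LL c' s w)) / (w : ℝ) ^ (s / 2)) atTop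
      (𝓝 (Real.sqrt c')⁻¹) := by
  have h1 := (XL_ratio (LL_tendsto hc hs)).mul_const (Real.sqrt c')⁻¹
  rw [one_mul] at h1
  refine h1.congr' ?_
  filter_upwards [eventually_ge_atTop 1] with w hw
  have hw0 : (0 : ℝ) < w := by exact_mod_cast hw
  have h2 : 0 < Real.sqrt c' := Real.sqrt_pos.2 hc
  have h3 : 0 < (w : ℝ) ^ (s / 2) := by positivity
  unfold LL
  field_simp

end LOPaux

open LOPaux in
theorem lop : S_EXH → GW.S_POSK → S_WNG → S_BLK → S_MMZ → S_LOP := by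
  intro hEXH hPOSK hWNG hBLK hMMZ Ω _ P A z α hα hα1 hM c σ hc hσ hfr hcσ N κ hκ
  have hP := hM.prob
  obtain ⟨ε, c', hε, hcc', hr0, hr1⟩ := params hc hσ hcσ
  have hc' : 0 < c' := hc.trans hcc'
  obtain ⟨r, hr⟩ : ∃ r : ℝ, r = (1 + ε) * (σ + ε) * c' := ⟨_, rfl⟩
  rw [← hr] at hr0 hr1
  obtain ⟨b, hb⟩ : ∃ b : ℝ, b = min (1 / 2) ((1 - r) / 2) := ⟨_, rfl⟩
  have hb0 : 0 < b := by rw [hb]; exact lt_min (by norm_num) (by linarith)
  have hb1 : b ≤ 1 / 2 := by rw [hb]; exact min_le_left _ _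
  have hb2 : b ≤ (1 - r) / 2 := by rw [hb]; exact min_le_right _ _
  have hs : 2 ≤ 2 / α := by rw [le_div_iff₀ hα]; linarith
  obtain ⟨s, hsd⟩ : ∃ s : ℝ, s = 2 / α := ⟨_, rfl⟩
  rw [← hsd] at hfr hs
  have hsα : s / 2 * α = 1 := by rw [hsd]; field_simp
  obtain ⟨η, hη, hη1, hE⟩ := hEXH s ε hs hε
  obtain ⟨cnt1, cnt2⟩ := GEXaux.count 1 hc' hb0 hb1 hb2 hr1 (UU_tendsto hc')
  obtain ⟨hz1, -, hz3⟩ := hMMZ z α hα hM.mono hM.lev
  -- the scale
  have hLt := LL_tendsto (s := s) hc' hs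
  have hXt := XL_tendsto hLt
  have hrat := LL_ratio (s := s) hc' hs
  have hsq : 0 < Real.sqrt c' := Real.sqrt_pos.2 hc'
  -- (a)
  have hUw : Tendsto (fun w : ℕ => (UU c' (XL (LL c' s w)) : ℝ) / (w : ℝ) ^ s) atTop (𝓝 1) := by
    have h1 := ((UU_tendsto hc').comp hXt).mul (hrat.pow 2)
    have h2 : c' * (Real.sqrt c')⁻¹ ^ 2 = 1 := by
      rw [inv_pow, Real.sq_sqrt hc'.le, mul_inv_cancel₀ hc'.ne']
    rw [h2] at h1
    refine h1.congr' ?_
    filter_upwards [eventually_ge_atTop 1, hLt.eventually_gt_atTop 0] with w hw hL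
    have hw0 : (0 : ℝ) < w := by exact_mod_cast hw
    have hlog : 0 < Real.log (XL (LL c' s w)) := hL.trans_le (XL_log hL.le).1
    simp only [Function.comp]
    rw [div_pow, rpow_half hw0.le]
    have : 0 < (w : ℝ) ^ s := by positivity
    rw [one_add_one_eq_two]
    field_simp
  have ha : ∀ᶠ w : ℕ in atTop, |(UU c' (XL (LL c' s w)) : ℝ) - (w : ℝ) ^ s| ≤ η * (w : ℝ) ^ s := by
    filter_upwards [hUw.eventually_const_le (show 1 - η < 1 by linarith),
      hUw.eventually_le_const (show 1 < 1 + η by linarith), eventually_ge_atTop 1] with w h1 h2 hw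
    have hw0 : (0 : ℝ) < w := by exact_mod_cast hw
    have : 0 < (w : ℝ) ^ s := by positivity
    rw [le_div_iff₀ this] at h1
    rw [div_le_iff₀ this] at h2
    rw [abs_le]
    constructor <;> linarith
  -- (c)
  have hcc : ∀ᶠ w : ℕ in atTop, ⌊(w : ℝ) ^ (1 - η / 2)⌋₊ ≤
      ⌊b / 2 * Real.log (XL (LL c' s w))⌋₊ := by
    filter_upwards [hrat.eventually_const_le (show (Real.sqrt c')⁻¹ / 2 < (Real.sqrt c')⁻¹ by
      have : 0 < (Real.sqrt c')⁻¹ := by positivity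
      linarith), eventually_ge_atTop 1,
      pow_big (show 0 < η / 2 by positivity) (b / 2 * ((Real.sqrt c')⁻¹ / 2))⁻¹] with w h1 hw h2
    have hw1 : (1 : ℝ) ≤ w := by exact_mod_cast hw
    have hw0 : (0 : ℝ) < w := by linarith
    refine Nat.floor_le_floor ?_
    have h3 : (w : ℝ) ≤ (w : ℝ) ^ (s / 2) := by
      calc (w : ℝ) = (w : ℝ) ^ (1 : ℝ) := (Real.rpow_one _).symm
        _ ≤ _ := Real.rpow_le_rpow_of_exponent_le hw1 (by linarith)
    have h4 : 0 < (w : ℝ) ^ (s / 2) := by positivity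
    rw [le_div_iff₀ h4] at h1
    have h5 : (w : ℝ) ^ (1 - η / 2) * (w : ℝ) ^ (η / 2) = w := by
      rw [← Real.rpow_add hw0]; simp
    have hd : 0 < b / 2 * ((Real.sqrt c')⁻¹ / 2) := by positivity
    have h6 : 1 ≤ b / 2 * ((Real.sqrt c')⁻¹ / 2) * (w : ℝ) ^ (η / 2) := by
      calc (1 : ℝ) = b / 2 * ((Real.sqrt c')⁻¹ / 2) * (b / 2 * ((Real.sqrt c')⁻¹ / 2))⁻¹ := by
            rw [mul_inv_cancel₀ hd.ne']
        _ ≤ _ := by gcongr
    have h7 : 0 < (w : ℝ) ^ (1 - η / 2) := by positivity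
    calc (w : ℝ) ^ (1 - η / 2) = (w : ℝ) ^ (1 - η / 2) * 1 := by ring
      _ ≤ (w : ℝ) ^ (1 - η / 2) * (b / 2 * ((Real.sqrt c')⁻¹ / 2) * (w : ℝ) ^ (η / 2)) := by gcongr
      _ = b / 2 * ((Real.sqrt c')⁻¹ / 2) * ((w : ℝ) ^ (1 - η / 2) * (w : ℝ) ^ (η / 2)) := by ring
      _ = b / 2 * ((Real.sqrt c')⁻¹ / 2) * w := by rw [h5]
      _ ≤ b / 2 * ((Real.sqrt c')⁻¹ / 2) * (w : ℝ) ^ (s / 2) := by gcongr
      _ = b / 2 * ((Real.sqrt c')⁻¹ / 2 * (w : ℝ) ^ (s / 2)) := by ring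
      _ ≤ b / 2 * Real.log (XL (LL c' s w)) := by gcongr
  -- (d)
  have hBw : Tendsto (fun w : ℕ => Real.log (XL (LL c' s w)) ^ α / (w : ℝ)) atTop
      (𝓝 ((Real.sqrt c')⁻¹ ^ α)) := by
    have h1 := hrat.rpow_const (p := α) (Or.inr hα.le)
    refine h1.congr' ?_
    filter_upwards [eventually_ge_atTop 1, hLt.eventually_gt_atTop 0] with w hw hL
    have hw0 : (0 : ℝ) < w := by exact_mod_cast hw
    have hlog : 0 < Real.log (XL (LL c' s w)) := hL.trans_le (XL_log hL.le).1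
    rw [Real.div_rpow hlog.le (by positivity), ← Real.rpow_mul hw0.le, hsα, Real.rpow_one]
  have hd := zrange hη hη1 (show 0 < (Real.sqrt c')⁻¹ ^ α by positivity) hBw
  have hdz := hXt.eventually (hz3 (η / 2) (by positivity))
  -- everything together
  have hX := hXt.eventually (((hWNG Ω P A z α hα hα1 hM ε hε).and (cnt1.and
    (cnt2.eventually_ge_atTop (-Real.log κ)))).and ((UU_le hc hcc').and
    ((eventually_ge_atTop N).and (GEXaux.tlog.eventually_ge_atTop 1))))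
  have hUpos := hXt.eventually ((UU_tendsto hc').eventually_const_lt (show (0 : ℝ) < c' from hc'))
  obtain ⟨w, hw0, hw1, hw2, hw3, hw4, hw5, hw6, hw7, hw8⟩ :=
    (hfr.and_eventually (hE.and (ha.and ((vrange hη hη1).and (hcc.and (hd.and (hdz.and
      (hX.and hUpos)))))))).exists
  obtain ⟨X, hXd⟩ : ∃ X : ℕ, X = XL (LL c' s w) := ⟨_, rfl⟩
  rw [← hXd] at hw2 hw4 hw5 hw6 hw7 hw8
  obtain ⟨⟨hwn, hcn1, hcn2⟩, hUl, hXN, hXl⟩ := hw7
  have hL0 : 0 < Real.log X := by linarith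
  obtain ⟨v, hvd⟩ : ∃ v : ℕ, v = ⌊(w : ℝ) ^ (1 - η / 2)⌋₊ := ⟨_, rfl⟩
  rw [← hvd] at hw3 hw4
  obtain ⟨U, hUd⟩ : ∃ U : ℕ, U = UU c' X := ⟨_, rfl⟩
  rw [← hUd] at hw2 hcn2 hUl hw8
  have hU0 : (0 : ℝ) < U := by
    have : 0 < Real.log X ^ (1 + 1) := by positivity
    rw [lt_div_iff₀ this, zero_mul] at hw8
    exact hw8
  have hU1 : (U : ℝ) ≤ c' * Real.log X ^ 2 := by
    rw [hUd]; exact Nat.floor_le (by positivity)
  -- the level
  have hz1 : (w : ℝ) ^ (1 - η) ≤ (z X : ℝ) := hw5.1.trans hw6.1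
  have hz2 : (z X : ℝ) ≤ (w : ℝ) ^ (1 + η) := by
    have h1 : (z X : ℝ) ≤ (z (3 * X) : ℝ) := by
      exact_mod_cast hM.mono (show X ≤ 3 * X by omega)
    exact h1.trans (hw6.2.trans hw5.2)
  obtain ⟨t, ht⟩ := hw1 U v hw2 hw3.1 hw3.2
  obtain ⟨M, hMd⟩ : ∃ M : ℕ, M = X / (4 * (primorial ⌊b / 2 * Real.log X⌋₊ * (U + 1))) := ⟨_, rfl⟩
  rw [← hMd] at hcn2
  have hpm : primorial v ≤ primorial ⌊b / 2 * Real.log X⌋₊ := primorial_mono hw4
  have hMX : 4 * (M * (primorial v * (U + 1))) ≤ X := by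
    have h1 := Nat.div_mul_le_self X (4 * (primorial ⌊b / 2 * Real.log X⌋₊ * (U + 1)))
    rw [← hMd] at h1
    calc 4 * (M * (primorial v * (U + 1))) ≤
        4 * (M * (primorial ⌊b / 2 * Real.log X⌋₊ * (U + 1))) := by gcongr
      _ = M * (4 * (primorial ⌊b / 2 * Real.log X⌋₊ * (U + 1))) := by ring
      _ ≤ X := h1
  obtain ⟨pos, hp1, hp2, hp3⟩ := hPOSK 1 (fun _ => 1) (fun _ => 0) v t X M U
    ((Nat.mul_le_mul_left 4 hpm).trans hcn1) hMX
  have hq : ∀ i < M, Real.exp (-(r * Real.log X)) ≤ (P (EE A (pos i) U)).toReal := by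
    intro i hi
    obtain ⟨p1, p2⟩ := hp2 i hi
    refine le_trans ?_ (hwn (pos i) U p1 (by omega)).1
    rw [Real.exp_le_exp, neg_le_neg_iff]
    have h1 : sv (fun _ => 0) v (pos i) U = sv (fun _ => 0) v t U := by
      rw [← sy_sv, ← sy_sv]; exact hp3 i U
    have h2 := (ht (pos i) (z X) h1 hz1 hz2).trans (add_le_add_left hw0 ε)
    have h3 : (sv (fun _ => 0) (z X) (pos i) U : ℝ) * MM (z X) ≤ (σ + ε) * U := by
      rw [← mul_div_assoc, div_le_iff₀ hU0] at h2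
      linarith
    have h4 : MM (z X) / Real.log X * sv (fun _ => 0) (z X) (pos i) U ≤
        (σ + ε) * (c' * Real.log X) := by
      rw [div_mul_eq_mul_div, div_le_iff₀ hL0]
      calc MM (z X) * (sv (fun _ => 0) (z X) (pos i) U : ℝ) =
          (sv (fun _ => 0) (z X) (pos i) U : ℝ) * MM (z X) := mul_comm _ _
        _ ≤ (σ + ε) * U := h3
        _ ≤ (σ + ε) * (c' * Real.log X ^ 2) := by gcongr
        _ = (σ + ε) * (c' * Real.log X) * Real.log X := by ring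
    calc (1 + ε) * (MM (z X) / Real.log X * sv (fun _ => 0) (z X) (pos i) U) ≤
        (1 + ε) * ((σ + ε) * (c' * Real.log X)) := by gcongr
      _ = r * Real.log X := by rw [hr]; ring
  refine ⟨X, hXN, ?_⟩
  have hsub : (P {ω | ∀ n : ℕ, X ≤ n → n ≤ 2 * X → ω ∉ EE A n ⌊c * Real.log n ^ 2⌋₊}).toReal ≤
      (P {ω | ∀ i < M, ω ∉ EE A (pos i) U}).toReal := by
    refine ENNReal.toReal_mono (measure_ne_top _ _) (measure_mono fun ω hω i hi hE => ?_)
    obtain ⟨p1, p2⟩ := hp2 i hi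
    have h1 : pos i ≤ 2 * X := by omega
    exact hω (pos i) p1 h1 (EE_anti A (pos i) (hUl (pos i) p1 h1) hE)
  refine hsub.trans ?_
  rw [hBLK Ω P A hP hM.meas hM.indep M U pos hp1]
  have hprod : ∏ i ∈ Finset.range M, (1 - (P (EE A (pos i) U)).toReal) ≤
      ∏ i ∈ Finset.range M, Real.exp (-Real.exp (-(r * Real.log X))) := by
    refine Finset.prod_le_prod (fun i _ => ?_) (fun i hi => ?_)
    · have : (P (EE A (pos i) U)).toReal ≤ 1 := by
        have := ENNReal.toReal_mono ENNReal.one_ne_top (prob_le_one (μ := P) (s := EE A (pos i) U))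
        simpa using this
      linarith
    · have h1 := hq i (Finset.mem_range.1 hi)
      have h2 := Real.add_one_le_exp (-Real.exp (-(r * Real.log X)))
      linarith
  refine hprod.trans ?_
  rw [Finset.prod_const, Finset.card_range, ← Real.exp_nat_mul]
  calc Real.exp (M * -Real.exp (-(r * Real.log X))) ≤ Real.exp (Real.log κ) := by
        rw [Real.exp_le_exp]
        linarith
    _ = κ := Real.exp_log hκ

end Pool.Agent.H50.LG
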