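import Pool.Agent.H50.LG.Stm2
import Pool.Agent.H50.LG.LOP
import Pool.Agent.H50.GW.GUP

set_option autoImplicit false

/-! # LG-LOQ (helper82), adapted from `Pool/Agent/H50/LG/LOP.lean` (helper81) -/

open MeasureTheory Filter ProbabilityTheory
open scoped Topology ENNReal

namespace Pool.Agent.H50.LG

open Pool.Agent.H50.BF Pool.Agent.H50.GW

namespace LOQaux

open Pool.Agent.H50.GW.GEXaux (tlog log_range count)
open LOPaux

/-- the range of the level -/
lemma zrange2 {η a : ℝ} (hη : 0 < η) (hη1 : η ≤ 1 / 2) (ha : 0 < a) : ∀ᶠ w : ℕ in atTop,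
    ∀ B : ℝ, a / 2 * w ≤ B → B ≤ 2 * a * w →
    (w : ℝ) ^ (1 - η) ≤ B ^ (1 - η / 2) ∧ B ^ (1 + η / 2) ≤ (w : ℝ) ^ (1 + η) := by
  have hd : 0 < (a / 2) ^ (1 - η / 2) := by positivity
  filter_upwards [pow_big (show 0 < η / 2 by positivity) (((a / 2) ^ (1 - η / 2))⁻¹),
    pow_big (show 0 < η / 2 by positivity) ((2 * a) ^ (1 + η / 2)), eventually_ge_atTop 1]
    with w h1 h2 h3 B h4 h5
  have hw1 : (1 : ℝ) ≤ w := by exact_mod_cast h3
  have hw0 : (0 : ℝ) < w := by linarith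
  constructor
  · have e1 : (a / 2 * w) ^ (1 - η / 2) ≤ B ^ (1 - η / 2) :=
      Real.rpow_le_rpow (by positivity) h4 (by linarith)
    refine le_trans ?_ e1
    rw [Real.mul_rpow (by positivity) hw0.le]
    have e2 : (w : ℝ) ^ (1 - η / 2) = (w : ℝ) ^ (η / 2) * (w : ℝ) ^ (1 - η) := by
      rw [← Real.rpow_add hw0]; congr 1; ring
    rw [e2, ← mul_assoc]
    have e3 : 1 ≤ (a / 2) ^ (1 - η / 2) * (w : ℝ) ^ (η / 2) := by
      calc (1 : ℝ) = (a / 2) ^ (1 - η / 2) * ((a / 2) ^ (1 - η / 2))⁻¹ := by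
            rw [mul_inv_cancel₀ hd.ne']
        _ ≤ _ := by gcongr
    have e4 : 0 < (w : ℝ) ^ (1 - η) := by positivity
    nlinarith
  · have hBw : 0 ≤ B := le_trans (by positivity) h4
    have e1 : B ^ (1 + η / 2) ≤ (2 * a * w) ^ (1 + η / 2) :=
      Real.rpow_le_rpow hBw h5 (by linarith)
    refine e1.trans ?_
    rw [Real.mul_rpow (by positivity) hw0.le]
    have e2 : (w : ℝ) ^ (1 + η) = (w : ℝ) ^ (η / 2) * (w : ℝ) ^ (1 + η / 2) := by
      rw [← Real.rpow_add hw0]; congr 1; ring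
    rw [e2]
    gcongr

/-- the level as a function of `X` -/
noncomputable def WX (c' α : ℝ) (X : ℕ) : ℕ := ⌊(Real.sqrt c' * Real.log X) ^ α⌋₊

lemma WX_ratio {c' α : ℝ} (hc : 0 < c') (hα : 0 < α) :
    Tendsto (fun X : ℕ => (WX c' α X : ℝ) / Real.log X ^ α) atTop (𝓝 (Real.sqrt c' ^ α)) := by
  have h1 := tendsto_nat_floor_mul_div_atTop (R := ℝ) (a := Real.sqrt c' ^ α) (by positivity)
  have h2 : Tendsto (fun n : ℕ => Real.log n ^ α) atTop atTop :=
    (tendsto_rpow_atTop hα).comp tlog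
  refine (h1.comp h2).congr' ?_
  filter_upwards [tlog.eventually_ge_atTop 1] with X hX
  simp only [Function.comp, WX]
  rw [Real.mul_rpow (Real.sqrt_nonneg _) (by linarith)]

lemma WX_tendsto {c' α : ℝ} (hc : 0 < c') (hα : 0 < α) : Tendsto (WX c' α) atTop atTop := by
  unfold WX
  exact tendsto_nat_floor_atTop.comp ((tendsto_rpow_atTop hα).comp
    (tlog.const_mul_atTop (Real.sqrt_pos.2 hc)))

end LOQaux

open LOPaux LOQaux in
theorem loq : S_EXH → GW.S_POSK → S_WNG → S_BLK → S_MMZ → S_LOQ := by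
  intro hEXH hPOSK hWNG hBLK hMMZ Ω _ P A z α hα hα1 hM c σ hc hσ hfr hcσ
  have hP := hM.prob
  obtain ⟨ε, c', hε, hcc', hr0, hr1⟩ := params hc hσ hcσ
  have hc' : 0 < c' := hc.trans hcc'
  obtain ⟨r, hr⟩ : ∃ r : ℝ, r = (1 + ε) * (σ + ε) * c' := ⟨_, rfl⟩
  rw [← hr] at hr0 hr1
  obtain ⟨r', hr'⟩ : ∃ r' : ℝ, r' = (1 + r) / 2 := ⟨_, rfl⟩
  have hrr : r < r' := by rw [hr']; linarith
  have hr'1 : r' < 1 := by rw [hr']; linarith
  obtain ⟨b, hb⟩ : ∃ b : ℝ, b = min (1 / 2) ((1 - r') / 2) := ⟨_, rfl⟩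
  have hb0 : 0 < b := by rw [hb]; exact lt_min (by norm_num) (by linarith)
  have hb1 : b ≤ 1 / 2 := by rw [hb]; exact min_le_left _ _
  have hb2 : b ≤ (1 - r') / 2 := by rw [hb]; exact min_le_right _ _
  have hs : 2 ≤ 2 / α := by rw [le_div_iff₀ hα]; linarith
  obtain ⟨s, hsd⟩ : ∃ s : ℝ, s = 2 / α := ⟨_, rfl⟩
  rw [← hsd] at hfr hs
  have hsα : α * s = 2 := by rw [hsd]; field_simp
  obtain ⟨η, hη, hη1, hE⟩ := hEXH s ε hs hε
  obtain ⟨cnt1, cnt2⟩ := GEXaux.count 1 hc' hb0 hb1 hb2 hr'1 (UU_tendsto hc')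
  obtain ⟨hz1, -, hz3⟩ := hMMZ z α hα hM.mono hM.lev
  have hsq : 0 < Real.sqrt c' := Real.sqrt_pos.2 hc'
  have hsq2 : Real.sqrt c' ^ 2 = c' := Real.sq_sqrt hc'.le
  obtain ⟨a, ha0⟩ : ∃ a : ℝ, a = Real.sqrt c' ^ α := ⟨_, rfl⟩
  have ha : 0 < a := by rw [ha0]; positivity
  have hWt := WX_tendsto hc' hα
  have hWr := WX_ratio hc' hα
  rw [← ha0] at hWr
  -- (a)
  have hUw : Tendsto (fun X : ℕ => (UU c' X : ℝ) / (WX c' α X : ℝ) ^ s) atTop (𝓝 1) := by
    have h1 := hWr.rpow_const (p := s) (Or.inl ha.ne')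
    have h2 : a ^ s = c' := by
      rw [ha0, ← Real.rpow_mul hsq.le, hsα]
      rw [show (2 : ℝ) = ((2 : ℕ) : ℝ) by norm_num, Real.rpow_natCast, hsq2]
    rw [h2] at h1
    have h3 := (UU_tendsto hc').div h1 hc'.ne'
    rw [div_self hc'.ne'] at h3
    refine h3.congr' ?_
    filter_upwards [GEXaux.tlog.eventually_ge_atTop 1, hWt.eventually_ge_atTop 1] with X hX hW
    have hX0 : 0 < Real.log X := by linarith
    have hW0 : (0 : ℝ) < WX c' α X := by exact_mod_cast hW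
    simp only [Pi.div_apply]
    rw [Real.div_rpow hW0.le (by positivity), ← Real.rpow_mul hX0.le, hsα,
      show (2 : ℝ) = ((2 : ℕ) : ℝ) by norm_num, Real.rpow_natCast]
    have h5 : 0 < Real.log X ^ 2 := by positivity
    have h6 : 0 < (WX c' α X : ℝ) ^ s := by positivity
    rw [one_add_one_eq_two]
    field_simp
  have haa : ∀ᶠ X : ℕ in atTop, |(UU c' X : ℝ) - (WX c' α X : ℝ) ^ s| ≤ η * (WX c' α X : ℝ) ^ s := by
    filter_upwards [hUw.eventually_const_le (show 1 - η < 1 by linarith),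
      hUw.eventually_le_const (show 1 < 1 + η by linarith), hWt.eventually_ge_atTop 1] with X h1 h2 hw
    have hw0 : (0 : ℝ) < WX c' α X := by exact_mod_cast hw
    have : 0 < (WX c' α X : ℝ) ^ s := by positivity
    rw [le_div_iff₀ this] at h1
    rw [div_le_iff₀ this] at h2
    rw [abs_le]
    constructor <;> linarith
  -- (c)
  have hcc : ∀ᶠ X : ℕ in atTop, ⌊(WX c' α X : ℝ) ^ (1 - η / 2)⌋₊ ≤ ⌊b / 2 * Real.log X⌋₊ := by
    filter_upwards [hWt.eventually (pow_big (show 0 < η / 2 by positivity) (Real.sqrt c' * (b / 2)⁻¹)),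
      hWt.eventually_ge_atTop 1, (GEXaux.tlog.const_mul_atTop hsq).eventually_ge_atTop 1,
      GEXaux.tlog.eventually_ge_atTop 1] with X h1 h2 h3 h4
    have hw0 : (0 : ℝ) < WX c' α X := by exact_mod_cast h2
    refine Nat.floor_le_floor ?_
    have h5 : (WX c' α X : ℝ) ≤ Real.sqrt c' * Real.log X := by
      calc (WX c' α X : ℝ) ≤ (Real.sqrt c' * Real.log X) ^ α := Nat.floor_le (by positivity)
        _ ≤ (Real.sqrt c' * Real.log X) ^ (1 : ℝ) := Real.rpow_le_rpow_of_exponent_le h3 hα1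
        _ = _ := Real.rpow_one _
    have h6 : (WX c' α X : ℝ) ^ (1 - η / 2) * (WX c' α X : ℝ) ^ (η / 2) = WX c' α X := by
      rw [← Real.rpow_add hw0]; simp
    have h7 : 0 < (WX c' α X : ℝ) ^ (1 - η / 2) := by positivity
    have h8 : (WX c' α X : ℝ) ^ (1 - η / 2) * (Real.sqrt c' * (b / 2)⁻¹) ≤
        Real.sqrt c' * Real.log X := by
      calc (WX c' α X : ℝ) ^ (1 - η / 2) * (Real.sqrt c' * (b / 2)⁻¹) ≤
            (WX c' α X : ℝ) ^ (1 - η / 2) * (WX c' α X : ℝ) ^ (η / 2) :=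
              mul_le_mul_of_nonneg_left h1 h7.le
        _ = WX c' α X := h6
        _ ≤ _ := h5
    have h9 : (WX c' α X : ℝ) ^ (1 - η / 2) * (Real.sqrt c' * (b / 2)⁻¹) * (b / 2) =
        Real.sqrt c' * (WX c' α X : ℝ) ^ (1 - η / 2) := by
      field_simp
    have h10 : Real.sqrt c' * (WX c' α X : ℝ) ^ (1 - η / 2) ≤ Real.sqrt c' * (b / 2 * Real.log X) := by
      rw [← h9]
      calc _ ≤ Real.sqrt c' * Real.log X * (b / 2) := mul_le_mul_of_nonneg_right h8 (by positivity)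
        _ = _ := by ring
    exact le_of_mul_le_mul_left h10 hsq
  -- (d)
  have hB1 : ∀ᶠ X : ℕ in atTop, a⁻¹ / 2 * (WX c' α X : ℝ) ≤ Real.log X ^ α ∧
      Real.log X ^ α ≤ 2 * a⁻¹ * (WX c' α X : ℝ) := by
    filter_upwards [hWr.eventually_const_le (show a / 2 < a by linarith),
      hWr.eventually_le_const (show a < 2 * a by linarith), GEXaux.tlog.eventually_ge_atTop 1]
      with X h1 h2 h3
    have hX0 : 0 < Real.log X := by linarith
    have hX1 : 0 < Real.log X ^ α := by positivity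
    rw [le_div_iff₀ hX1] at h1
    rw [div_le_iff₀ hX1] at h2
    constructor
    · calc a⁻¹ / 2 * (WX c' α X : ℝ) ≤ a⁻¹ / 2 * (2 * a * Real.log X ^ α) := by gcongr
        _ = _ := by field_simp
    · calc Real.log X ^ α = 2 * a⁻¹ * (a / 2 * Real.log X ^ α) := by field_simp
        _ ≤ _ := by gcongr
  have hd := hWt.eventually (zrange2 hη hη1 (show 0 < a⁻¹ by positivity))
  have hdz := hz3 (η / 2) (by positivity)
  -- the final bound for large `X`
  refine (GUPx.bc (P := P) (s := fun X : ℕ =>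
    {ω | ∀ n : ℕ, X ≤ n → n ≤ 2 * X → ω ∉ EE A n ⌊c * Real.log X ^ 2⌋₊}) (δ := 1) one_pos ?_).mono ?_
  swap
  · intro ω hω
    filter_upwards [hω] with X hX
    simp only [not_forall, not_not] at hX
    obtain ⟨n, h1, h2, h3⟩ := hX
    exact ⟨n, h1, h2, h3⟩
  have hUpos := (UU_tendsto hc').eventually_const_lt (show (0 : ℝ) < c' from hc')
  have hexpl : Tendsto (fun x : ℝ => Real.exp ((r' - r) * x) / x) atTop atTop := by
    have h1 : Tendsto (fun x : ℝ => Real.exp x / x ^ 1) atTop atTop := Real.tendsto_exp_div_pow_atTop 1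
    have h2 : Tendsto (fun x : ℝ => (r' - r) * x) atTop atTop :=
      tendsto_id.const_mul_atTop (by linarith)
    have h3 := (h1.comp h2).const_mul_atTop (show 0 < r' - r by linarith)
    refine h3.congr' ?_
    filter_upwards [eventually_gt_atTop 0] with x hx
    have : r' - r ≠ 0 := by linarith
    simp only [Function.comp, pow_one]
    field_simp
  filter_upwards [hWt.eventually hfr, hWt.eventually hE, haa, hWt.eventually (vrange hη hη1), hcc, hB1,
    hd, hdz, hWNG Ω P A z α hα hα1 hM ε hε, cnt1, cnt2.eventually_ge_atTop 1,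
    GEXaux.tlog.eventually_ge_atTop 1, hUpos,
    (hexpl.comp GEXaux.tlog).eventually_ge_atTop 2] with X hw0 hw1 hw2 hw3 hw4 hw5' hw5'' hw6 hwn hcn1 hcn2
      hXl hw8 hexp2
  have hw5 := hw5'' _ hw5'.1 hw5'.2
  obtain ⟨w, hwd⟩ : ∃ w : ℕ, w = WX c' α X := ⟨_, rfl⟩
  rw [← hwd] at hw0 hw1 hw2 hw3 hw4 hw5
  have hL0 : 0 < Real.log X := by linarith
  obtain ⟨v, hvd⟩ : ∃ v : ℕ, v = ⌊(w : ℝ) ^ (1 - η / 2)⌋₊ := ⟨_, rfl⟩
  rw [← hvd] at hw3 hw4
  obtain ⟨U, hUd⟩ : ∃ U : ℕ, U = UU c' X := ⟨_, rfl⟩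
  rw [← hUd] at hw2 hcn2 hw8
  have hU0 : (0 : ℝ) < U := by
    have : 0 < Real.log X ^ (1 + 1) := by positivity
    rw [lt_div_iff₀ this, zero_mul] at hw8
    exact hw8
  have hU1 : (U : ℝ) ≤ c' * Real.log X ^ 2 := by
    rw [hUd]; exact Nat.floor_le (by positivity)
  have hUl : ⌊c * Real.log X ^ 2⌋₊ ≤ U := by
    rw [hUd]
    refine Nat.floor_le_floor ?_
    gcongr
  -- the level
  have hz1 : (w : ℝ) ^ (1 - η) ≤ (z X : ℝ) := hw5.1.trans hw6.1
  have hz2 : (z X : ℝ) ≤ (w : ℝ) ^ (1 + η) := by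
    have h1 : (z X : ℝ) ≤ (z (3 * X) : ℝ) := by
      exact_mod_cast hM.mono (show X ≤ 3 * X by omega)
    exact h1.trans (hw6.2.trans hw5.2)
  obtain ⟨t, ht⟩ := hw1 U v hw2 hw3.1 hw3.2
  obtain ⟨M, hMd⟩ : ∃ M : ℕ, M = X / (4 * (primorial ⌊b / 2 * Real.log X⌋₊ * (U + 1))) := ⟨_, rfl⟩
  rw [← hMd] at hcn2
  have hpm : primorial v ≤ primorial ⌊b / 2 * Real.log X⌋₊ := primorial_mono hw4
  have hMX : 4 * (M * (primorial v * (U + 1))) ≤ X := by
    have h1 := Nat.div_mul_le_self X (4 * (primorial ⌊b / 2 * Real.log X⌋₊ * (U + 1)))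
    rw [← hMd] at h1
    calc 4 * (M * (primorial v * (U + 1))) ≤
        4 * (M * (primorial ⌊b / 2 * Real.log X⌋₊ * (U + 1))) := by gcongr
      _ = M * (4 * (primorial ⌊b / 2 * Real.log X⌋₊ * (U + 1))) := by ring
      _ ≤ X := h1
  obtain ⟨pos, hp1, hp2, hp3⟩ := hPOSK 1 (fun _ => 1) (fun _ => 0) v t X M U
    ((Nat.mul_le_mul_left 4 hpm).trans hcn1) hMX
  have hq : ∀ i < M, Real.exp (-(r * Real.log X)) ≤ (P (EE A (pos i) U)).toReal := by
    intro i hi
    obtain ⟨p1, p2⟩ := hp2 i hi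
    refine le_trans ?_ (hwn (pos i) U p1 (by omega)).1
    rw [Real.exp_le_exp, neg_le_neg_iff]
    have h1 : sv (fun _ => 0) v (pos i) U = sv (fun _ => 0) v t U := by
      rw [← sy_sv, ← sy_sv]; exact hp3 i U
    have h2 := (ht (pos i) (z X) h1 hz1 hz2).trans (add_le_add_left hw0 ε)
    have h3 : (sv (fun _ => 0) (z X) (pos i) U : ℝ) * MM (z X) ≤ (σ + ε) * U := by
      rw [← mul_div_assoc, div_le_iff₀ hU0] at h2
      linarith
    have h4 : MM (z X) / Real.log X * sv (fun _ => 0) (z X) (pos i) U ≤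
        (σ + ε) * (c' * Real.log X) := by
      rw [div_mul_eq_mul_div, div_le_iff₀ hL0]
      calc MM (z X) * (sv (fun _ => 0) (z X) (pos i) U : ℝ) =
          (sv (fun _ => 0) (z X) (pos i) U : ℝ) * MM (z X) := mul_comm _ _
        _ ≤ (σ + ε) * U := h3
        _ ≤ (σ + ε) * (c' * Real.log X ^ 2) := by gcongr
        _ = (σ + ε) * (c' * Real.log X) * Real.log X := by ring
    calc (1 + ε) * (MM (z X) / Real.log X * sv (fun _ => 0) (z X) (pos i) U) ≤
        (1 + ε) * ((σ + ε) * (c' * Real.log X)) := by gcongr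
      _ = r * Real.log X := by rw [hr]; ring
  have hsub : (P {ω | ∀ n : ℕ, X ≤ n → n ≤ 2 * X → ω ∉ EE A n ⌊c * Real.log X ^ 2⌋₊}).toReal ≤
      (P {ω | ∀ i < M, ω ∉ EE A (pos i) U}).toReal := by
    refine ENNReal.toReal_mono (measure_ne_top _ _) (measure_mono fun ω hω i hi hE => ?_)
    obtain ⟨p1, p2⟩ := hp2 i hi
    have h1 : pos i ≤ 2 * X := by omega
    exact hω (pos i) p1 h1 (EE_anti A (pos i) hUl hE)
  rw [ENNReal.le_ofReal_iff_toReal_le (measure_ne_top P _) (Real.exp_nonneg _)]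
  refine hsub.trans ?_
  rw [hBLK Ω P A hP hM.meas hM.indep M U pos hp1]
  have hprod : ∏ i ∈ Finset.range M, (1 - (P (EE A (pos i) U)).toReal) ≤
      ∏ i ∈ Finset.range M, Real.exp (-Real.exp (-(r * Real.log X))) := by
    refine Finset.prod_le_prod (fun i _ => ?_) (fun i hi => ?_)
    · have : (P (EE A (pos i) U)).toReal ≤ 1 := by
        have := ENNReal.toReal_mono ENNReal.one_ne_top (prob_le_one (μ := P) (s := EE A (pos i) U))
        simpa using this
      linarith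
    · have h1 := hq i (Finset.mem_range.1 hi)
      have h2 := Real.add_one_le_exp (-Real.exp (-(r * Real.log X)))
      linarith
  refine hprod.trans ?_
  rw [Finset.prod_const, Finset.card_range, ← Real.exp_nat_mul, Real.exp_le_exp]
  have h1 : Real.exp ((r' - r) * Real.log X) ≤ M * Real.exp (-(r * Real.log X)) := by
    calc Real.exp ((r' - r) * Real.log X) = 1 * Real.exp ((r' - r) * Real.log X) := (one_mul _).symm
      _ ≤ (M * Real.exp (-(r' * Real.log X))) * Real.exp ((r' - r) * Real.log X) :=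
        mul_le_mul_of_nonneg_right hcn2 (Real.exp_pos _).le
      _ = M * Real.exp (-(r * Real.log X)) := by
        rw [mul_assoc, ← Real.exp_add]
        congr 2; ring
  simp only [Function.comp] at hexp2
  rw [le_div_iff₀ hL0] at hexp2
  linarith

end Pool.Agent.H50.LG
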