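import Pool.Agent.H50.LG.Stm

/-! # LG-MMZ (helper91) -/

set_option autoImplicit false

open MeasureTheory Filter
open scoped Topology ENNReal

namespace Pool.Agent.H50.LG

open Pool.Agent.H50.BF Pool.Agent.H50.GW

namespace MMZ91

theorem tendsto_ll : Tendsto (fun n : ℕ => Real.log (Real.log n)) atTop atTop :=
  Real.tendsto_log_atTop.comp (Real.tendsto_log_atTop.comp tendsto_natCast_atTop_atTop)

theorem tendsto_three : Tendsto (fun n : ℕ => 3 * n) atTop atTop :=
  tendsto_id.const_mul_atTop' (by norm_num)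

theorem ratio_ll : Tendsto (fun n : ℕ => Real.log (Real.log ((3 * n : ℕ) : ℝ)) / Real.log (Real.log n))
    atTop (𝓝 1) := by
  have h1 : Tendsto (fun n : ℕ => 1 + Real.log 2 / Real.log (Real.log n)) atTop (𝓝 (1 + 0)) :=
    tendsto_const_nhds.add (tendsto_const_nhds.div_atTop tendsto_ll)
  rw [add_zero] at h1
  have hev : ∀ᶠ n : ℕ in atTop, 1 ≤ Real.log (Real.log n) := tendsto_ll.eventually_ge_atTop 1
  have hev2 : ∀ᶠ n : ℕ in atTop, 2 ≤ Real.log n :=
    (Real.tendsto_log_atTop.comp tendsto_natCast_atTop_atTop).eventually_ge_atTop 2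
  refine tendsto_of_tendsto_of_tendsto_of_le_of_le' tendsto_const_nhds h1 ?_ ?_
  · filter_upwards [hev, hev2, eventually_ge_atTop 1] with n h2 h3 h4
    have hn : (0 : ℝ) < n := by exact_mod_cast h4
    rw [le_div_iff₀ (by linarith), one_mul]
    refine Real.log_le_log (by linarith) (Real.log_le_log hn ?_)
    push_cast
    linarith
  · filter_upwards [hev, hev2, eventually_ge_atTop 1] with n h2 h3 h4
    have hn : (0 : ℝ) < n := by exact_mod_cast h4
    rw [div_le_iff₀ (by linarith), add_mul, one_mul, div_mul_cancel₀ _ (by linarith : Real.log (Real.log n) ≠ 0)]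
    have h5 : Real.log ((3 * n : ℕ) : ℝ) ≤ 2 * Real.log n := by
      push_cast
      rw [Real.log_mul (by norm_num) hn.ne']
      have h6 : Real.log 3 ≤ 2 := by
        have := Real.log_le_sub_one_of_pos (show (0 : ℝ) < 3 by norm_num)
        linarith
      linarith
    have h7 : 0 < Real.log ((3 * n : ℕ) : ℝ) := Real.log_pos (by
      push_cast
      have : (1 : ℝ) ≤ n := by exact_mod_cast h4
      linarith)
    calc Real.log (Real.log ((3 * n : ℕ) : ℝ)) ≤ Real.log (2 * Real.log n) := Real.log_le_log h7 h5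
      _ = Real.log 2 + Real.log (Real.log n) := Real.log_mul (by norm_num) (by linarith)
      _ = Real.log (Real.log n) + Real.log 2 := by ring

end MMZ91

open MMZ91 in
theorem mmz : Pool.Agent.H50.BF.S_MERT → S_MMZ := by
  intro hM z α hα hz h
  have hpos : ∀ᶠ n : ℕ in atTop, 0 < Real.log (Real.log n) := tendsto_ll.eventually_gt_atTop 0
  have hlz : Tendsto (fun n : ℕ => Real.log (z n)) atTop atTop := by
    refine (Tendsto.pos_mul_atTop hα h tendsto_ll).congr' ?_
    filter_upwards [hpos] with n hn
    rw [div_mul_cancel₀ _ hn.ne']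
  have hzpos : ∀ᶠ n : ℕ in atTop, (0 : ℝ) < z n := by
    filter_upwards [hlz.eventually_ge_atTop 1] with n hn
    rcases Nat.eq_zero_or_pos (z n) with h0 | h0
    · rw [h0, Nat.cast_zero, Real.log_zero] at hn
      linarith
    · exact_mod_cast h0
  have hzt : Tendsto z atTop atTop := by
    rw [← tendsto_natCast_atTop_iff (R := ℝ)]
    refine (Real.tendsto_exp_atTop.comp hlz).congr' ?_
    filter_upwards [hzpos] with n hn
    exact Real.exp_log hn
  have h3 := h.comp tendsto_three
  have h4 : Tendsto (fun n : ℕ => Real.log (z (3 * n)) / Real.log (Real.log n)) atTop (𝓝 α) := by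
    have h5 := h3.mul ratio_ll
    rw [mul_one] at h5
    refine h5.congr' ?_
    filter_upwards [tendsto_three.eventually hpos] with n hn
    simp only [Function.comp]
    rw [div_mul_div_comm, mul_comm (Real.log (z (3 * n))), mul_div_mul_left _ _ hn.ne']
  refine ⟨hzt, ?_, fun η hη => ?_⟩
  · have h6 := hM.comp hzt
    have h7 := (hM.comp hzt).comp tendsto_three
    have hne : Real.exp Real.eulerMascheroniConstant ≠ 0 := (Real.exp_pos _).ne'
    have h8 := (h7.div h6 hne).mul (h4.div h hα.ne')
    rw [div_self hne, div_self hα.ne', mul_one] at h8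
    refine h8.congr' ?_
    filter_upwards [hpos, hlz.eventually_gt_atTop 0,
      (hlz.comp tendsto_three).eventually_gt_atTop 0] with n h9 h10 h11
    simp only [Function.comp, Pi.div_apply] at h11 ⊢
    have h12 : MM (z n) ≠ 0 := by
      unfold MM
      refine (Finset.prod_pos fun p hp => ?_).ne'
      have hp : p.Prime := (Finset.mem_filter.1 hp).2
      have h2 : (2 : ℝ) ≤ p := by exact_mod_cast hp.two_le
      have : (p : ℝ)⁻¹ ≤ 2⁻¹ := inv_anti₀ (by norm_num) h2
      exact inv_pos.2 (by linarith)
    field_simp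
  · have a1 : ∀ᶠ n : ℕ in atTop, α * (1 - η) < Real.log (z n) / Real.log (Real.log n) :=
      h.eventually_const_lt (by nlinarith)
    have a2 : ∀ᶠ n : ℕ in atTop, Real.log (z (3 * n)) / Real.log (Real.log n) < α * (1 + η) :=
      h4.eventually_lt_const (by nlinarith)
    filter_upwards [a1, a2, hpos, hzpos, tendsto_three.eventually hzpos,
      (Real.tendsto_log_atTop.comp tendsto_natCast_atTop_atTop).eventually_gt_atTop 0] with
      n b1 b2 b3 b4 b5 b6
    have b7 : 0 < Real.log n := b6
    have key : ∀ t : ℝ, (Real.log n ^ α) ^ t = Real.exp (α * t * Real.log (Real.log n)) := by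
      intro t
      rw [← Real.rpow_mul b7.le, Real.rpow_def_of_pos b7, mul_comm]
    rw [lt_div_iff₀ b3] at b1
    rw [div_lt_iff₀ b3] at b2
    rw [key, key]
    constructor
    · rw [← Real.le_log_iff_exp_le b4]
      exact b1.le
    · rw [← Real.log_le_iff_le_exp b5]
      exact b2.le

end Pool.Agent.H50.LG
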