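import Pool.Agent.H50.LG.Stm
import Pool.Agent.H50.BF.SIGA

/-! # LG-MNG (helper91) -/

set_option autoImplicit false

open MeasureTheory Filter
open scoped Topology ENNReal

namespace Pool.Agent.H50.LG

open Pool.Agent.H50.BF Pool.Agent.H50.BF.SIGA

theorem mng : Pool.Agent.H50.BF.S_SUB → S_MNG := by
  rintro ⟨C, hC0, hC⟩ s s' ε hs hss' hε
  rcases hss'.eq_or_lt with rfl | hlt
  · exact Eventually.of_forall fun w => by linarith
  -- bound for `hi w s`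
  have hhi : ∀ᶠ w : ℕ in atTop, hi w s ≤ C := by
    filter_upwards [hC 1 one_pos le_rfl, eventually_ge_atTop 2] with w hw h2
    have hw1 : (2 : ℝ) ≤ w := by exact_mod_cast h2
    have hA : (w : ℝ) ^ (2 : ℝ) ≤ (w : ℝ) ^ s :=
      Real.rpow_le_rpow_of_exponent_le (by linarith) hs
    have hA2 : (w : ℝ) ^ (2 : ℝ) = (w : ℝ) ^ 2 := by norm_num
    rw [hA2] at hA
    have hA0 : 0 < (w : ℝ) ^ s := by positivity
    have hM := MM_pos w
    refine ciSup_le fun t => ?_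
    have hfl : (w : ℝ) ^ s < ⌊(w : ℝ) ^ s⌋₊ + 1 := Nat.lt_floor_add_one _
    have hfl' : (⌊(w : ℝ) ^ s⌋₊ : ℝ) ≤ (w : ℝ) ^ s := Nat.floor_le hA0.le
    have h4 : (4 : ℝ) ≤ (w : ℝ) ^ 2 := by nlinarith
    have h5 := (hw (fun _ => 0) w t ⌊(w : ℝ) ^ s⌋₊ ⌊(w : ℝ) ^ s⌋₊
      (by rw [Real.sqrt_le_left (by linarith)]; nlinarith) (by nlinarith) (by linarith) le_rfl
      (by nlinarith [Nat.cast_nonneg (α := ℝ) ⌊(w : ℝ) ^ s⌋₊])).2
    have h6 : (0 : ℝ) < ⌊(w : ℝ) ^ s⌋₊ := by linarith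
    rw [← mul_div_assoc] at h5
    refine le_trans ?_ h5
    gcongr
  set δ : ℝ := min (1 / 4) (ε / (4 * C)) with hδ
  have hδ0 : 0 < δ := lt_min (by norm_num) (by positivity)
  have hδ1 : δ ≤ 1 / 4 := min_le_left _ _
  have hδ2 : 4 * δ * C ≤ ε := by
    have : δ ≤ ε / (4 * C) := min_le_right _ _
    rw [le_div_iff₀ (by positivity)] at this
    linarith
  have e1 : ∀ᶠ w : ℕ in atTop, 1 / δ ≤ (w : ℝ) ^ s :=
    ((tendsto_rpow_atTop (by linarith)).comp tendsto_natCast_atTop_atTop).eventually_ge_atTop _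
  have e2 : ∀ᶠ w : ℕ in atTop, 1 / δ ≤ (w : ℝ) ^ (s' - s) :=
    ((tendsto_rpow_atTop (by linarith)).comp tendsto_natCast_atTop_atTop).eventually_ge_atTop _
  filter_upwards [hhi, e1, e2, eventually_ge_atTop 1] with w h1 h2 h3 h4
  have hw0 : (0 : ℝ) < w := by exact_mod_cast h4
  rw [div_le_iff₀ hδ0] at h2 h3
  have h5 : (w : ℝ) ^ s ≤ δ * (w : ℝ) ^ s' := by
    have : (w : ℝ) ^ s' = (w : ℝ) ^ (s' - s) * (w : ℝ) ^ s := by
      rw [← Real.rpow_add hw0]; congr 1; ring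
    rw [this]
    have : 0 < (w : ℝ) ^ s := by positivity
    nlinarith
  obtain ⟨h6, -⟩ := fin w s s' C δ h4 hδ0 hδ1 (by linarith) (by linarith) h5 h1
  have h8 : 0 ≤ δ * C := by positivity
  linarith

end Pool.Agent.H50.LG
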