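import Pool.Agent.H50.LG.NULL

/-! LG-NUL (helper86): the theorem `nul` is in `Pool/Agent/H50/LG/NULL.lean`. -/
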