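import Pool.Agent.H50.LG.Stm2
import Pool.Agent.H50.LG.INFG

/-! LG-NUL (helper86): the probability that `(n, 2n]` is empty tends to zero (the proof is the one inside `INFG.lean`). -/

set_option autoImplicit false

open MeasureTheory Filter ProbabilityTheory
open scoped Topology ENNReal

namespace Pool.Agent.H50.LG

open Pool.Agent.H50.BF Pool.Agent.H50.GW

open UPGx INFGx in
theorem nul : S_WNG → S_MMZ → BF.S_FUND → BF.S_MERT → S_NUL := by
  intro hWNG hMMZ hF _ Ω _ P A z α hα hα1 hM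
  have hP := hM.prob
  obtain ⟨hz1, hz2, hz3⟩ := hMMZ z α hα hM.mono hM.lev
  obtain ⟨s0, w0, -, hF⟩ := hF (1 / 2) (by norm_num)
  have hW := hWNG Ω P A z α hα hα1 hM (1 / 2) (by norm_num)
  have hr : ∀ᶠ n : ℕ in atTop, MM (z (3 * n)) / MM (z n) < 2 :=
    hz2.eventually (gt_mem_nhds (by norm_num))
  have key : ∀ᶠ n : ℕ in atTop, (P (EE A n n)).toReal ≤
      Real.exp (-((n : ℝ) / (8 * Real.log n))) := by
    filter_upwards [hW, hr, hz3 1 one_pos, pow_small s0, GUPx.log_tend.eventually_ge_atTop 1,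
      hz1.eventually_ge_atTop w0] with n a1 a2 a3 a4 a5 a6
    set L := Real.log (n : ℝ) with hL
    have hL0 : 0 < L := by linarith
    have b2 := (a1 n n le_rfl (by omega)).2
    have hM1 := MM_pos (z n)
    have hM3 := MM_pos (z (3 * n))
    refine b2.trans (Real.exp_le_exp.2 (neg_le_neg ?_))
    have hz : ((z (3 * n) : ℕ) : ℝ) ≤ L ^ 2 := by
      refine a3.2.trans ?_
      rw [← Real.rpow_mul hL0.le, show (L : ℝ) ^ 2 = L ^ (2 : ℝ) by norm_num]
      apply Real.rpow_le_rpow_of_exponent_le a5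
      nlinarith
    have hw : w0 ≤ z (3 * n) := a6.trans (hM.mono (by omega))
    have b3 := hF (z (3 * n)) hw n n (by
      refine le_trans ?_ a4
      apply pow_le_pow_left₀ (by positivity)
      linarith)
    rw [abs_le] at b3
    set S : ℝ := (sv (fun _ => 0) (z (3 * n)) n n : ℝ) with hS
    have e1 : (n : ℝ) / MM (z (3 * n)) / 2 ≤ S := by linarith [b3.1]
    have e2 : MM (z (3 * n)) ≤ 2 * MM (z n) := by
      rw [div_lt_iff₀ hM1] at a2; linarith
    have e3 : (n : ℝ) / 4 ≤ MM (z n) * S := by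
      have h1 : (n : ℝ) / 2 ≤ MM (z (3 * n)) * S := by
        have h2 : MM (z (3 * n)) * ((n : ℝ) / MM (z (3 * n)) / 2) ≤ MM (z (3 * n)) * S :=
          mul_le_mul_of_nonneg_left e1 hM3.le
        have h3 : MM (z (3 * n)) * ((n : ℝ) / MM (z (3 * n)) / 2) = (n : ℝ) / 2 := by
          field_simp
        linarith
      have hS0 : 0 ≤ S := Nat.cast_nonneg _
      have h4 : MM (z (3 * n)) * S ≤ 2 * MM (z n) * S := mul_le_mul_of_nonneg_right e2 hS0
      linarith
    calc (n : ℝ) / (8 * L) = (1 / 2) * ((n : ℝ) / 4 / L) := by field_simp; ring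
      _ ≤ (1 / 2) * (MM (z n) * S / L) := by gcongr
      _ = (1 - 1 / 2) * (MM (z n) / L * S) := by ring
  have h2 : Tendsto (fun n : ℕ => Real.exp (-((n : ℝ) / (8 * Real.log n)))) atTop (𝓝 0) :=
    Real.tendsto_exp_neg_atTop_nhds_zero.comp ratio_tend
  exact tendsto_of_tendsto_of_tendsto_of_le_of_le' tendsto_const_nhds h2
    (Eventually.of_forall fun _ => ENNReal.toReal_nonneg) key

end Pool.Agent.H50.LG
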