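import Pool.Agent.H50.GW.Stm

/-!
# Project LG: the exact constant of the largest gap in the sieved Cramér models, for every level (MP_f9960f_nt)

Sieved Cramér model of level `(log n)^(α + o(1))`, `0 < α ≤ 1`: independent events `A n`; `A n` is empty if
`n` has a prime factor `≤ z n`, where `log (z n) / log log n → α`, and `P (A n) ~ MM (z n) / log n` for the other
`n` (`MM v = ∏_{p ≤ v} (1 - 1/p)⁻¹`).  `α = 1` is Granville's model.  Goal: almost surely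
`limsup (s_(j+1) - s_j) / log² s_j = 1 / σ (2/α)`, where `σ (s) = liminf_w lo w s` is the least relative density
of the integers without prime factors `≤ w` in the intervals of length `w^s`.

Every stub `S_X` comes with its proof.  To prove `S_X`: file `Pool/Agent/H50/LG/X.lean`,
`import Pool.Agent.H50.LG.Stm`, namespace `Pool.Agent.H50.LG`, theorem `x : (used stubs) → S_X`
(lower case name; the used stubs are hypotheses).  Keep helper lemmas in a private sub-namespace.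
`BF = Pool.Agent.H50.BF`, `GW = Pool.Agent.H50.GW`, `CW = Pool.Agent.H50.CW` (their proved files may be imported).
`T ^ s` etc. are real powers.
-/

set_option autoImplicit false

open MeasureTheory Filter ProbabilityTheory
open scoped Topology ENNReal

namespace Pool.Agent.H50.LG

open Pool.Agent.H50.BF Pool.Agent.H50.GW

/-! ## The sieve (deterministic) -/

/-- EXG (about 150 lines; uses BF.S_TRANS, BF.S_SUB).  All intervals of length `U ≍ T^s` have relative density at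
least `σ - ε` at the levels `T^(1 + o(1))`.
Proof.  As the lower half of `Pool/Agent/H50/CW/EXD.lean` (there `s = 2`, `T = log n`).  Let `w = ⌊U^(1/s)⌋₊`, so
`w^s ≤ U ≤ (w + 1)^s ≤ (1 + δ) w^s / (1 + δ/2)`, hence `⌊w^s⌋₊ ≤ U ≤ (1 + δ) ⌊w^s⌋₊` for large `T`; `w / T` lies between
positive constants, so `w^(1-2η) ≤ T^(1-η)`, `T^(1+η) ≤ w^(1+2η)` for large `T`; and `w^2/2 ≤ ⌊w^s⌋₊`.
SUB (`⌊w^s⌋₊ → U`, level `w`): by `CW.CWaux.dens_close` the densities `sv 0 w m U (MM w / U)` and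
`sv 0 w m ⌊w^s⌋₊ (MM w / ⌊w^s⌋₊)` differ by at most `C δ`; the second is `≥ sv 0 w m ⌊w^s⌋₊ MM w / w^s ≥ lo w s ≥ σ`
(`lo_le` in `Pool/Agent/H50/BF/FIN.lean`).  TRANS from the level `w` to `v` (`CW.two_lev`): at most `C 2η`. -/
def S_EXG : Prop := ∀ s C ε σ : ℝ, 2 ≤ s → 1 ≤ C → 0 < ε → (∀ᶠ w : ℕ in atTop, σ ≤ lo w s) →
  ∃ η : ℝ, 0 < η ∧ η ≤ 1 / 2 ∧ ∀ᶠ T : ℝ in atTop, ∀ m U v : ℕ, T ^ s / C ≤ U → (U : ℝ) ≤ C * T ^ s →
    T ^ (1 - η) ≤ v → (v : ℝ) ≤ T ^ (1 + η) → σ - ε ≤ (sv (fun _ => 0) v m U : ℝ) * (MM v / U)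

/-- EXH (about 150 lines; uses BF.S_TRANS, BF.S_SUB).  There are windows of density at most `lo w s + ε`, and only the
sieve of level `v` matters.
Proof.  As in `Pool/Agent/H50/CW/EXW.lean`.  Choose `t` with `sv 0 w t ⌊w^s⌋₊ MM w / w^s ≤ lo w s + ε/4`
(`exists_lt_of_ciInf_lt`).  SUB (both orders of `⌊w^s⌋₊` and `U`, `CW.CWaux.dens_close`; `w^s/⌊w^s⌋₊ → 1` and the
densities are bounded) changes `⌊w^s⌋₊` to `U`: error `ε/4`; TRANS (`CW.two_lev`, `w^2/2 ≤ U`) changes the level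
from `w` to `v` at the position `t`: `sv 0 v t U (MM v / U) ≤ lo w s + 3ε/4`; the same value at the position `m`; TRANS from `v`
to `v'` at the position `m`. -/
def S_EXH : Prop := ∀ s ε : ℝ, 2 ≤ s → 0 < ε → ∃ η : ℝ, 0 < η ∧ η ≤ 1 / 2 ∧ ∀ᶠ w : ℕ in atTop, ∀ U v : ℕ,
  |(U : ℝ) - (w : ℝ) ^ s| ≤ η * (w : ℝ) ^ s → (w : ℝ) ^ (1 - η) ≤ v → (v : ℝ) ≤ (w : ℝ) ^ (1 + η) →
    ∃ t : ℕ, ∀ m v' : ℕ, sv (fun _ => 0) v m U = sv (fun _ => 0) v t U →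
      (w : ℝ) ^ (1 - η) ≤ v' → (v' : ℝ) ≤ (w : ℝ) ^ (1 + η) →
      (sv (fun _ => 0) v' m U : ℝ) * (MM v' / U) ≤ lo w s + ε

/-- MNG (about 70 lines; uses BF.S_SUB).  Monotonicity in `s` from `s = 2` on.
Proof.  As `Pool/Agent/H50/CW/SIG2.lean` (there `2, 3`) and `Pool/Agent/H50/BF/SIGA.lean` (there `2 < s`): the
case `s = s'` is trivial; for `s < s'` `hi w s ≤ C` eventually, and `SIGA.fin w s s' C δ`. -/
def S_MNG : Prop := ∀ s s' ε : ℝ, 2 ≤ s → s ≤ s' → 0 < ε → ∀ᶠ w : ℕ in atTop, lo w s ≤ lo w s' + ε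

/-! ## The model -/

/-- sieved Cramér model of level `(log n)^(α + o(1))` -/
structure SMod {Ω : Type} [MeasurableSpace Ω] (P : Measure Ω) (A : ℕ → Set Ω) (z : ℕ → ℕ) (α : ℝ) : Prop where
  prob : IsProbabilityMeasure P
  meas : ∀ n, MeasurableSet (A n)
  indep : iIndepSet A P
  empty : ∀ n, ¬ Rou (z n) n → A n = ∅
  mono : Monotone z
  lev : Tendsto (fun n : ℕ => Real.log (z n) / Real.log (Real.log n)) atTop (𝓝 α)
  dens : Tendsto (fun n : ℕ => (P (A n)).toReal * (Real.log n / MM (z n)))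
    (atTop ⊓ 𝓟 {n : ℕ | Rou (z n) n}) (𝓝 1)

/-- the event that no integer in `(m, m + U]` is chosen -/
def EE {Ω : Type} (A : ℕ → Set Ω) (m U : ℕ) : Set Ω := {ω | ∀ j < U, ω ∉ A (m + j + 1)}

/-- EXMG (about 150 lines).  The models exist for `0 < α ≤ 1`.  As `Pool/Agent/H50/GW/GXM.lean` (`α = 1`), with
`z n = ⌊(log n)^α⌋₊`, `P (A n) = MM (z n) / log n` if `Rou (z n) n` (and `n ≥ 3`, otherwise `0`); `MM v ≤ v` for `v ≥ 1` (telescoping)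
gives `MM (z n) ≤ max 1 ((log n)^α) ≤ log n` for `n ≥ 3`. -/
def S_EXMG : Prop := ∀ α : ℝ, 0 < α → α ≤ 1 →
  ∃ (Ω : Type) (_ : MeasurableSpace Ω) (P : Measure Ω) (A : ℕ → Set Ω) (z : ℕ → ℕ), SMod P A z α

/-- MMZ (about 100 lines; uses BF.S_MERT).
Proof.  `log log n → ∞`, so `log (z n) ≥ (α/2) log log n → ∞` and `z n → ∞`.  `log (z (3 n)) / log (z n) =
(log (z (3n)) / log log (3n)) (log log (3n) / log log n) / (log (z n) / log log n) → 1` and `MM (z n) / log (z n) → e^γ`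
(MERT composed with `z → ∞`), so `MM (z (3n)) / MM (z n) → 1`.  The last part: for large `n`
`α (1 - η) log log n ≤ log (z n)`, `log (z (3 n)) ≤ α (1 + η/2) log log (3 n) ≤ α (1 + η) log log n`; exponentiate. -/
def S_MMZ : Prop := ∀ (z : ℕ → ℕ) (α : ℝ), 0 < α → Monotone z →
  Tendsto (fun n : ℕ => Real.log (z n) / Real.log (Real.log n)) atTop (𝓝 α) →
  Tendsto z atTop atTop ∧ Tendsto (fun n : ℕ => MM (z (3 * n)) / MM (z n)) atTop (𝓝 1) ∧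
  ∀ η : ℝ, 0 < η → ∀ᶠ n : ℕ in atTop, (Real.log n ^ α) ^ (1 - η) ≤ (z n : ℝ) ∧
    ((z (3 * n) : ℕ) : ℝ) ≤ (Real.log n ^ α) ^ (1 + η)

/-- WNG (about 180 lines; uses MMZ).  The probability that a window is empty.
Proof.  By independence (`iIndepSet.compl`..., or `iIndepSet_iff_meas_biInter` for the complements)
`P (EE A m U) = ∏_{j < U} (1 - P (A (m + j + 1)))` (as real numbers).  Let `i = m + j + 1 ∈ (n, 3n]`, `p_i = P (A i)`.  If
`¬ Rou (z i) i` then `p_i = 0`.  If `Rou (z i) i`, by `dens` (`n` large) `p_i log i / MM (z i)` is in `[1 - ε', 1 + ε']`, and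
`MM (z n) ≤ MM (z i) ≤ MM (z (3n)) ≤ (1 + ε') MM (z n)`, `log n ≤ log i ≤ (1 + ε') log n`, so `p_i log n / MM (z n)` is in
`[1 - 3ε', 1 + 3ε']`; also `p_i ≤ ε'` (`MM (z n) / log n → 0`: `MM (z n) ≤ C log (z n) ≤ 2 C log log n`, or use
`p_i ≤ 2 MM (z n) / log n` and MERT; take BF.S_MERT as a hypothesis if needed).  `Rou (z (3n)) i → Rou (z i) i → Rou (z n) i`, and
`#{j < U : Rou v (m + j + 1)} = sv 0 v m U`.
Upper bound: `∏ (1 - p) ≤ exp (-∑ p_i)`, `∑ p_i ≥ (1 - 3ε') (MM (z n) / log n) sv 0 (z (3n)) m U`.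
Lower bound: `1 - p ≥ exp (-p - p²) ≥ exp (-(1 + ε') p)` for `0 ≤ p ≤ 1/2`, `∑ p_i ≤ (1 + 3ε') (MM (z n) / log n) sv 0 (z n) m U`. -/
def S_WNG : Prop := ∀ (Ω : Type) [MeasurableSpace Ω] (P : Measure Ω) (A : ℕ → Set Ω) (z : ℕ → ℕ) (α : ℝ),
  0 < α → α ≤ 1 → SMod P A z α → ∀ ε : ℝ, 0 < ε → ∀ᶠ n : ℕ in atTop, ∀ m U : ℕ, n ≤ m → m + U ≤ 3 * n →
    Real.exp (-((1 + ε) * (MM (z n) / Real.log n * sv (fun _ => 0) (z n) m U))) ≤ (P (EE A m U)).toReal ∧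
    (P (EE A m U)).toReal ≤ Real.exp (-((1 - ε) * (MM (z n) / Real.log n * sv (fun _ => 0) (z (3 * n)) m U)))

/-- BLK (about 80 lines).  Disjoint windows are independent.
Proof.  The `σ`-algebras generated by the `A m`, `m ∈ (pos i, pos i + U]` (`i < M`) are independent; compare
`Pool/Agent/H50/GW/WND.lean` (there `B i = {l | l ≠ 0}`, one form).  `P (EEᶜ) = 1 - P (EE)`. -/
def S_BLK : Prop := ∀ (Ω : Type) [MeasurableSpace Ω] (P : Measure Ω) (A : ℕ → Set Ω), IsProbabilityMeasure P →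
  (∀ n, MeasurableSet (A n)) → iIndepSet A P → ∀ (M U : ℕ) (pos : ℕ → ℕ), (∀ i j, i < j → pos i + U ≤ pos j) →
    (P {ω | ∀ i < M, ω ∉ EE A (pos i) U}).toReal = ∏ i ∈ Finset.range M, (1 - (P (EE A (pos i) U)).toReal)

/-- UPG (about 120 lines; uses EXG, WNG, MMZ).  If `c σ > 1` all windows `(n, n + c log² n]` with `n` large contain a
chosen integer.
Proof.  `U = ⌊c log² n⌋₊`, `s = 2/α`, `T = (log n)^α`, so `T^s = log² n` and `T^s / C ≤ U ≤ C T^s` with `C = 2 c + 2/c + 1`.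
Choose `ε` with `(1 - ε)³ c (σ - ε) ≥ 1 + 2 ε`.  WNG with `m = n` (`U ≤ n`) and EXG with `v = z (3n)` (MMZ: it is between `T^(1-η)` and
`T^(1+η)`, `z` monotone): `sv 0 (z (3n)) n U ≥ (σ - ε) U / MM (z (3n))`, so the exponent in WNG is at least
`(1 - ε) (σ - ε) (MM (z n) / MM (z (3n))) U / log n ≥ (1 - ε)² (σ - ε) (c log n - 1 / log n) ≥ (1 + ε) log n` for large `n`.  So
`P (EE A n U) ≤ n^(-1-ε)` for large `n`, summable; Borel-Cantelli (`MeasureTheory.ae_eventually_notMem`). -/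
def S_UPG : Prop := ∀ (Ω : Type) [MeasurableSpace Ω] (P : Measure Ω) (A : ℕ → Set Ω) (z : ℕ → ℕ) (α : ℝ),
  0 < α → α ≤ 1 → SMod P A z α → ∀ c σ : ℝ, 0 < c → 0 ≤ σ → (∀ᶠ w : ℕ in atTop, σ ≤ lo w (2 / α)) → 1 < c * σ →
  ∀ᵐ ω ∂P, ∀ᶠ n : ℕ in atTop, ω ∉ EE A n ⌊c * Real.log n ^ 2⌋₊

/-- LOP (about 250 lines; uses EXH, GW.S_POSK, WNG, BLK, MMZ, BF.S_MERT).  If `c σ < 1` the probability that no window
`(n, n + c log² n]` with `X ≤ n ≤ 2 X` is empty is small for suitable large `X`.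
Proof.  `s = 2/α ≥ 2`.  Choose `ε ∈ (0, 1/10)`, `c' > c` with `(1 + ε) (σ + 2 ε) c' ≤ 1 - 4 ε`; `η` from EXH for `s, ε`.  Let `w` be
large with `lo w s ≤ σ + ε/2`... (`≤ σ`), `L = √(w^s / c')`, `X = ⌈exp L⌉₊`, `U = ⌊w^s⌋₊`, `v = ⌊w^(1 - η/2)⌋₊`.
(1) For `X ≤ n ≤ 2 X`: `c log² n ≤ c (L + 1)² ≤ c' L² - 1 ≤ U`, so `EE A n U ⊆ EE A n ⌊c log² n⌋₊`.
(2) `4^(v+1) ≤ X^ε` (as `v ≤ w^(1-η/2)` and `log X ≥ L ≥ w / √c'` since `s ≥ 2`), `primorial v ≤ 4^v`.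
(3) `z X` is in `[w^(1-η), w^(1+η)]` by MMZ (`log X / L → 1`, `L^α = w c'^(-α/2)`, so `(log X)^α / w` is between positive constants).
(4) EXH for `w, U, v` gives `t`; POSK (`k = 1`, `c = 1`, `d = 0`: then `GW.sy c d v n U = sv 0 v n U`, see `sy_sv` in
`Pool/Agent/Results/MP_45ff98_nt/GranvilleWindows.lean`) with `M = ⌊X^(1-2ε)⌋₊` gives the positions `pos i`, `i < M`, with
`sv 0 v (pos i) U = sv 0 v t U`, so by EXH `sv 0 (z X) (pos i) U ≤ (σ + ε) U / MM (z X)`.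
(5) WNG with `n = X`, `m = pos i` (`m + U ≤ 2 X`): `P (EE A (pos i) U) ≥ exp (-(1 + ε) (σ + ε) U / log X) ≥ exp (-(1+ε)(σ+ε) c' L² / log X)
≥ X^(-(1 - 4ε))` since `L ≤ log X`.
(6) BLK: the probability that no `EE A (pos i) U`, `i < M`, occurs is `∏ (1 - P) ≤ exp (-M X^(-(1-4ε))) ≤ exp (-X^(2ε) / 2) → 0`. -/
def S_LOP : Prop := ∀ (Ω : Type) [MeasurableSpace Ω] (P : Measure Ω) (A : ℕ → Set Ω) (z : ℕ → ℕ) (α : ℝ),
  0 < α → α ≤ 1 → SMod P A z α → ∀ c σ : ℝ, 0 < c → 0 ≤ σ → (∃ᶠ w : ℕ in atTop, lo w (2 / α) ≤ σ) → c * σ < 1 →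
  ∀ (N : ℕ) (κ : ℝ), 0 < κ → ∃ X : ℕ, N ≤ X ∧
    (P {ω | ∀ n : ℕ, X ≤ n → n ≤ 2 * X → ω ∉ EE A n ⌊c * Real.log n ^ 2⌋₊}).toReal ≤ κ

/-- INFG (about 100 lines; uses WNG, MMZ, BF.S_FUND, BF.S_MERT).  Infinitely many integers are chosen.
Proof.  WNG with `m = U = n`: `P (EE A n n) ≤ exp (-(1/2) (MM (z n) / log n) sv 0 (z (3n)) n n)`; FUND (`ε = 1/2`):
`sv 0 (z (3n)) n n ≥ n / (2 MM (z (3n)))` since `(z (3n) + 1)^s0 ≤ n` for large `n` (MMZ with `η = 1`: `z (3n) ≤ (log n)^(2α)`), so the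
exponent is at least `n / (8 log n) → ∞`.  So `P (EE A n n) → 0`, and the event that all chosen integers are `≤ N` is
contained in `EE A n n` for all `n ≥ N`, hence null for every `N`. -/
def S_INFG : Prop := ∀ (Ω : Type) [MeasurableSpace Ω] (P : Measure Ω) (A : ℕ → Set Ω) (z : ℕ → ℕ) (α : ℝ),
  0 < α → α ≤ 1 → SMod P A z α → ∀ᵐ ω ∂P, {n : ℕ | ω ∈ A n}.Infinite

/-! ## From windows to gaps (deterministic) -/

/-- the normalised gap after the element number `j` of `S` -/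
noncomputable def gp (S : Set ℕ) (j : ℕ) : ℝ≥0∞ :=
  ENNReal.ofReal (((Nat.nth (· ∈ S) (j + 1) : ℝ) - Nat.nth (· ∈ S) j) / Real.log (Nat.nth (· ∈ S) j) ^ 2)

/-- GAPG (about 120 lines).
Proof.  Let `s_j = Nat.nth (· ∈ S) j` (strictly increasing, `→ ∞`, `S` infinite).  First part: for large `j` the window after
`n = s_j` contains an element, so `s_(j+1) ≤ s_j + ⌊c log² s_j⌋₊` and `gp S j ≤ ofReal c`.  Second part: let `n` be large with an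
empty window; `j` = the number of the last element `≤ n` (`j = Nat.count (· ∈ S) (n + 1) - 1`), then `s_j ≤ n`,
`s_(j+1) ≥ n + ⌊c log² n⌋₊ + 1`, so `s_(j+1) - s_j ≥ c log² n ≥ c log² s_j`, and `j → ∞` as `n → ∞`. -/
def S_GAPG : Prop := ∀ S : Set ℕ, S.Infinite → ∀ c : ℝ, 0 < c →
  ((∀ᶠ n : ℕ in atTop, ∃ j < ⌊c * Real.log n ^ 2⌋₊, n + j + 1 ∈ S) →
    limsup (fun j => gp S j) atTop ≤ ENNReal.ofReal c) ∧
  ((∃ᶠ n : ℕ in atTop, ∀ j < ⌊c * Real.log n ^ 2⌋₊, n + j + 1 ∉ S) →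
    ENNReal.ofReal c ≤ limsup (fun j => gp S j) atTop)

end Pool.Agent.H50.LG
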