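import Pool.Agent.H50.LG.Stm
import Pool.Agent.H50.GW.GUP

/-! LG-UPG (helper69): if `c σ > 1` all windows contain a chosen integer. -/

set_option autoImplicit false

open MeasureTheory Filter ProbabilityTheory
open scoped Topology ENNReal

namespace Pool.Agent.H50.LG

open Pool.Agent.H50.BF Pool.Agent.H50.GW

namespace UPGx

lemma MM_pos (v : ℕ) : 0 < MM v := by
  refine Finset.prod_pos (fun p hp => ?_)
  rw [Finset.mem_filter] at hp
  have h1 : (1 : ℝ) < p := by exact_mod_cast hp.2.one_lt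
  have h2 : (p : ℝ)⁻¹ < 1 := inv_lt_one_of_one_lt₀ h1
  exact inv_pos.2 (by linarith)

lemma choose_eps {c σ : ℝ} (h : 1 < c * σ) :
    ∃ ε : ℝ, 0 < ε ∧ ε < 1 ∧ 1 + 2 * ε ≤ (1 - ε) ^ 3 * (c * (σ - ε)) := by
  have h1 : Tendsto (fun ε : ℝ => (1 - ε) ^ 3 * (c * (σ - ε)) - (1 + 2 * ε)) (𝓝[>] 0)
      (𝓝 ((1 - 0) ^ 3 * (c * (σ - 0)) - (1 + 2 * 0))) := by
    have : Continuous (fun ε : ℝ => (1 - ε) ^ 3 * (c * (σ - ε)) - (1 + 2 * ε)) := by fun_prop
    exact (this.tendsto 0).mono_left nhdsWithin_le_nhds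
  have h2 : (0 : ℝ) < (1 - 0) ^ 3 * (c * (σ - 0)) - (1 + 2 * 0) := by
    norm_num; linarith
  have h3 := h1.eventually (lt_mem_nhds h2)
  have h4 : ∀ᶠ ε : ℝ in 𝓝[>] 0, ε ∈ Set.Ioo (0 : ℝ) 1 :=
    Ioo_mem_nhdsGT one_pos
  obtain ⟨ε, h5, h6⟩ := (h3.and h4).exists
  exact ⟨ε, h6.1, h6.2, by linarith⟩

end UPGx

open UPGx GUPx in
theorem upg : S_EXG → S_WNG → S_MMZ → S_UPG := by
  intro hEXG hWNG hMMZ Ω _ P A z α hα hα1 hM c σ hc hσ hlo hcσ
  have hP := hM.prob
  obtain ⟨ε, hε0, hε1, hε⟩ := choose_eps hcσ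
  have hσε : 0 < σ - ε := by
    by_contra hcon
    have h1 : (1 - ε) ^ 3 * (c * (σ - ε)) ≤ 0 :=
      mul_nonpos_of_nonneg_of_nonpos (by have : 0 < 1 - ε := by linarith
                                         positivity)
        (mul_nonpos_of_nonneg_of_nonpos hc.le (by linarith))
    linarith
  set s : ℝ := 2 / α with hs
  have hs2 : 2 ≤ s := by
    rw [hs, le_div_iff₀ hα]; linarith
  set C : ℝ := 2 * c + 2 / c + 1 with hC
  have hC1 : 1 ≤ C := by
    have : 0 < 2 / c := by positivity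
    rw [hC]; linarith
  obtain ⟨η, hη0, hη1, hE⟩ := hEXG s C ε σ hs2 hC1 hε0 hlo
  obtain ⟨-, hz2, hz3⟩ := hMMZ z α hα hM.mono hM.lev
  have hT : Tendsto (fun n : ℕ => Real.log n ^ α) atTop atTop :=
    (tendsto_rpow_atTop hα).comp log_tend
  have hE' := hT.eventually hE
  have hW := hWNG Ω P A z α hα hα1 hM ε hε0
  have hr : ∀ᶠ n : ℕ in atTop, MM (z (3 * n)) / MM (z n) < 1 / (1 - ε) := by
    apply hz2.eventually (gt_mem_nhds _)
    rw [lt_div_iff₀ (by linarith)]; linarith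
  have hlo' : ∀ᶠ n : ℕ in atTop, Real.log n ^ 2 ≤ n / c := by
    have h3 := (Real.isLittleO_pow_log_id_atTop (n := 2)).bound (show (0 : ℝ) < 1 / c by positivity)
    have h4 := tendsto_natCast_atTop_atTop (R := ℝ) |>.eventually h3
    filter_upwards [h4, log_tend.eventually_ge_atTop 1] with n hn hn1
    simp only [id] at hn
    rw [Real.norm_of_nonneg (by positivity), Real.norm_of_nonneg (Nat.cast_nonneg n)] at hn
    calc _ ≤ _ := hn
      _ = _ := by ring
  have hbig : ∀ᶠ n : ℕ in atTop, 2 / (c * ε) ≤ Real.log n := log_tend.eventually_ge_atTop _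
  have hbig2 : ∀ᶠ n : ℕ in atTop, 2 / c ≤ Real.log n := log_tend.eventually_ge_atTop _
  apply bc (δ := 2 * ε) (by positivity)
  filter_upwards [hE', hW, hr, hz3 η hη0, hlo', log_tend.eventually_ge_atTop 1, hbig, hbig2]
    with n a1 a2 a3 a4 a5 a6 a7 a8
  set L := Real.log (n : ℝ) with hL
  set U := ⌊c * L ^ 2⌋₊ with hU
  have hL0 : 0 < L := by linarith
  have hUle : (U : ℝ) ≤ c * L ^ 2 := Nat.floor_le (by positivity)
  have hUge : c * L ^ 2 - 1 < U := by
    have := Nat.lt_floor_add_one (c * L ^ 2); linarith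
  have hLL : L ≤ L ^ 2 := by nlinarith
  have hcL : 2 ≤ c * L ^ 2 := by
    rw [div_le_iff₀ hc] at a8
    nlinarith
  have hcLe : 2 ≤ c * ε * L ^ 2 := by
    rw [div_le_iff₀ (by positivity)] at a7
    have : 0 < c * ε := by positivity
    nlinarith
  have hTs : (L ^ α) ^ s = L ^ 2 := by
    rw [← Real.rpow_mul hL0.le, hs, mul_div_cancel₀ _ hα.ne']
    norm_num
  have hUn : U ≤ n := by
    have h1 : (U : ℝ) ≤ n := by
      refine hUle.trans ?_
      rw [le_div_iff₀ hc] at a5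
      linarith
    exact_mod_cast h1
  have b1 := a1 n U (z (3 * n)) (by
      rw [hTs, div_le_iff₀ (by linarith)]
      have h1 : c * L ^ 2 / 2 ≤ U := by linarith
      have h2 : 2 / c ≤ C := by rw [hC]; linarith
      calc L ^ 2 = c * L ^ 2 / 2 * (2 / c) := by field_simp
        _ ≤ U * C := by gcongr)
    (by
      rw [hTs]
      refine hUle.trans ?_
      have h1 : c ≤ C := by
        have : 0 < 2 / c := by positivity
        rw [hC]; linarith
      gcongr)
    (a4.1.trans (by exact_mod_cast hM.mono (by omega))) a4.2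
  have b2 := (a2 n U le_rfl (by omega)).2
  have hU0 : (0 : ℝ) < U := by linarith
  have hM1 := MM_pos (z n)
  have hM3 := MM_pos (z (3 * n))
  rw [ENNReal.le_ofReal_iff_toReal_le (measure_ne_top P _) (Real.exp_nonneg _)]
  refine b2.trans (Real.exp_le_exp.2 (neg_le_neg ?_))
  set S : ℝ := (sv (fun _ => 0) (z (3 * n)) n U : ℝ) with hS
  have e1 : (σ - ε) * U ≤ S * MM (z (3 * n)) := by
    have h1 : (σ - ε) ≤ S * MM (z (3 * n)) / U := by
      calc _ ≤ _ := b1
        _ = _ := by ring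
    rwa [le_div_iff₀ hU0] at h1
  have e2 : (1 - ε) * MM (z (3 * n)) ≤ MM (z n) := by
    rw [div_lt_div_iff₀ hM1 (by linarith)] at a3
    linarith
  have e3 : (1 - ε) * (c * L ^ 2) ≤ U := by nlinarith
  have h1ε : 0 < 1 - ε := by linarith
  have hS0 : 0 ≤ S := Nat.cast_nonneg _
  -- combine
  have e4 : (1 - ε) * (S * MM (z (3 * n))) ≤ MM (z n) * S := by
    calc (1 - ε) * (S * MM (z (3 * n))) = ((1 - ε) * MM (z (3 * n))) * S := by ring
      _ ≤ MM (z n) * S := mul_le_mul_of_nonneg_right e2 hS0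
  have e5 : (1 - ε) * ((σ - ε) * ((1 - ε) * (c * L ^ 2))) ≤ MM (z n) * S := by
    refine le_trans ?_ e4
    refine mul_le_mul_of_nonneg_left (le_trans ?_ e1) h1ε.le
    exact mul_le_mul_of_nonneg_left e3 hσε.le
  have e6 : (1 + 2 * ε) * L ^ 2 ≤ (1 - ε) * (MM (z n) * S) := by
    calc (1 + 2 * ε) * L ^ 2 ≤ ((1 - ε) ^ 3 * (c * (σ - ε))) * L ^ 2 :=
          mul_le_mul_of_nonneg_right hε (by positivity)
      _ = (1 - ε) * ((1 - ε) * ((σ - ε) * ((1 - ε) * (c * L ^ 2)))) := by ring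
      _ ≤ _ := mul_le_mul_of_nonneg_left e5 h1ε.le
  calc (1 + 2 * ε) * L = (1 + 2 * ε) * L ^ 2 / L := by field_simp
    _ ≤ (1 - ε) * (MM (z n) * S) / L := by gcongr
    _ = (1 - ε) * (MM (z n) / L * S) := by ring

end Pool.Agent.H50.LG
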