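import Pool.Agent.H50.LG.Stm2
import Pool.Agent.H50.LG.LOP
import Pool.Agent.H50.LG.UPG

/-! LG-UPQ (helper63): for suitable arbitrarily large `X` all windows of length `c log² X` which begin below `X`
contain a chosen integer. -/

set_option autoImplicit false

open MeasureTheory Filter ProbabilityTheory
open scoped Topology ENNReal

namespace Pool.Agent.H50.LG

open Pool.Agent.H50.BF Pool.Agent.H50.GW

namespace UPQx

lemma EE_sub {Ω : Type} [MeasurableSpace Ω] (A : ℕ → Set Ω) {n n₁ U : ℕ} (h1 : n ≤ n₁)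
    (h2 : 2 * n₁ ≤ U) : EE A n U ⊆ EE A n₁ n₁ := by
  intro ω hω j hj
  have h3 := hω (n₁ - n + j) (by omega)
  rwa [show n + (n₁ - n + j) + 1 = n₁ + j + 1 by omega] at h3

lemma sv_anti {v v' n U : ℕ} (h : v ≤ v') : sv (fun _ => 0) v' n U ≤ sv (fun _ => 0) v n U := by
  classical
  unfold sv
  refine Finset.card_le_card fun k hk => ?_
  rw [Finset.mem_filter] at hk ⊢
  exact ⟨hk.1, fun p hp hpv => hk.2 p hp (hpv.trans h)⟩

lemma one_le_MM (v : ℕ) : 1 ≤ MM v := by
  unfold MM
  calc (1 : ℝ) = ∏ p ∈ (Finset.Icc 1 v).filter Nat.Prime, (1 : ℝ) := by simp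
    _ ≤ _ := by
      refine Finset.prod_le_prod (fun _ _ => zero_le_one) (fun p hp => ?_)
      rw [Finset.mem_filter] at hp
      have h1 : (1 : ℝ) < p := by exact_mod_cast hp.2.one_lt
      have h2 : (p : ℝ)⁻¹ < 1 := inv_lt_one_of_one_lt₀ h1
      have h3 : (0 : ℝ) < (p : ℝ)⁻¹ := by positivity
      rw [one_le_inv₀ (by linarith)]
      linarith

lemma MM_small (hM : S_MERT) {δ : ℝ} (hδ : 0 < δ) (K : ℝ) :
    ∀ᶠ w : ℕ in atTop, K * MM w ≤ (w : ℝ) ^ δ := by
  have h1 : Tendsto (fun w : ℕ => Real.log w / (w : ℝ) ^ δ) atTop (𝓝 0) :=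
    ((isLittleO_log_rpow_atTop hδ).tendsto_div_nhds_zero).comp tendsto_natCast_atTop_atTop
  have h2 := (Tendsto.mul hM h1).const_mul K
  rw [mul_zero, mul_zero] at h2
  filter_upwards [h2.eventually_le_const one_pos, eventually_ge_atTop 2] with w hw h
  have h3 : (1 : ℝ) < w := by exact_mod_cast h
  have h4 : 0 < Real.log w := Real.log_pos h3
  have h5 : 0 < (w : ℝ) ^ δ := by positivity
  have h6 : K * (MM w / Real.log w * (Real.log w / (w : ℝ) ^ δ)) = K * MM w / (w : ℝ) ^ δ := by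
    field_simp
  rw [h6, div_le_one h5] at hw
  exact hw

end UPQx

open LOPaux UPGx UPQx in
theorem upq : S_EXL → S_NUL → S_WNG → S_MMZ → S_MERT → S_UPQ := by
  intro hEXL hNUL hWNG hMMZ hMERT Ω _ P A z α hα hα1 hM c σ hc hσ hfr hcσ N κ hκ
  have hP := hM.prob
  obtain ⟨ε, hε0, hε1, hε⟩ := choose_eps hcσ
  have h1ε : 0 < 1 - ε := by linarith
  have hσε : 0 < σ - ε := by
    by_contra hcon
    have h1 : (1 - ε) ^ 3 * (c * (σ - ε)) ≤ 0 :=
      mul_nonpos_of_nonneg_of_nonpos (by positivity)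
        (mul_nonpos_of_nonneg_of_nonpos hc.le (by linarith))
    linarith
  have hs : 2 ≤ 2 / α := by rw [le_div_iff₀ hα]; linarith
  obtain ⟨s, hsd⟩ : ∃ s : ℝ, s = 2 / α := ⟨_, rfl⟩
  rw [← hsd] at hfr hs
  have hsα : s / 2 * α = 1 := by rw [hsd]; field_simp
  obtain ⟨η, hη, hη1, hE⟩ := hEXL s ε hs hε0
  obtain ⟨hz1, hz2, hz3⟩ := hMMZ z α hα hM.mono hM.lev
  have hW := hWNG Ω P A z α hα hα1 hM ε hε0
  have hr : ∀ᶠ n : ℕ in atTop, MM (z (3 * n)) / MM (z n) < 1 / (1 - ε) := by
    apply hz2.eventually (gt_mem_nhds _)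
    rw [lt_div_iff₀ (by linarith)]; linarith
  obtain ⟨n₀, hn₀⟩ := eventually_atTop.1 ((hW.and hr).and
    ((hz3 (η / 2) (by positivity)).and (GEXaux.tlog.eventually_ge_atTop 1)))
  -- the scale
  have hLt := LL_tendsto (s := s) hc hs
  have hXt := XL_tendsto hLt
  have hrat := LL_ratio (s := s) hc hs
  have hsq : 0 < Real.sqrt c := Real.sqrt_pos.2 hc
  -- (a)
  have hUw : Tendsto (fun w : ℕ => (UU c (XL (LL c s w)) : ℝ) / (w : ℝ) ^ s) atTop (𝓝 1) := by
    have h1 := ((UU_tendsto hc).comp hXt).mul (hrat.pow 2)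
    have h2 : c * (Real.sqrt c)⁻¹ ^ 2 = 1 := by
      rw [inv_pow, Real.sq_sqrt hc.le, mul_inv_cancel₀ hc.ne']
    rw [h2] at h1
    refine h1.congr' ?_
    filter_upwards [eventually_ge_atTop 1, hLt.eventually_gt_atTop 0] with w hw hL
    have hw0 : (0 : ℝ) < w := by exact_mod_cast hw
    have hlog : 0 < Real.log (XL (LL c s w)) := hL.trans_le (XL_log hL.le).1
    simp only [Function.comp]
    rw [div_pow, rpow_half hw0.le]
    have : 0 < (w : ℝ) ^ s := by positivity
    rw [one_add_one_eq_two]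
    field_simp
  have ha : ∀ᶠ w : ℕ in atTop, |(UU c (XL (LL c s w)) : ℝ) - (w : ℝ) ^ s| ≤ η * (w : ℝ) ^ s := by
    filter_upwards [hUw.eventually_const_le (show 1 - η < 1 by linarith),
      hUw.eventually_le_const (show 1 < 1 + η by linarith), eventually_ge_atTop 1] with w h1 h2 hw
    have hw0 : (0 : ℝ) < w := by exact_mod_cast hw
    have : 0 < (w : ℝ) ^ s := by positivity
    rw [le_div_iff₀ this] at h1
    rw [div_le_iff₀ this] at h2
    rw [abs_le]
    constructor <;> linarith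
  -- (d)
  have hBw : Tendsto (fun w : ℕ => Real.log (XL (LL c s w)) ^ α / (w : ℝ)) atTop
      (𝓝 ((Real.sqrt c)⁻¹ ^ α)) := by
    have h1 := hrat.rpow_const (p := α) (Or.inr hα.le)
    refine h1.congr' ?_
    filter_upwards [eventually_ge_atTop 1, hLt.eventually_gt_atTop 0] with w hw hL
    have hw0 : (0 : ℝ) < w := by exact_mod_cast hw
    have hlog : 0 < Real.log (XL (LL c s w)) := hL.trans_le (XL_log hL.le).1
    rw [Real.div_rpow hlog.le (by positivity), ← Real.rpow_mul hw0.le, hsα, Real.rpow_one]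
  have hd := zrange hη hη1 (show 0 < (Real.sqrt c)⁻¹ ^ α by positivity) hBw
  have hdz := hXt.eventually (hz3 (η / 2) (by positivity))
  -- the size of `X`
  have hlX := hrat.eventually_const_le (show (Real.sqrt c)⁻¹ / 2 < (Real.sqrt c)⁻¹ by
      have : 0 < (Real.sqrt c)⁻¹ := by positivity
      linarith)
  have hMs := MM_small hMERT (show 0 < s * η / 4 by positivity) (2 * Real.sqrt c)
  -- the lower bound of the window length
  have hUlow := hXt.eventually ((UU_tendsto hc).eventually_const_le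
    (show (1 - ε) * c < c by nlinarith))
  -- the first windows
  have hUinf : Tendsto (fun X : ℕ => UU c X / 2) atTop atTop := by
    have h1 : Tendsto (fun n : ℕ => Real.log n ^ 2) atTop atTop :=
      (tendsto_pow_atTop two_ne_zero).comp GEXaux.tlog
    have h2 : Tendsto (fun X : ℕ => UU c X) atTop atTop :=
      tendsto_nat_floor_atTop.comp (h1.const_mul_atTop hc)
    refine tendsto_atTop.2 fun b => ?_
    filter_upwards [h2.eventually_ge_atTop (2 * b)] with X hX
    omega
  have hn1 := hXt.eventually (hUinf.eventually_ge_atTop n₀)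
  have hN1 : ∀ᶠ w : ℕ in atTop,
      (P (EE A (UU c (XL (LL c s w)) / 2) (UU c (XL (LL c s w)) / 2))).toReal ≤ κ / 2 :=
    hXt.eventually (hUinf.eventually
      ((hNUL Ω P A z α hα hα1 hM).eventually_le_const (show 0 < κ / 2 by positivity)))
  have hlb := hXt.eventually ((eventually_ge_atTop N).and ((GEXaux.tlog.eventually_ge_atTop 1).and
    (GEXaux.tlog.eventually_ge_atTop (-Real.log (κ / 2) / (2 * ε)))))
  obtain ⟨w, hw0, hw1, hw2, hw3, hw4, hw5, hw6, hw7, hw8, hw9, hw10, hw11⟩ :=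
    (hfr.and_eventually (hE.and (ha.and (hd.and (hdz.and (hlX.and (hMs.and (hUlow.and (hn1.and
      (hN1.and (hlb.and (eventually_ge_atTop 1)))))))))))).exists
  obtain ⟨X, hXd⟩ : ∃ X : ℕ, X = XL (LL c s w) := ⟨_, rfl⟩
  rw [← hXd] at hw2 hw3 hw4 hw5 hw7 hw8 hw9 hw10
  obtain ⟨hXN, hXl, hXκ⟩ := hw10
  have hL0 : 0 < Real.log X := by linarith
  obtain ⟨U, hUd⟩ : ∃ U : ℕ, U = UU c X := ⟨_, rfl⟩
  rw [← hUd] at hw2 hw7 hw8 hw9
  have hw1' : (1 : ℝ) ≤ w := by exact_mod_cast hw11
  have hwp : (0 : ℝ) < w := by linarith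
  have hUlow' : (1 - ε) * c * Real.log X ^ 2 ≤ U := by
    have : 0 < Real.log X ^ (1 + 1) := by positivity
    rw [le_div_iff₀ this] at hw7
    exact hw7
  have hU0 : (0 : ℝ) < U := lt_of_lt_of_le (by positivity) hUlow'
  have hX0 : (0 : ℝ) < X := by
    rcases Nat.eq_zero_or_pos X with h | h
    · rw [h] at hL0; simp at hL0
    · exact_mod_cast h
  -- the bound for a single window
  have key : ∀ n ∈ Finset.Ioc (U / 2) X, (P (EE A n U)).toReal ≤
      Real.exp (-((1 + 2 * ε) * Real.log X)) := by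
    intro n hn
    rw [Finset.mem_Ioc] at hn
    obtain ⟨hn1, hn2⟩ := hn
    obtain ⟨⟨a2, a3⟩, a4, a6⟩ := hn₀ n (by omega)
    have b2 := (a2 n U le_rfl (by omega)).2
    refine b2.trans (Real.exp_le_exp.2 (neg_le_neg ?_))
    have hl0 : 0 < Real.log n := by linarith
    have hn0 : (0 : ℝ) < n := by
      rcases Nat.eq_zero_or_pos n with h | h
      · rw [h] at hl0; simp at hl0
      · exact_mod_cast h
    have hlX' : Real.log n ≤ Real.log X := Real.log_le_log hn0 (by exact_mod_cast hn2)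
    obtain ⟨S, hSd⟩ : ∃ S : ℝ, S = (sv (fun _ => 0) (z (3 * n)) n U : ℝ) := ⟨_, rfl⟩
    rw [← hSd]
    have hS0 : 0 ≤ S := by rw [hSd]; exact Nat.cast_nonneg _
    have hMn := MM_pos (z n)
    have hM3 := MM_pos (z (3 * n))
    rcases le_or_gt ((w : ℝ) ^ (1 - η)) (z (3 * n) : ℝ) with hcase | hcase
    · -- large `n`
      have c1 : ((z (3 * n) : ℕ) : ℝ) ≤ (w : ℝ) ^ (1 + η) := by
        have h1 : ((z (3 * n) : ℕ) : ℝ) ≤ (z (3 * X) : ℕ) := by
          exact_mod_cast hM.mono (show 3 * n ≤ 3 * X by omega)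
        exact h1.trans (hw4.2.trans hw3.2)
      have b1 := hw1 n U (z (3 * n)) hw2 hcase c1
      have e1 : (σ - ε) * U ≤ S * MM (z (3 * n)) := by
        have h1 : (σ - ε) ≤ S * MM (z (3 * n)) / U := by
          rw [hSd]
          calc σ - ε ≤ lo w s - ε := by linarith
            _ ≤ _ := b1
            _ = _ := by ring
        rwa [le_div_iff₀ hU0] at h1
      have e2 : (1 - ε) * MM (z (3 * n)) ≤ MM (z n) := by
        rw [div_lt_div_iff₀ hMn (by linarith)] at a3
        linarith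
      have e4 : (1 - ε) * (S * MM (z (3 * n))) ≤ MM (z n) * S := by
        calc (1 - ε) * (S * MM (z (3 * n))) = ((1 - ε) * MM (z (3 * n))) * S := by ring
          _ ≤ MM (z n) * S := mul_le_mul_of_nonneg_right e2 hS0
      have e5 : (1 - ε) * ((σ - ε) * ((1 - ε) * c * Real.log X ^ 2)) ≤ MM (z n) * S := by
        refine le_trans ?_ e4
        refine mul_le_mul_of_nonneg_left (le_trans ?_ e1) h1ε.le
        exact mul_le_mul_of_nonneg_left hUlow' hσε.le
      have e6 : (1 + 2 * ε) * Real.log X ^ 2 ≤ (1 - ε) * (MM (z n) * S) := by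
        calc (1 + 2 * ε) * Real.log X ^ 2 ≤ ((1 - ε) ^ 3 * (c * (σ - ε))) * Real.log X ^ 2 :=
              mul_le_mul_of_nonneg_right hε (by positivity)
          _ = (1 - ε) * ((1 - ε) * ((σ - ε) * ((1 - ε) * c * Real.log X ^ 2))) := by ring
          _ ≤ _ := mul_le_mul_of_nonneg_left e5 h1ε.le
      calc (1 + 2 * ε) * Real.log X = (1 + 2 * ε) * Real.log X ^ 2 / Real.log X := by field_simp
        _ ≤ (1 - ε) * (MM (z n) * S) / Real.log X := by gcongr
        _ ≤ (1 - ε) * (MM (z n) * S) / Real.log n := by gcongr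
        _ = (1 - ε) * (MM (z n) / Real.log n * S) := by ring
    · -- small `n`
      have c0 : z (3 * n) ≤ w := by
        have h1 : (w : ℝ) ^ (1 - η) ≤ (w : ℝ) ^ (1 : ℝ) :=
          Real.rpow_le_rpow_of_exponent_le hw1' (by linarith)
        rw [Real.rpow_one] at h1
        exact_mod_cast (hcase.le.trans h1)
      have c1 : (w : ℝ) ^ (1 - η) ≤ (w : ℝ) := by
        calc (w : ℝ) ^ (1 - η) ≤ (w : ℝ) ^ (1 : ℝ) :=
              Real.rpow_le_rpow_of_exponent_le hw1' (by linarith)
          _ = w := Real.rpow_one _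
      have c2 : (w : ℝ) ≤ (w : ℝ) ^ (1 + η) := by
        calc (w : ℝ) = (w : ℝ) ^ (1 : ℝ) := (Real.rpow_one _).symm
          _ ≤ _ := Real.rpow_le_rpow_of_exponent_le hw1' (by linarith)
      have b1 := hw1 n U w hw2 c1 c2
      have hSw : (sv (fun _ => 0) w n U : ℝ) ≤ S := by
        rw [hSd]; exact_mod_cast sv_anti c0
      have hMw := MM_pos w
      have e1 : (σ - ε) * U ≤ S * MM w := by
        have h1 : (σ - ε) ≤ S * MM w / U := by
          calc σ - ε ≤ lo w s - ε := by linarith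
            _ ≤ (sv (fun _ => 0) w n U : ℝ) * (MM w / U) := b1
            _ ≤ S * (MM w / U) := by gcongr
            _ = _ := by ring
        rwa [le_div_iff₀ hU0] at h1
      -- `log n` is small
      have hB : Real.log n ≤ (w : ℝ) ^ (s / 2 * (1 - η / 2)) := by
        by_contra hcon
        push Not at hcon
        have h1 : (((w : ℝ) ^ (s / 2 * (1 - η / 2))) ^ α) ^ (1 - η / 2) ≤
            (Real.log n ^ α) ^ (1 - η / 2) := by
          refine Real.rpow_le_rpow (by positivity) ?_ (by linarith)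
          exact Real.rpow_le_rpow (by positivity) hcon.le hα.le
        have h2 : (((w : ℝ) ^ (s / 2 * (1 - η / 2))) ^ α) ^ (1 - η / 2) =
            (w : ℝ) ^ ((1 - η / 2) * (1 - η / 2)) := by
          rw [← Real.rpow_mul hwp.le, ← Real.rpow_mul hwp.le]
          congr 1
          calc s / 2 * (1 - η / 2) * α * (1 - η / 2) = (s / 2 * α) * ((1 - η / 2) * (1 - η / 2)) := by
                ring
            _ = _ := by rw [hsα, one_mul]
        have h3 : (w : ℝ) ^ (1 - η) ≤ (w : ℝ) ^ ((1 - η / 2) * (1 - η / 2)) :=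
          Real.rpow_le_rpow_of_exponent_le hw1' (by nlinarith [sq_nonneg η])
        have h4 : (z n : ℝ) ≤ (z (3 * n) : ℕ) := by
          exact_mod_cast hM.mono (show n ≤ 3 * n by omega)
        have h5 := a4.1
        rw [h2] at h1
        linarith
      -- `log X` is large
      have hws : 0 < (w : ℝ) ^ (s / 2) := by positivity
      rw [le_div_iff₀ hws] at hw5
      have hBp : 0 < (w : ℝ) ^ (s / 2 * (1 - η / 2)) := by positivity
      have e7 : MM w * (w : ℝ) ^ (s / 2 * (1 - η / 2)) ≤ Real.log X := by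
        have h1 : (w : ℝ) ^ (s / 2) = (w : ℝ) ^ (s / 2 * (1 - η / 2)) * (w : ℝ) ^ (s * η / 4) := by
          rw [← Real.rpow_add hwp]; congr 1; ring
        have h2 : 0 < (Real.sqrt c)⁻¹ / 2 := by positivity
        have h3 : (Real.sqrt c)⁻¹ / 2 * (2 * Real.sqrt c) = 1 := by field_simp
        calc MM w * (w : ℝ) ^ (s / 2 * (1 - η / 2)) =
            (Real.sqrt c)⁻¹ / 2 * (2 * Real.sqrt c) * (MM w * (w : ℝ) ^ (s / 2 * (1 - η / 2))) := by
              rw [h3, one_mul]
          _ = (Real.sqrt c)⁻¹ / 2 * ((w : ℝ) ^ (s / 2 * (1 - η / 2)) * (2 * Real.sqrt c * MM w)) := by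
              ring
          _ ≤ (Real.sqrt c)⁻¹ / 2 * ((w : ℝ) ^ (s / 2 * (1 - η / 2)) * (w : ℝ) ^ (s * η / 4)) := by
              gcongr
          _ = (Real.sqrt c)⁻¹ / 2 * (w : ℝ) ^ (s / 2) := by rw [h1]
          _ ≤ Real.log X := hw5
      have e8 : (1 + 2 * ε) ≤ (1 - ε) ^ 2 * (c * (σ - ε)) := by
        refine hε.trans ?_
        have h1 : (1 - ε) ^ 3 ≤ (1 - ε) ^ 2 :=
          pow_le_pow_of_le_one h1ε.le (by linarith) (by norm_num)
        exact mul_le_mul_of_nonneg_right h1 (by positivity)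
      have e9 : (1 + 2 * ε) * Real.log X ^ 2 ≤ (1 - ε) * (S * MM w) := by
        calc (1 + 2 * ε) * Real.log X ^ 2 ≤ ((1 - ε) ^ 2 * (c * (σ - ε))) * Real.log X ^ 2 := by
              gcongr
          _ = (1 - ε) * ((σ - ε) * ((1 - ε) * c * Real.log X ^ 2)) := by ring
          _ ≤ (1 - ε) * ((σ - ε) * U) := by gcongr
          _ ≤ (1 - ε) * (S * MM w) := by gcongr
      have e10 : MM w * Real.log n ≤ Real.log X :=
        le_trans (mul_le_mul_of_nonneg_left hB hMw.le) e7
      have e11 : (1 + 2 * ε) * Real.log X * Real.log n ≤ (1 - ε) * S := by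
        have h1 : (1 + 2 * ε) * Real.log X * (MM w * Real.log n) ≤
            (1 + 2 * ε) * Real.log X * Real.log X := by gcongr
        have h2 : ((1 + 2 * ε) * Real.log X * Real.log n) * MM w ≤ ((1 - ε) * S) * MM w := by
          calc _ = (1 + 2 * ε) * Real.log X * (MM w * Real.log n) := by ring
            _ ≤ (1 + 2 * ε) * Real.log X * Real.log X := h1
            _ = (1 + 2 * ε) * Real.log X ^ 2 := by ring
            _ ≤ (1 - ε) * (S * MM w) := e9
            _ = _ := by ring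
        exact le_of_mul_le_mul_right h2 hMw
      have e12 : (1 + 2 * ε) * Real.log X ≤ (1 - ε) * S / Real.log n := by
        rw [le_div_iff₀ hl0]; exact e11
      calc (1 + 2 * ε) * Real.log X ≤ (1 - ε) * S / Real.log n := e12
        _ = (1 - ε) * (1 / Real.log n * S) := by ring
        _ ≤ (1 - ε) * (MM (z n) / Real.log n * S) := by
            have := one_le_MM (z n)
            gcongr
  -- the union bound
  refine ⟨X, hXN, ?_⟩
  have hUeq : ⌊c * Real.log X ^ 2⌋₊ = U := by rw [hUd]; rfl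
  rw [hUeq]
  obtain ⟨G, hG⟩ : ∃ G : Set Ω, G = {ω | ∀ n : ℕ, n ≤ X → ω ∉ EE A n U} := ⟨_, rfl⟩
  rw [← hG]
  have hcov : (Set.univ : Set Ω) ⊆ G ∪ (EE A (U / 2) (U / 2) ∪ ⋃ n ∈ Finset.Ioc (U / 2) X, EE A n U) := by
    intro ω _
    by_cases hω : ω ∈ G
    · exact Or.inl hω
    · right
      rw [hG, Set.mem_ofPred_eq] at hω
      push Not at hω
      obtain ⟨n, hn1, hn2⟩ := hω
      rcases le_or_gt n (U / 2) with h | h
      · left
        exact EE_sub A h (by omega) hn2
      · right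
        simp only [Set.mem_iUnion]
        exact ⟨n, Finset.mem_Ioc.2 ⟨h, hn1⟩, hn2⟩
  have hsum : ∑ n ∈ Finset.Ioc (U / 2) X, P.real (EE A n U) ≤ κ / 2 := by
    calc ∑ n ∈ Finset.Ioc (U / 2) X, P.real (EE A n U) ≤
        ∑ n ∈ Finset.Ioc (U / 2) X, Real.exp (-((1 + 2 * ε) * Real.log X)) :=
          Finset.sum_le_sum key
      _ = ((X - U / 2 : ℕ) : ℝ) * Real.exp (-((1 + 2 * ε) * Real.log X)) := by
          rw [Finset.sum_const, Nat.card_Ioc, nsmul_eq_mul]
      _ ≤ (X : ℝ) * Real.exp (-((1 + 2 * ε) * Real.log X)) := by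
          gcongr
          omega
      _ = Real.exp (-(2 * ε * Real.log X)) := by
          nth_rewrite 1 [← Real.exp_log hX0]
          rw [← Real.exp_add]
          congr 1
          ring
      _ ≤ Real.exp (Real.log (κ / 2)) := by
          rw [Real.exp_le_exp]
          rw [div_le_iff₀ (by positivity)] at hXκ
          linarith
      _ = κ / 2 := Real.exp_log (by positivity)
  have h1 : (1 : ℝ) ≤ P.real G + (P.real (EE A (U / 2) (U / 2)) +
      ∑ n ∈ Finset.Ioc (U / 2) X, P.real (EE A n U)) := by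
    calc (1 : ℝ) = P.real Set.univ := by simp
      _ ≤ P.real (G ∪ (EE A (U / 2) (U / 2) ∪ ⋃ n ∈ Finset.Ioc (U / 2) X, EE A n U)) :=
          measureReal_mono hcov
      _ ≤ P.real G + P.real (EE A (U / 2) (U / 2) ∪ ⋃ n ∈ Finset.Ioc (U / 2) X, EE A n U) :=
          measureReal_union_le _ _
      _ ≤ P.real G + (P.real (EE A (U / 2) (U / 2)) +
          P.real (⋃ n ∈ Finset.Ioc (U / 2) X, EE A n U)) := by
          gcongr
          exact measureReal_union_le _ _
      _ ≤ _ := by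
          gcongr
          exact measureReal_biUnion_finset_le _ _
  have h2 : P.real (EE A (U / 2) (U / 2)) ≤ κ / 2 := hw9
  show 1 - κ ≤ P.real G
  linarith

end Pool.Agent.H50.LG
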