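import Pool.Agent.H50.LG.Stm
import Pool.Agent.H50.GW.EXPW

set_option autoImplicit false

open MeasureTheory Filter ProbabilityTheory
open scoped Topology ENNReal

namespace Pool.Agent.H50.LG

open Pool.Agent.H50.BF Pool.Agent.H50.GW

namespace WNGaux

open EXPWaux

open Classical in
lemma sv_rou (v m U : ℕ) : sv (fun _ => 0) v m U = ((Finset.Ioc m (m + U)).filter (fun i => Rou v i)).card := by
  classical
  unfold sv
  refine Finset.card_bij (fun k _ => m + k + 1) ?_ ?_ ?_
  · intro k hk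
    rw [Finset.mem_filter, Finset.mem_range] at hk
    rw [Finset.mem_filter, Finset.mem_Ioc]
    refine ⟨by omega, fun p hp hpv hd => hk.2 p hp hpv ?_⟩
    rw [Nat.zero_mod]
    exact Nat.mod_eq_zero_of_dvd hd
  · intro a _ b _ h
    omega
  · intro i hi
    rw [Finset.mem_filter, Finset.mem_Ioc] at hi
    refine ⟨i - m - 1, ?_, by omega⟩
    rw [Finset.mem_filter, Finset.mem_range]
    refine ⟨by omega, fun p hp hpv hd => hi.2 p hp hpv ?_⟩
    rw [Nat.zero_mod, show m + (i - m - 1) + 1 = i by omega] at hd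
    exact Nat.dvd_of_mod_eq_zero hd

lemma prob_EE {Ω : Type} [MeasurableSpace Ω] {P : Measure Ω} {A : ℕ → Set Ω} {z : ℕ → ℕ} {α : ℝ}
    (hM : SMod P A z α) (m U : ℕ) :
    (P (EE A m U)).toReal = ∏ i ∈ Finset.Ioc m (m + U), (1 - (P (A i)).toReal) := by
  have := hM.prob
  have h1 : EE A m U = ⋂ i ∈ Finset.Ioc m (m + U), (A i)ᶜ := by
    ext ω
    unfold EE
    simp only [Set.mem_ofPred_eq, Set.mem_iInter, Set.mem_compl_iff, Finset.mem_Ioc]
    constructor
    · intro h i hi
      have := h (i - m - 1) (by omega)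
      rwa [show m + (i - m - 1) + 1 = i by omega] at this
    · intro h j hj
      exact h (m + j + 1) (by omega)
  have h2 : P (⋂ i ∈ Finset.Ioc m (m + U), (A i)ᶜ) = ∏ i ∈ Finset.Ioc m (m + U), P (A i)ᶜ := by
    refine iIndep.meas_biInter hM.indep fun i _ => ?_
    exact (MeasurableSpace.measurableSet_generateFrom (Set.mem_singleton _)).compl
  rw [h1, h2, ENNReal.toReal_prod]
  refine Finset.prod_congr rfl fun i _ => ?_
  rw [prob_compl_eq_one_sub (hM.meas i), ENNReal.toReal_sub_of_le prob_le_one ENNReal.one_ne_top,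
    ENNReal.toReal_one]

/-- the density bounds, uniformly -/
lemma prob_range {Ω : Type} [MeasurableSpace Ω] {P : Measure Ω} {A : ℕ → Set Ω} {z : ℕ → ℕ} {α : ℝ}
    (hM : SMod P A z α) (h2 : Tendsto (fun n : ℕ => MM (z (3 * n)) / MM (z n)) atTop (𝓝 1))
    {δ : ℝ} (hδ : 0 < δ) :
    ∀ᶠ n : ℕ in atTop, ∀ N : ℕ, n ≤ N → N ≤ 3 * n → Rou (z N) N →
      1 - δ ≤ (P (A N)).toReal * (Real.log n / MM (z n)) ∧
        (P (A N)).toReal * (Real.log n / MM (z n)) ≤ 1 + δ := by
  obtain ⟨e, he⟩ : ∃ e : ℝ, e = min 1 (δ / 3) := ⟨_, rfl⟩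
  have he0 : 0 < e := by rw [he]; positivity
  have he1 : e ≤ 1 := by rw [he]; exact min_le_left _ _
  have he2 : 3 * e ≤ δ := by
    have : e ≤ δ / 3 := by rw [he]; exact min_le_right _ _
    linarith
  have h0 : ∀ᶠ N : ℕ in atTop, Rou (z N) N →
      1 - e ≤ (P (A N)).toReal * (Real.log N / MM (z N)) ∧
      (P (A N)).toReal * (Real.log N / MM (z N)) ≤ 1 + e := by
    have h1 := hM.dens.eventually (Icc_mem_nhds (show 1 - e < 1 by linarith) (show 1 < 1 + e by linarith))
    rw [eventually_inf_principal] at h1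
    filter_upwards [h1] with N hN hR
    exact hN hR
  have h1 := eventually_forall_ge_atTop.2 h0
  have h3 := log_B (B := 3) (by norm_num)
  filter_upwards [h1, h2.eventually_le_const (show 1 < 1 + e by linarith),
    h3.eventually_le_const (show 1 < 1 + e by linarith), tlog.eventually_ge_atTop 1,
    eventually_ge_atTop 1] with n g1 g2 g3 hL hn1 N hN1 hN2 hR
  obtain ⟨x1, x2⟩ := g1 N hN1 hR
  have hn0 : (0 : ℝ) < n := by exact_mod_cast hn1
  have hN0 : (0 : ℝ) < N := by exact_mod_cast (by omega : 0 < N)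
  have l1 : Real.log n ≤ Real.log N := Real.log_le_log hn0 (by exact_mod_cast hN1)
  have l2 : Real.log N ≤ Real.log ((3 * n : ℕ) : ℝ) := Real.log_le_log hN0 (by exact_mod_cast hN2)
  have hL0 : 0 < Real.log n := by linarith
  rw [div_le_iff₀ hL0] at g3
  have m0 := MM_pos (z n)
  have m0' := MM_pos (z N)
  rw [div_le_iff₀ m0] at g2
  have m1 : MM (z n) ≤ MM (z N) := MM_mono (hM.mono hN1)
  have m2 : MM (z N) ≤ MM (z (3 * n)) := MM_mono (hM.mono hN2)
  obtain ⟨y, hy⟩ : ∃ y, y = Real.log n / Real.log N := ⟨_, rfl⟩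
  obtain ⟨w, hw⟩ : ∃ w, w = MM (z N) / MM (z n) := ⟨_, rfl⟩
  have hlN : 0 < Real.log N := by linarith
  have y1 : y ≤ 1 := by rw [hy, div_le_one hlN]; exact l1
  have y0 : 0 < y := by rw [hy]; positivity
  have y2 : 1 - e ≤ y := by
    rw [hy, le_div_iff₀ hlN]
    have : Real.log N ≤ (1 + e) * Real.log n := l2.trans g3
    nlinarith
  have w1 : 1 ≤ w := by rw [hw, one_le_div m0]; exact m1
  have w2 : w ≤ 1 + e := by rw [hw, div_le_iff₀ m0]; exact m2.trans g2
  have e1 : (P (A N)).toReal * (Real.log n / MM (z n)) =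
      (P (A N)).toReal * (Real.log N / MM (z N)) * y * w := by
    rw [hy, hw]; field_simp
  rw [e1]
  generalize (P (A N)).toReal * (Real.log N / MM (z N)) = x at *
  have x0 : 0 ≤ x := by linarith
  constructor
  · calc 1 - δ ≤ (1 - e) * (1 - e) * 1 := by nlinarith
      _ ≤ x * y * w := by
        have : 0 ≤ 1 - e := by linarith
        gcongr
  · calc x * y * w ≤ (1 + e) * 1 * (1 + e) := by gcongr
      _ ≤ 1 + δ := by nlinarith

lemma exp_low {p e : ℝ} (h0 : 0 ≤ p) (h1 : p ≤ 1 / 2) (h2 : p ≤ e) :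
    Real.exp (-((1 + e) * p)) ≤ 1 - p := by
  have h3 : Real.exp (-(p + p ^ 2)) ≤ 1 - p := by
    rw [Real.exp_neg]
    have h5 := Real.add_one_le_exp (p + p ^ 2)
    have h6 : 0 < 1 - p := by linarith
    have h7 := Real.quadratic_le_exp_of_nonneg (show 0 ≤ p + p ^ 2 by positivity)
    rw [inv_le_comm₀ (Real.exp_pos _) h6]
    refine le_trans ?_ h7
    rw [inv_le_iff_one_le_mul₀ h6]
    have : 0 ≤ p ^ 2 * (1 / 2 - p) := mul_nonneg (sq_nonneg p) (by linarith)
    have h8 : 0 ≤ p ^ 3 := by positivity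
    have h9 : 0 ≤ p ^ 4 * (1 / 2 - p) := mul_nonneg (by positivity) (by linarith)
    nlinarith [h8, this, h9]
  refine le_trans (Real.exp_le_exp.2 ?_) h3
  nlinarith

end WNGaux

open WNGaux EXPWaux in
theorem wng : S_MMZ → S_MERT → S_WNG := by
  intro hMMZ hMERT Ω _ P A z α hα hα1 hM ε hε
  classical
  obtain ⟨hz, hratio, -⟩ := hMMZ z α hα hM.mono hM.lev
  obtain ⟨δ, hδ⟩ : ∃ δ : ℝ, δ = min 1 (ε / 3) := ⟨_, rfl⟩
  have hδ0 : 0 < δ := by rw [hδ]; positivity
  have hδ1 : δ ≤ 1 := by rw [hδ]; exact min_le_left _ _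
  have hδ2 : 3 * δ ≤ ε := by
    have : δ ≤ ε / 3 := by rw [hδ]; exact min_le_right _ _
    linarith
  -- the ratio tends to zero
  have hr : Tendsto (fun n : ℕ => MM (z n) / Real.log n) atTop (𝓝 0) := by
    have h1 := (hMERT.comp hz).mul hM.lev
    have h2 : Tendsto (fun n : ℕ => Real.log (Real.log n) / Real.log n) atTop (𝓝 0) :=
      (Real.isLittleO_log_id_atTop.tendsto_div_nhds_zero).comp tlog
    have h3 := h1.mul h2
    rw [mul_zero] at h3
    refine h3.congr' ?_
    have hlz : Tendsto (fun n : ℕ => Real.log (z n)) atTop atTop :=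
      Real.tendsto_log_atTop.comp (tendsto_natCast_atTop_atTop.comp hz)
    filter_upwards [hlz.eventually_ge_atTop 1, tll.eventually_ge_atTop 1,
      tlog.eventually_ge_atTop 1] with n g1 g2 g3
    have a1 : Real.log (z n : ℝ) ≠ 0 := by linarith
    have a2 : Real.log (Real.log n) ≠ 0 := by linarith
    have a3 : Real.log (n : ℝ) ≠ 0 := by linarith
    simp only [Function.comp]
    field_simp
  filter_upwards [prob_range hM hratio hδ0, hr.eventually_le_const (show 0 < δ / 4 by positivity),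
    hr.eventually_le_const (show (0 : ℝ) < 1 / 8 by norm_num), tlog.eventually_ge_atTop 1,
    eventually_ge_atTop 1] with n g1 g2 g3 hL hn1
  intro m U hm hmU
  rw [prob_EE hM m U, sv_rou, sv_rou]
  obtain ⟨r, hrd⟩ : ∃ r : ℝ, r = MM (z n) / Real.log n := ⟨_, rfl⟩
  rw [← hrd] at g2 g3 ⊢
  have hr0 : 0 < r := by
    rw [hrd]
    exact div_pos (MM_pos _) (by linarith)
  have hinv : Real.log n / MM (z n) = r⁻¹ := by rw [hrd, inv_div]
  obtain ⟨p, hp⟩ : ∃ p : ℕ → ℝ, p = fun i => (P (A i)).toReal := ⟨_, rfl⟩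
  have hp0 : ∀ i, 0 ≤ p i := fun i => by rw [hp]; exact ENNReal.toReal_nonneg
  have hpR : ∀ i ∈ Finset.Ioc m (m + U), Rou (z i) i → (1 - δ) * r ≤ p i ∧ p i ≤ (1 + δ) * r := by
    intro i hi hR
    rw [Finset.mem_Ioc] at hi
    have h := g1 i (by omega) (by omega) hR
    rw [hinv] at h
    have e1 : p i = (P (A i)).toReal * r⁻¹ * r := by rw [hp]; field_simp
    rw [e1]
    exact ⟨mul_le_mul_of_nonneg_right h.1 hr0.le, mul_le_mul_of_nonneg_right h.2 hr0.le⟩
  have hpN : ∀ i, ¬ Rou (z i) i → p i = 0 := by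
    intro i hi
    rw [hp]
    simp only
    rw [hM.empty i hi, measure_empty, ENNReal.toReal_zero]
  have hs1 : (1 - δ) * r * (((Finset.Ioc m (m + U)).filter (fun i => Rou (z (3 * n)) i)).card : ℝ) ≤
      ∑ i ∈ Finset.Ioc m (m + U), p i := by
    have h1 : ∑ i ∈ (Finset.Ioc m (m + U)).filter (fun i => Rou (z (3 * n)) i), p i ≤
        ∑ i ∈ Finset.Ioc m (m + U), p i :=
      Finset.sum_le_sum_of_subset_of_nonneg (Finset.filter_subset _ _) fun i _ _ => hp0 i
    refine le_trans ?_ h1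
    rw [mul_comm, ← nsmul_eq_mul]
    refine Finset.card_nsmul_le_sum _ _ _ fun i hi => ?_
    rw [Finset.mem_filter] at hi
    have hi' := Finset.mem_Ioc.1 hi.1
    exact (hpR i hi.1 (rou_mono (hM.mono (by omega)) hi.2)).1
  have hs2 : ∑ i ∈ Finset.Ioc m (m + U), p i ≤
      (1 + δ) * r * (((Finset.Ioc m (m + U)).filter (fun i => Rou (z n) i)).card : ℝ) := by
    have h1 : ∑ i ∈ Finset.Ioc m (m + U), p i =
        ∑ i ∈ (Finset.Ioc m (m + U)).filter (fun i => Rou (z n) i), p i := by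
      symm
      refine Finset.sum_subset (Finset.filter_subset _ _) fun i hi hn => hpN i fun hR => hn ?_
      rw [Finset.mem_filter]
      have hi' := Finset.mem_Ioc.1 hi
      exact ⟨hi, rou_mono (hM.mono (by omega)) hR⟩
    rw [h1, mul_comm, ← nsmul_eq_mul]
    refine Finset.sum_le_card_nsmul _ _ _ fun i hi => ?_
    rw [Finset.mem_filter] at hi
    by_cases hR : Rou (z i) i
    · exact (hpR i hi.1 hR).2
    · rw [hpN i hR]; positivity
  have hpe : (∏ i ∈ Finset.Ioc m (m + U), (1 - (P (A i)).toReal)) =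
      ∏ i ∈ Finset.Ioc m (m + U), (1 - p i) := by rw [hp]
  rw [hpe]
  have hsmall : ∀ i ∈ Finset.Ioc m (m + U), p i ≤ 1 / 2 ∧ p i ≤ δ := by
    intro i hi
    by_cases hR : Rou (z i) i
    · have h1 := (hpR i hi hR).2
      have h2 : (1 + δ) * r ≤ 2 * r := mul_le_mul_of_nonneg_right (by linarith) hr0.le
      constructor <;> linarith
    · rw [hpN i hR]
      exact ⟨by norm_num, hδ0.le⟩
  constructor
  · calc Real.exp (-((1 + ε) * (r * (((Finset.Ioc m (m + U)).filter (fun i => Rou (z n) i)).card : ℝ))))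
        ≤ Real.exp (∑ i ∈ Finset.Ioc m (m + U), -((1 + δ) * p i)) := by
          apply Real.exp_le_exp.2
          rw [Finset.sum_neg_distrib, ← Finset.mul_sum]
          refine neg_le_neg ?_
          have h1 : (1 + δ) * ∑ i ∈ Finset.Ioc m (m + U), p i ≤ (1 + δ) * ((1 + δ) * r *
              (((Finset.Ioc m (m + U)).filter (fun i => Rou (z n) i)).card : ℝ)) :=
            mul_le_mul_of_nonneg_left hs2 (by linarith)
          refine h1.trans ?_
          have h2 : 0 ≤ r * (((Finset.Ioc m (m + U)).filter (fun i => Rou (z n) i)).card : ℝ) := by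
            positivity
          have h3 : (1 + δ) * (1 + δ) ≤ 1 + ε := by nlinarith
          calc (1 + δ) * ((1 + δ) * r * (((Finset.Ioc m (m + U)).filter (fun i => Rou (z n) i)).card : ℝ))
              = (1 + δ) * (1 + δ) * (r * (((Finset.Ioc m (m + U)).filter (fun i => Rou (z n) i)).card : ℝ)) := by
                ring
            _ ≤ _ := mul_le_mul_of_nonneg_right h3 h2
      _ = ∏ i ∈ Finset.Ioc m (m + U), Real.exp (-((1 + δ) * p i)) := Real.exp_sum _ _
      _ ≤ _ := Finset.prod_le_prod (fun i _ => (Real.exp_pos _).le) fun i hi =>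
          exp_low (hp0 i) (hsmall i hi).1 (hsmall i hi).2
  · calc ∏ i ∈ Finset.Ioc m (m + U), (1 - p i)
        ≤ ∏ i ∈ Finset.Ioc m (m + U), Real.exp (-(p i)) := by
          refine Finset.prod_le_prod (fun i hi => by linarith [(hsmall i hi).1]) fun i _ => ?_
          have := Real.add_one_le_exp (-(p i))
          linarith
      _ = Real.exp (∑ i ∈ Finset.Ioc m (m + U), -(p i)) := (Real.exp_sum _ _).symm
      _ ≤ Real.exp (-((1 - ε) * (r * (((Finset.Ioc m (m + U)).filter (fun i => Rou (z (3 * n)) i)).card : ℝ)))) := by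
          apply Real.exp_le_exp.2
          rw [Finset.sum_neg_distrib]
          refine neg_le_neg (le_trans ?_ hs1)
          have h2 : 0 ≤ r * (((Finset.Ioc m (m + U)).filter (fun i => Rou (z (3 * n)) i)).card : ℝ) := by
            positivity
          calc (1 - ε) * (r * (((Finset.Ioc m (m + U)).filter (fun i => Rou (z (3 * n)) i)).card : ℝ))
              ≤ (1 - δ) * (r * (((Finset.Ioc m (m + U)).filter (fun i => Rou (z (3 * n)) i)).card : ℝ)) :=
                mul_le_mul_of_nonneg_right (by linarith) h2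
            _ = (1 - δ) * r * (((Finset.Ioc m (m + U)).filter (fun i => Rou (z (3 * n)) i)).card : ℝ) := by
                ring

end Pool.Agent.H50.LG
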